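import Pool.Agent.W888.GX.Free

set_option autoImplicit false
set_option linter.unusedSectionVars false

/-!
The average number of leaves of a pruned tree.
-/

namespace Pool.Agent.W888.GX

open Finset Matrix
open Pool.Agent.W888.UG (lab lab_apply Tree isLinear int_value)

open Classical in
/-- The number of leaves of the pruned tree: a node is a leaf of the pruned tree if no point of the
relaxation `R` satisfies all the branches above it (the set `C`). -/
noncomputable def pruned {W A : Type} [Fintype W] [Fintype A] (R : Set (W → A → ℝ)) :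
    Tree W A → Set (W → A → ℝ) → ℕ
  | .leaf, _ => 1
  | .int c b l r, C =>
      if (C ∩ R).Nonempty then pruned R l (C ∩ {μ | ∑ w, ∑ a, (c w a : ℝ) * μ w a ≤ b}) +
        pruned R r (C ∩ {μ | (b : ℝ) + 1 ≤ ∑ w, ∑ a, (c w a : ℝ) * μ w a}) else 1
  | .real c b l r, C =>
      if (C ∩ R).Nonempty then pruned R l (C ∩ {μ | ∑ w, ∑ a, c w a * μ w a < b}) +
        pruned R r (C ∩ {μ | b ≤ ∑ w, ∑ a, c w a * μ w a}) else 1

section

variable {W A : Type} [Fintype W] [Fintype A]

theorem pruned_pos (R : Set (W → A → ℝ)) (T : Tree W A) :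
    ∀ C : Set (W → A → ℝ), 1 ≤ pruned R T C := by
  induction T with
  | leaf => intro C; exact le_rfl
  | int c b l r ihl ihr =>
    intro C
    unfold pruned
    split_ifs
    · exact (ihl _).trans (Nat.le_add_right _ _)
    · exact le_rfl
  | real c b l r ihl ihr =>
    intro C
    unfold pruned
    split_ifs
    · exact (ihl _).trans (Nat.le_add_right _ _)
    · exact le_rfl

theorem pruned_empty (R : Set (W → A → ℝ)) (T : Tree W A) (C : Set (W → A → ℝ))
    (h : ¬ (C ∩ R).Nonempty) : pruned R T C = 1 := by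
  cases T with
  | leaf => rfl
  | int c b l r => unfold pruned; rw [if_neg h]
  | real c b l r => unfold pruned; rw [if_neg h]

/-- the number of labellings in a set -/
noncomputable def cnt [DecidableEq W] (C : Set (W → A → ℝ)) : ℕ := by
  classical exact (univ.filter fun x : W → A => lab x ∈ C).card

theorem cnt_le [DecidableEq W] {C C1 C2 : Set (W → A → ℝ)}
    (h : ∀ x : W → A, lab x ∈ C → lab x ∈ C1 ∨ lab x ∈ C2) : cnt C ≤ cnt C1 + cnt C2 := by
  classical
  unfold cnt
  refine (card_le_card ?_).trans (card_union_le _ _)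
  intro x hx
  rw [mem_filter] at hx
  rw [mem_union, mem_filter, mem_filter]
  rcases h x hx.2 with h1 | h1
  · exact Or.inl ⟨mem_univ _, h1⟩
  · exact Or.inr ⟨mem_univ _, h1⟩

open Classical in
theorem avg [DecidableEq W] {X : Type} (F : Finset X) (R : X → Set (W → A → ℝ)) (B K : ℝ)
    (hB : 0 < B) (hK : 0 < K)
    (hbig : ∀ C : Set (W → A → ℝ), Convex ℝ C → B ≤ cnt C →
      K ≤ ((F.filter fun b => (C ∩ R b).Nonempty).card : ℝ)) (T : Tree W A) :
    ∀ C : Set (W → A → ℝ), Convex ℝ C → (∀ b ∈ F, T.Proves (R b) C) →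
      (cnt C : ℝ) ≤ B * (1 + (∑ b ∈ F, ((pruned (R b) T C : ℝ) - 1)) / K) := by
  have hnn : ∀ (T : Tree W A) (C : Set (W → A → ℝ)),
      0 ≤ ∑ b ∈ F, ((pruned (R b) T C : ℝ) - 1) := by
    intro T C
    refine Finset.sum_nonneg fun b _ => ?_
    have : (1 : ℝ) ≤ (pruned (R b) T C : ℝ) := by exact_mod_cast pruned_pos (R b) T C
    linarith
  have hstep : ∀ (T l r : Tree W A) (C C1 C2 : Set (W → A → ℝ)), Convex ℝ C →
      (∀ x : W → A, lab x ∈ C → lab x ∈ C1 ∨ lab x ∈ C2) → C1 ⊆ C → C2 ⊆ C →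
      (∀ b ∈ F, (C ∩ R b).Nonempty →
        pruned (R b) T C = pruned (R b) l C1 + pruned (R b) r C2) →
      (cnt C1 : ℝ) ≤ B * (1 + (∑ b ∈ F, ((pruned (R b) l C1 : ℝ) - 1)) / K) →
      (cnt C2 : ℝ) ≤ B * (1 + (∑ b ∈ F, ((pruned (R b) r C2 : ℝ) - 1)) / K) →
      (cnt C : ℝ) ≤ B * (1 + (∑ b ∈ F, ((pruned (R b) T C : ℝ) - 1)) / K) := by
    intro T l r C C1 C2 hC hx hC1 hC2 hp h1 h2
    rcases lt_or_ge (cnt C : ℝ) B with hlt | hge
    · have h3 : 0 ≤ (∑ b ∈ F, ((pruned (R b) T C : ℝ) - 1)) / K := div_nonneg (hnn T C) hK.le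
      have h4 : B * 1 ≤ B * (1 + (∑ b ∈ F, ((pruned (R b) T C : ℝ) - 1)) / K) :=
        mul_le_mul_of_nonneg_left (by linarith) hB.le
      linarith
    · have h3 := hbig C hC hge
      have h4 : ∑ b ∈ F, ((pruned (R b) T C : ℝ) - 1) =
          ((F.filter fun b => (C ∩ R b).Nonempty).card : ℝ) +
            (∑ b ∈ F, ((pruned (R b) l C1 : ℝ) - 1) + ∑ b ∈ F, ((pruned (R b) r C2 : ℝ) - 1)) := by
        rw [Finset.card_filter]
        push_cast
        rw [← Finset.sum_add_distrib, ← Finset.sum_add_distrib]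
        refine Finset.sum_congr rfl fun b hb => ?_
        by_cases hne : (C ∩ R b).Nonempty
        · rw [if_pos hne, hp b hb hne]
          push_cast
          ring
        · rw [if_neg hne, pruned_empty _ T C hne,
            pruned_empty _ l C1 fun h => hne (h.mono (Set.inter_subset_inter_left _ hC1)),
            pruned_empty _ r C2 fun h => hne (h.mono (Set.inter_subset_inter_left _ hC2))]
          push_cast
          ring
      have h5 : (cnt C : ℝ) ≤ cnt C1 + cnt C2 := by exact_mod_cast cnt_le hx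
      have h6 : 1 ≤ ((F.filter fun b => (C ∩ R b).Nonempty).card : ℝ) / K := by
        rwa [one_le_div hK]
      rw [h4, add_div, add_div]
      have h7 : B * 1 ≤ B * (((F.filter fun b => (C ∩ R b).Nonempty).card : ℝ) / K) :=
        mul_le_mul_of_nonneg_left h6 hB.le
      calc (cnt C : ℝ) ≤ cnt C1 + cnt C2 := h5
        _ ≤ _ := by linarith
  induction T with
  | leaf =>
    intro C hC hP
    rcases lt_or_ge (cnt C : ℝ) B with hlt | hge
    · have h3 : 0 ≤ (∑ b ∈ F, ((pruned (R b) Tree.leaf C : ℝ) - 1)) / K :=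
        div_nonneg (hnn _ C) hK.le
      have h4 : B * 1 ≤ B * (1 + (∑ b ∈ F, ((pruned (R b) Tree.leaf C : ℝ) - 1)) / K) :=
        mul_le_mul_of_nonneg_left (by linarith) hB.le
      linarith
    · exfalso
      have h3 := lt_of_lt_of_le hK (hbig C hC hge)
      have h4 : 0 < (F.filter fun b => (C ∩ R b).Nonempty).card := by exact_mod_cast h3
      obtain ⟨b, hb⟩ := Finset.card_pos.1 h4
      rw [mem_filter] at hb
      obtain ⟨μ, hμ⟩ := hb.2
      exact hP b hb.1 μ hμ.1 hμ.2
  | int c b l r ihl ihr =>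
    intro C hC hP
    have hC1 : Convex ℝ (C ∩ {μ | ∑ w, ∑ a, (c w a : ℝ) * μ w a ≤ b}) :=
      hC.inter (convex_halfSpace_le (isLinear fun w a => (c w a : ℝ)) _)
    have hC2 : Convex ℝ (C ∩ {μ | (b : ℝ) + 1 ≤ ∑ w, ∑ a, (c w a : ℝ) * μ w a}) :=
      hC.inter (convex_halfSpace_ge (isLinear fun w a => (c w a : ℝ)) _)
    refine hstep _ l r C _ _ hC (fun x hx => ?_) Set.inter_subset_left Set.inter_subset_left
      (fun i hi hne => ?_) (ihl _ hC1 fun i hi => (hP i hi).1) (ihr _ hC2 fun i hi => (hP i hi).2)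
    · obtain ⟨m, hm⟩ := int_value c x
      rcases le_or_gt m b with h | h
      · left
        refine ⟨hx, ?_⟩
        show ∑ w, ∑ a, (c w a : ℝ) * lab x w a ≤ b
        rw [hm]
        exact_mod_cast h
      · right
        refine ⟨hx, ?_⟩
        show (b : ℝ) + 1 ≤ ∑ w, ∑ a, (c w a : ℝ) * lab x w a
        rw [hm]
        exact_mod_cast h
    · rw [pruned, if_pos hne]
  | real c b l r ihl ihr =>
    intro C hC hP
    have hC1 : Convex ℝ (C ∩ {μ | ∑ w, ∑ a, c w a * μ w a < b}) :=
      hC.inter (convex_halfSpace_lt (isLinear c) _)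
    have hC2 : Convex ℝ (C ∩ {μ | b ≤ ∑ w, ∑ a, c w a * μ w a}) :=
      hC.inter (convex_halfSpace_ge (isLinear c) _)
    refine hstep _ l r C _ _ hC (fun x hx => ?_) Set.inter_subset_left Set.inter_subset_left
      (fun i hi hne => ?_) (ihl _ hC1 fun i hi => (hP i hi).1) (ihr _ hC2 fun i hi => (hP i hi).2)
    · rcases lt_or_ge (∑ w, ∑ a, c w a * lab x w a) b with h | h
      · exact Or.inl ⟨hx, h⟩
      · exact Or.inr ⟨hx, h⟩
    · rw [pruned, if_pos hne]

end

/-- the number of vectors with prescribed coordinates in `J` -/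
theorem card_presc {m : ℕ} (J : Finset (Fin m)) (t : Fin m → ZMod 2) :
    (univ.filter fun b : Fin m → ZMod 2 => ∀ j ∈ J, b j = t j).card * 2 ^ J.card = 2 ^ m := by
  classical
  have h1 : (univ.filter fun b : Fin m → ZMod 2 => ∀ j ∈ J, b j = t j) =
      Fintype.piFinset fun j => if j ∈ J then {t j} else univ := by
    ext b
    rw [mem_filter, Fintype.mem_piFinset]
    constructor
    · rintro ⟨-, h⟩ j
      split_ifs with hj
      · rw [mem_singleton]
        exact h j hj
      · exact mem_univ _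
    · intro h
      refine ⟨mem_univ _, fun j hj => ?_⟩
      have := h j
      rwa [if_pos hj, mem_singleton] at this
  rw [h1, Fintype.card_piFinset]
  have h2 : ∀ j : Fin m, (if j ∈ J then ({t j} : Finset (ZMod 2)) else univ).card =
      if j ∈ J then 1 else 2 := by
    intro j
    split_ifs
    · rw [card_singleton]
    · rw [card_univ, ZMod.card]
  simp only [h2]
  rw [Finset.prod_ite, Finset.prod_const_one, one_mul, Finset.prod_const]
  have h3 : (univ.filter fun j => j ∉ J).card = m - J.card := by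
    have : (univ.filter fun j => j ∉ J) = Jᶜ := by
      ext j
      rw [mem_filter, mem_compl]
      exact ⟨fun h => h.2, fun h => ⟨mem_univ _, h⟩⟩
    rw [this, card_compl, Fintype.card_fin]
  rw [h3, ← pow_add]
  congr 1
  have := card_le_univ J
  rw [Fintype.card_fin] at this
  omega

open Classical in
/-- few right-hand sides are close to the image -/
theorem near_count {n m k : ℕ} {δ : ℝ} (hδ : 0 < δ)
    (hm : 2 * (Real.log 2 * n) ≤ 2 * δ ^ 2 * m) (c : Fin m → Fin k → Fin n) :
    ((univ.filter fun b : Fin m → ZMod 2 => ¬ ∀ x, (1 / 2 - δ) * m ≤ viol c b x).card : ℝ) *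
      2 ^ n ≤ 2 ^ m := by
  obtain ⟨T, hT⟩ : ∃ T : Fin m × Fin k → Fin n, T = fun p => c p.1 p.2 := ⟨_, rfl⟩
  have hcov : (univ.filter fun b : Fin m → ZMod 2 => ¬ ∀ x, (1 / 2 - δ) * m ≤ viol c b x) ⊆
      (univ : Finset (Fin n → ZMod 2)).biUnion fun a =>
        univ.filter fun b : Fin m → ZMod 2 =>
          (Pool.Agent.H30R2.NS.wt (Pool.Agent.H30R2.NS.A T a + b) : ℝ) < (1 / 2 - δ) * m := by
    intro b hb
    rw [mem_filter] at hb
    obtain ⟨-, hb⟩ := hb
    push Not at hb
    obtain ⟨a, ha⟩ := hb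
    rw [Finset.mem_biUnion]
    refine ⟨a, mem_univ _, mem_filter.2 ⟨mem_univ _, ?_⟩⟩
    rw [viol_eq, ← hT] at ha
    exact ha
  have h1 : ∀ a : Fin n → ZMod 2,
      (univ.filter fun b : Fin m → ZMod 2 =>
        (Pool.Agent.H30R2.NS.wt (Pool.Agent.H30R2.NS.A T a + b) : ℝ) < (1 / 2 - δ) * m).card =
      (univ.filter fun e : Fin m → ZMod 2 =>
        (Pool.Agent.H30R2.NS.wt e : ℝ) < (1 / 2 - δ) * m).card := by
    intro a
    refine Finset.card_bij (fun b _ => Pool.Agent.H30R2.NS.A T a + b) ?_ ?_ ?_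
    · intro b hb
      rw [Finset.mem_filter] at hb ⊢
      exact ⟨mem_univ _, hb.2⟩
    · intro b _ b' _ h
      exact add_left_cancel h
    · intro e he
      rw [Finset.mem_filter] at he
      refine ⟨-Pool.Agent.H30R2.NS.A T a + e, ?_, ?_⟩
      · rw [Finset.mem_filter]
        refine ⟨mem_univ _, ?_⟩
        rw [add_neg_cancel_left]
        exact he.2
      · exact add_neg_cancel_left _ _
  have h2 : ((univ.filter fun b : Fin m → ZMod 2 =>
      ¬ ∀ x, (1 / 2 - δ) * m ≤ viol c b x).card : ℝ) ≤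
      2 ^ n * (2 ^ m * Real.exp (-(2 * δ ^ 2 * m))) := by
    calc ((univ.filter fun b : Fin m → ZMod 2 =>
          ¬ ∀ x, (1 / 2 - δ) * m ≤ viol c b x).card : ℝ)
        ≤ (((univ : Finset (Fin n → ZMod 2)).biUnion fun a =>
          univ.filter fun b : Fin m → ZMod 2 =>
            (Pool.Agent.H30R2.NS.wt (Pool.Agent.H30R2.NS.A T a + b) : ℝ) <
              (1 / 2 - δ) * m).card : ℝ) := by
          exact_mod_cast Finset.card_le_card hcov
      _ ≤ ∑ a : Fin n → ZMod 2, ((univ.filter fun b : Fin m → ZMod 2 =>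
          (Pool.Agent.H30R2.NS.wt (Pool.Agent.H30R2.NS.A T a + b) : ℝ) <
            (1 / 2 - δ) * m).card : ℝ) := by
          exact_mod_cast Finset.card_biUnion_le
      _ ≤ ∑ _a : Fin n → ZMod 2, (2 ^ m * Real.exp (-(2 * δ ^ 2 * m))) := by
          refine Finset.sum_le_sum fun a _ => ?_
          rw [h1 a]
          exact Pool.Agent.H30R2.NS.chernoff m hδ
      _ = _ := by
          rw [Finset.sum_const, Finset.card_univ, Fintype.card_fun, ZMod.card, nsmul_eq_mul,
            Fintype.card_fin]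
          push_cast
          rfl
  have h3 : Real.exp (-(2 * δ ^ 2 * m)) ≤ (1 / 2 ^ n) * (1 / 2 ^ n) := by
    have h4 : (1 / (2 : ℝ) ^ n) * (1 / 2 ^ n) = Real.exp (-(2 * (Real.log 2 * n))) := by
      rw [← Real.rpow_natCast 2 n, Real.rpow_def_of_pos (by norm_num), one_div, ← Real.exp_neg,
        ← Real.exp_add]
      congr 1
      ring
    rw [h4]
    exact Real.exp_le_exp.2 (by linarith)
  have h5 : (0 : ℝ) < 2 ^ n := by positivity
  calc ((univ.filter fun b : Fin m → ZMod 2 =>
        ¬ ∀ x, (1 / 2 - δ) * m ≤ viol c b x).card : ℝ) * 2 ^ n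
      ≤ (2 ^ n * (2 ^ m * Real.exp (-(2 * δ ^ 2 * m)))) * 2 ^ n :=
        mul_le_mul_of_nonneg_right h2 h5.le
    _ ≤ (2 ^ n * (2 ^ m * ((1 / 2 ^ n) * (1 / 2 ^ n)))) * 2 ^ n := by gcongr
    _ = 2 ^ m := by field_simp

end Pool.Agent.W888.GX
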