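import Pool.Agent.W888.GX.Mix
import Pool.Agent.W888.UG.KV
import Pool.Agent.H30R2.NS.Gap

set_option autoImplicit false
set_option linter.unusedSectionVars false

/-!
The clauses of a system of equations, and the completeness of the branch-and-cut system.
-/

namespace Pool.Agent.W888.GX

open Finset Matrix
open Pool.Agent.W888.UG (lab lab_apply Tree full full_proves)

/-- the wrong values of equation `j`, indexed by all but the first value -/
def wrong {m k : ℕ} (b : Fin m → ZMod 2) (p : Fin m × (Fin k → ZMod 2)) : Fin (k + 1) → ZMod 2 :=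
  Fin.cons (b p.1 + 1 + ∑ i, p.2 i) p.2

/-- the clauses of the equations -/
def cl {n m k : ℕ} (c : Fin m → Fin (k + 1) → Fin n) (b : Fin m → ZMod 2)
    (p : Fin m × (Fin k → ZMod 2)) : Clause (k + 1) n :=
  fun l => (c p.1 l, wrong b p l + 1)

theorem z2_ne (a b : ZMod 2) : a ≠ b + 1 ↔ a = b := by
  revert a b
  decide

theorem z2_ne' (a b : ZMod 2) : a ≠ b ↔ a = b + 1 := by
  revert a b
  decide

theorem not_sat {n m k : ℕ} (c : Fin m → Fin (k + 1) → Fin n) (b : Fin m → ZMod 2)
    (p : Fin m × (Fin k → ZMod 2)) (x : Fin n → ZMod 2) :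
    ¬ Satisfies x (cl c b p) ↔ ∀ l, x (c p.1 l) = wrong b p l := by
  unfold Satisfies cl
  push Not
  exact forall_congr' fun l => z2_ne _ _

open Classical in
theorem falsified_eq {n m k : ℕ} (c : Fin m → Fin (k + 1) → Fin n) (b : Fin m → ZMod 2)
    (x : Fin n → ZMod 2) : (falsified (cl c b) x : ℝ) = viol c b x := by
  unfold falsified viol
  simp only [not_sat]
  rw [Finset.card_filter, Fintype.sum_prod_type]
  push_cast
  refine Finset.sum_congr rfl fun j _ => ?_
  have hsum : ∑ s, x (c j s) = x (c j 0) + ∑ i : Fin k, x (c j i.succ) := Fin.sum_univ_succ _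
  by_cases h : ∑ s, x (c j s) = b j
  · rw [if_pos h]
    refine Finset.sum_eq_zero fun β _ => if_neg fun hall => ?_
    have h0 := hall 0
    have h1 : ∀ i : Fin k, x (c j i.succ) = β i := fun i => by
      have := hall i.succ
      rwa [wrong, Fin.cons_succ] at this
    rw [wrong, Fin.cons_zero] at h0
    rw [hsum, h0, Finset.sum_congr rfl fun i _ => h1 i, add_assoc, z2_add_self, add_zero] at h
    revert h
    generalize b j = z
    revert z
    decide
  · rw [if_neg h, Finset.sum_eq_single fun i : Fin k => x (c j i.succ)]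
    · rw [if_pos]
      intro l
      refine Fin.cases ?_ (fun i => ?_) l
      · rw [wrong, Fin.cons_zero]
        have h1 := (z2_ne' _ _).1 h
        rw [hsum] at h1
        show x (c j 0) = b j + 1 + ∑ i : Fin k, x (c j i.succ)
        rw [← h1, add_assoc, z2_add_self, add_zero]
      · rw [wrong, Fin.cons_succ]
    · intro β _ hβ
      refine if_neg fun hall => hβ ?_
      funext i
      have := hall i.succ
      rw [wrong, Fin.cons_succ] at this
      exact this.symm
    · intro h
      exact absurd (mem_univ _) h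

theorem viol_eq {n m k : ℕ} (c : Fin m → Fin k → Fin n) (b : Fin m → ZMod 2)
    (x : Fin n → ZMod 2) : viol c b x =
      (Pool.Agent.H30R2.NS.wt (Pool.Agent.H30R2.NS.A (fun p : Fin m × Fin k => c p.1 p.2) x + b) :
        ℝ) := by
  unfold viol Pool.Agent.H30R2.NS.wt
  rw [Finset.card_filter]
  push_cast
  refine Finset.sum_congr rfl fun j _ => ?_
  rw [Pi.add_apply, Pool.Agent.H30R2.NS.A_apply]
  by_cases h : ∑ s, x (c j s) = b j
  · rw [if_pos h, h, z2_add_self, if_neg (not_not.2 rfl)]
  · rw [if_neg h, if_pos]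
    intro h1
    refine h ?_
    have h2 : ∑ s, x (c j s) + b j + b j = b j := by rw [h1, zero_add]
    rwa [add_assoc, z2_add_self, add_zero] at h2

section complete

variable {n : ℕ}

theorem pe_mul_zero {D : ℕ} {L : ((Fin n → ZMod 2) → ℝ) →ₗ[ℝ] ℝ} (hL : IsPseudoExpectation D L)
    {f g : (Fin n → ZMod 2) → ℝ} (hf : f ∈ LowDegree (Fin n) (ZMod 2) D)
    (hg : g ∈ LowDegree (Fin n) (ZMod 2) D) (hg0 : L (fun x => g x ^ 2) = 0) :
    L (fun x => f x * g x) = 0 := by
  have h1 : ∀ t : ℝ, 0 ≤ L (fun x => f x ^ 2) + 2 * t * L (fun x => f x * g x) := by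
    intro t
    have h2 := hL.2 (f + t • g) (Submodule.add_mem _ hf (Submodule.smul_mem _ t hg))
    have h3 : (fun x => (f + t • g) x ^ 2) = (fun x => f x ^ 2) +
        ((2 * t) • (fun x => f x * g x) + (t ^ 2) • fun x => g x ^ 2) := by
      funext x
      simp only [Pi.add_apply, Pi.smul_apply, smul_eq_mul]
      ring
    rw [h3, map_add, map_add, map_smul, map_smul, hg0, smul_eq_mul, smul_eq_mul, mul_zero,
      add_zero] at h2
    exact h2
  by_contra hne
  have h2 := h1 (-(L (fun x => f x ^ 2) + 1) / (2 * L (fun x => f x * g x)))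
  have h3 : 2 * (-(L (fun x => f x ^ 2) + 1) / (2 * L (fun x => f x * g x))) *
      L (fun x => f x * g x) = -(L (fun x => f x ^ 2) + 1) := by
    field_simp
  rw [h3] at h2
  linarith

theorem junta_mem {D : ℕ} {f : (Fin n → ZMod 2) → ℝ} (S : Finset (Fin n)) (hS : S.card ≤ D)
    (hf : ∀ x y : Fin n → ZMod 2, (∀ v ∈ S, x v = y v) → f x = f y) :
    f ∈ LowDegree (Fin n) (ZMod 2) D :=
  Submodule.subset_span ⟨S, hS, hf⟩

/-- If all variables are fixed then the pseudo-expectation is the evaluation on juntas. -/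
theorem pe_eval {D : ℕ} {L : ((Fin n → ZMod 2) → ℝ) →ₗ[ℝ] ℝ} (hL : IsPseudoExpectation D L)
    (hD : 1 ≤ D) (x0 : Fin n → ZMod 2) (h : ∀ v, L (fun x => if x v = x0 v then 1 else 0) = 1)
    (f : (Fin n → ZMod 2) → ℝ) (S : Finset (Fin n)) (hS : S.card ≤ D)
    (hf : ∀ x y : Fin n → ZMod 2, (∀ v ∈ S, x v = y v) → f x = f y) : L f = f x0 := by
  classical
  -- multiplication by an indicator does not change the value
  have hstep : ∀ (g : (Fin n → ZMod 2) → ℝ), (∀ x y : Fin n → ZMod 2, (∀ v ∈ S, x v = y v) →
      g x = g y) → ∀ v ∈ S, L (fun x => g x * (if x v = x0 v then 1 else 0)) = L g := by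
    intro g hg v _
    have h1 : (fun x : Fin n → ZMod 2 => if x v = x0 v then (0 : ℝ) else 1) ∈
        LowDegree (Fin n) (ZMod 2) D :=
      junta_mem {v} (by rw [card_singleton]; exact hD) fun x y hxy => by
        rw [hxy v (mem_singleton_self v)]
    have h2 : L (fun x : Fin n → ZMod 2 => (if x v = x0 v then (0 : ℝ) else 1) ^ 2) = 0 := by
      have h3 : (fun x : Fin n → ZMod 2 => (if x v = x0 v then (0 : ℝ) else 1) ^ 2) =
          (fun _ => 1) - fun x => if x v = x0 v then 1 else 0 := by
        funext x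
        rw [Pi.sub_apply]
        split_ifs <;> norm_num
      rw [h3, map_sub, hL.1, h v, sub_self]
    have h3 := pe_mul_zero hL (junta_mem S hS hg) h1 h2
    have h4 : (fun x => g x * (if x v = x0 v then (1 : ℝ) else 0)) =
        g - fun x => g x * (if x v = x0 v then (0 : ℝ) else 1) := by
      funext x
      rw [Pi.sub_apply]
      split_ifs <;> ring
    rw [h4, map_sub, h3, sub_zero]
  have hprod : ∀ (g : (Fin n → ZMod 2) → ℝ), (∀ x y : Fin n → ZMod 2, (∀ v ∈ S, x v = y v) →
      g x = g y) → ∀ T ⊆ S, L (fun x => g x * ∏ v ∈ T, (if x v = x0 v then 1 else 0)) = L g := by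
    intro g hg T
    induction T using Finset.induction_on with
    | empty =>
      intro _
      simp
    | insert v T hv ih =>
      intro hT
      have h1 := hstep (fun x => g x * ∏ v ∈ T, (if x v = x0 v then 1 else 0)) (by
        intro x y hxy
        rw [hg x y hxy]
        congr 1
        refine Finset.prod_congr rfl fun u hu => ?_
        rw [hxy u (hT (mem_insert_of_mem hu))]) v (hT (mem_insert_self v T))
      rw [ih fun u hu => hT (mem_insert_of_mem hu)] at h1
      rw [← h1]
      congr 1
      funext x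
      rw [Finset.prod_insert hv]
      ring
  have h1 := hprod f hf S subset_rfl
  have h2 := hprod (fun _ => 1) (fun _ _ _ => rfl) S subset_rfl
  have h3 : (fun x => f x * ∏ v ∈ S, (if x v = x0 v then (1 : ℝ) else 0)) =
      f x0 • fun x => 1 * ∏ v ∈ S, (if x v = x0 v then (1 : ℝ) else 0) := by
    funext x
    rw [Pi.smul_apply, smul_eq_mul, one_mul]
    by_cases hx : ∀ v ∈ S, x v = x0 v
    · rw [hf x x0 hx]
    · push Not at hx
      obtain ⟨v, hv, hne⟩ := hx
      have : ∏ v ∈ S, (if x v = x0 v then (1 : ℝ) else 0) = 0 :=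
        Finset.prod_eq_zero hv (if_neg hne)
      rw [this, mul_zero, mul_zero]
  rw [← h1, h3, map_smul, h2, hL.1, smul_eq_mul, mul_one]

open Classical in
/-- If every assignment falsifies more than `β` clauses, then a tree with `2 ^ n` leaves proves
it. -/
theorem exists_tree {k D : ℕ} {I : Type} [Fintype I] (F : I → Clause k n) (β : ℝ) (hk : k ≤ D)
    (hD : 1 ≤ D) (h : ∀ x, β < falsified F x) :
    ∃ T : Tree (Fin n) (ZMod 2), T.leaves = 2 ^ n ∧ T.Proves (Relax D F β) Set.univ := by
  have hleaves : ∀ l : List (Fin n × ZMod 2), (full l).leaves = 2 ^ l.length := by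
    intro l
    induction l with
    | nil => rfl
    | cons p l ih =>
      show (full l).leaves + (full l).leaves = 2 ^ (l.length + 1)
      rw [ih, pow_succ]
      ring
  refine ⟨full ((Finset.univ : Finset (Fin n)).toList.map fun v => (v, 1)), ?_,
    full_proves _ _ _ ?_⟩
  · rw [hleaves, List.length_map, Finset.length_toList, card_univ, Fintype.card_fin]
  · rintro μ - h01 ⟨L, hL, hμ, hval⟩
    have h01' : ∀ v, μ v 1 ≤ 0 ∨ 1 ≤ μ v 1 := fun v => h01 (v, 1) (by simp)
    have hsum : ∀ v, μ v 0 + μ v 1 = 1 := by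
      intro v
      have e : (fun x : Fin n → ZMod 2 => if x v = 0 then (1 : ℝ) else 0) +
          (fun x => if x v = 1 then 1 else 0) = fun _ => 1 := by
        funext x
        rw [Pi.add_apply]
        rcases z2 (x v) with hx | hx
        · rw [hx, if_pos rfl, if_neg (by decide)]; norm_num
        · rw [hx, if_pos rfl, if_neg (by decide)]; norm_num
      rw [hμ, hμ, ← map_add, e, hL.1]
    have hnn : ∀ v a, 0 ≤ μ v a := by
      intro v a
      rw [hμ]
      have h1 := hL.2 (fun x => if x v = a then 1 else 0)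
        (junta_mem {v} (by rw [card_singleton]; exact hD) fun x y hxy => by
          rw [hxy v (mem_singleton_self v)])
      have h2 : (fun x : Fin n → ZMod 2 => (if x v = a then (1 : ℝ) else 0) ^ 2) =
          fun x => if x v = a then 1 else 0 := by
        funext x
        split_ifs <;> norm_num
      rwa [h2] at h1
    obtain ⟨x0, hx0⟩ : ∃ x0 : Fin n → ZMod 2, ∀ v, L (fun x => if x v = x0 v then 1 else 0) = 1 := by
      refine ⟨fun v => if μ v 1 ≤ 0 then 0 else 1, fun v => ?_⟩
      beta_reduce
      rw [← hμ]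
      have h1 := hsum v
      have h2 := hnn v 0
      have h3 := hnn v 1
      split_ifs with h4
      · linarith
      · rcases h01' v with h5 | h5
        · exact absurd h5 h4
        · linarith
    have h1 : (fun x => (falsified F x : ℝ)) =
        ∑ i, fun x => if ¬ Satisfies x (F i) then (1 : ℝ) else 0 := by
      funext x
      rw [Finset.sum_apply]
      unfold falsified
      rw [Finset.card_filter]
      push_cast
      rfl
    have h2 : L (fun x => (falsified F x : ℝ)) = falsified F x0 := by
      rw [h1, map_sum]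
      have h3 : (falsified F x0 : ℝ) = ∑ i, if ¬ Satisfies x0 (F i) then (1 : ℝ) else 0 := by
        unfold falsified
        rw [Finset.card_filter]
        push_cast
        rfl
      rw [h3]
      refine Finset.sum_congr rfl fun i _ => ?_
      refine pe_eval hL hD x0 hx0 _ (univ.image fun l => (F i l).1) ?_ ?_
      · refine Finset.card_image_le.trans ?_
        rw [card_univ, Fintype.card_fin]
        exact hk
      · intro x y hxy
        have h4 : Satisfies x (F i) ↔ Satisfies y (F i) := by
          unfold Satisfies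
          refine exists_congr fun l => ?_
          rw [hxy (F i l).1 (mem_image.2 ⟨l, mem_univ _, rfl⟩)]
        simp only [h4]
    rw [h2] at hval
    exact absurd hval (not_le.2 (h x0))

end complete

/-- pigeonhole -/
theorem exists_big {n : ℕ} (F : List (Set (Fin n → ZMod 2 → ℝ)))
    (hcov : ∀ l : Fin n → ZMod 2, ∃ C ∈ F, lab l ∈ C) :
    ∃ C ∈ F, ∃ S : Finset (Fin n → ZMod 2), (∀ x ∈ S, lab x ∈ C) ∧
      (2 : ℝ) ^ n ≤ F.length * S.card := by
  classical
  by_contra hcon
  push Not at hcon
  have h0 : (Fintype.card (Fin n → ZMod 2) : ℝ) = 2 ^ n := by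
    rw [Fintype.card_fun, ZMod.card, Fintype.card_fin]
    push_cast
    rfl
  have h1 : (Fintype.card (Fin n → ZMod 2) : ℝ) ≤
      ∑ i : Fin F.length, ((Finset.univ.filter fun l : Fin n → ZMod 2 => lab l ∈ F.get i).card : ℝ) := by
    rw [← Finset.card_univ]
    have h2 : (Finset.univ : Finset (Fin n → ZMod 2)) ⊆ Finset.univ.biUnion fun i : Fin F.length =>
        Finset.univ.filter fun l : Fin n → ZMod 2 => lab l ∈ F.get i := by
      intro l _
      obtain ⟨C, hC, hl⟩ := hcov l
      obtain ⟨i, hi⟩ := List.get_of_mem hC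
      rw [Finset.mem_biUnion]
      refine ⟨i, Finset.mem_univ _, ?_⟩
      rw [Finset.mem_filter]
      exact ⟨Finset.mem_univ _, by rw [hi]; exact hl⟩
    calc ((Finset.univ : Finset (Fin n → ZMod 2)).card : ℝ) ≤
          ((Finset.univ.biUnion fun i : Fin F.length =>
            Finset.univ.filter fun l : Fin n → ZMod 2 => lab l ∈ F.get i).card : ℝ) := by
            exact_mod_cast Finset.card_le_card h2
      _ ≤ _ := by exact_mod_cast Finset.card_biUnion_le
  have hlen : 0 < F.length := by
    obtain ⟨C, hC, -⟩ := hcov 0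
    exact List.length_pos_of_mem hC
  have h3 : (F.length : ℝ) * ∑ i : Fin F.length,
      ((Finset.univ.filter fun l : Fin n → ZMod 2 => lab l ∈ F.get i).card : ℝ) <
        ∑ _i : Fin F.length, (2 : ℝ) ^ n := by
    rw [Finset.mul_sum]
    apply Finset.sum_lt_sum_of_nonempty
    · exact ⟨⟨0, hlen⟩, Finset.mem_univ _⟩
    · intro i _
      exact hcon _ (List.get_mem _ _) _ fun x hx => (mem_filter.1 hx).2
  rw [Finset.sum_const, Finset.card_univ, Fintype.card_fin, nsmul_eq_mul] at h3
  have h4 : (F.length : ℝ) * (Fintype.card (Fin n → ZMod 2) : ℝ) ≤ (F.length : ℝ) *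
      ∑ i : Fin F.length, ((Finset.univ.filter fun l : Fin n → ZMod 2 =>
        lab l ∈ F.get i).card : ℝ) :=
    mul_le_mul_of_nonneg_left h1 (Nat.cast_nonneg _)
  rw [h0] at h4
  linarith

end Pool.Agent.W888.GX
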