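import Pool.Agent.W888.GX.Cnf

set_option autoImplicit false
set_option linter.unusedSectionVars false

/-!
The main theorem: branch-and-cut over sum-of-squares relaxations of linear degree.
-/

namespace Pool.Agent.W888.GX

open Finset Matrix
open Pool.Agent.W888.UG (lab lab_apply Tree SplitProof cover_of_tree tree_of_split)

theorem param_k (q k : ℕ) (hk : 4 * (10 * q + 12) ≤ k) :
    (32 : ℝ) ^ q * (2 ^ 6 * (1 - ((10 * q + 12 : ℕ) : ℝ) / k / 2) ^ k) ≤ 1 := by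
  have hk0 : (0 : ℝ) < k := by
    have : 0 < k := by omega
    exact_mod_cast this
  have h1 : (1 - ((10 * q + 12 : ℕ) : ℝ) / k / 2) ^ k ≤ Real.exp (-(5 * q + 6)) := by
    have h2 : 1 - ((10 * q + 12 : ℕ) : ℝ) / k / 2 ≤
        Real.exp (-(((10 * q + 12 : ℕ) : ℝ) / k / 2)) := by
      have := Real.add_one_le_exp (-(((10 * q + 12 : ℕ) : ℝ) / k / 2))
      linarith
    have h3 : (0 : ℝ) ≤ 1 - ((10 * q + 12 : ℕ) : ℝ) / k / 2 := by
      have h4 : ((10 * q + 12 : ℕ) : ℝ) / k ≤ 1 := by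
        rw [div_le_one hk0]
        exact_mod_cast (by omega : 10 * q + 12 ≤ k)
      linarith
    refine (pow_le_pow_left₀ h3 h2 k).trans ?_
    rw [← Real.exp_nat_mul]
    apply Real.exp_le_exp.2
    push_cast
    apply le_of_eq
    field_simp
    ring
  have h2 : Real.exp (-(5 * q + 6)) ≤ (1 / 2) ^ (5 * q + 6) := by
    have h3 : Real.exp (-1) ≤ 1 / 2 := by
      rw [Real.exp_neg, ← one_div]
      apply one_div_le_one_div_of_le (by norm_num)
      have := Real.add_one_le_exp (1 : ℝ)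
      linarith
    calc Real.exp (-(5 * q + 6)) = Real.exp (-1) ^ (5 * q + 6) := by
          rw [← Real.exp_nat_mul]
          congr 1
          push_cast
          ring
      _ ≤ _ := pow_le_pow_left₀ (Real.exp_pos _).le h3 _
  have h3 : (32 : ℝ) ^ q * (2 ^ 6 * (1 / 2) ^ (5 * q + 6)) = 1 := by
    have h4 : (32 : ℝ) ^ q = 2 ^ (5 * q) := by
      rw [pow_mul]
      norm_num
    rw [h4, ← mul_assoc, ← pow_add, ← mul_pow]
    norm_num
  have h5 := h1.trans h2
  refine le_trans ?_ h3.le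
  gcongr

/-- The main theorem, for covers by convex sets. -/
theorem main (δ : ℝ) (hδ : 0 < δ) :
    ∃ M C : ℕ, 1 ≤ M ∧ 3 ≤ C ∧ ∀ k : ℕ, C ≤ k → ∃ γ : ℝ, 0 < γ ∧ ∃ n0 : ℕ, ∀ n : ℕ, n0 ≤ n →
      ∃ (I : Type) (_ : Fintype I) (F : I → Clause k n),
        Fintype.card I = 2 ^ (k - 1) * (M * n) ∧
        (∀ x, (1 / 2 - δ) * (M * n) ≤ (falsified F x : ℝ)) ∧
        ∀ D : ℕ, (D : ℝ) ≤ γ * n →
          ∀ Q : List (Set (Fin n → ZMod 2 → ℝ)), (∀ S ∈ Q, Convex ℝ S) →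
            (∀ S ∈ Q, ∀ μ ∈ S, μ ∉ Relax D F (δ * (M * n))) →
            (∀ x : Fin n → ZMod 2, ∃ S ∈ Q, lab x ∈ S) →
            (2 : ℝ) ^ ((1 - C * Real.log k / k) * n) ≤ Q.length := by
  obtain ⟨q, hq⟩ := exists_nat_gt (1 / δ)
  have hq0 : (0 : ℝ) < q := lt_trans (by positivity) hq
  obtain ⟨M, hM⟩ := exists_nat_gt (Real.log 2 / (2 * δ ^ 2))
  have hlog : 0 < Real.log 2 := Real.log_pos (by norm_num)
  have hM0 : (0 : ℝ) < M := lt_of_le_of_lt (by positivity) hM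
  have hM1 : 1 ≤ M := by
    have : 0 < M := by exact_mod_cast hM0
    omega
  refine ⟨M, 4 * (10 * q + 12), hM1, by omega, fun k hCk => ?_⟩
  have hk3 : 3 ≤ k := by omega
  have hk0 : (0 : ℝ) < k := by
    have : 0 < k := by omega
    exact_mod_cast this
  have hk := param_k q k hCk
  obtain ⟨κ, hκd⟩ : ∃ κ : ℝ, κ = ((10 * q + 12 : ℕ) : ℝ) / k := ⟨_, rfl⟩
  rw [← hκd] at hk
  have hκ0 : 0 < κ := by rw [hκd]; positivity
  have hκ1 : κ < 1 := by
    rw [hκd, div_lt_one hk0]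
    exact_mod_cast (by omega : 10 * q + 12 < k)
  obtain ⟨K, hK⟩ : ∃ K : ℕ, K = 8 * 3 ^ (k + 1) * k ^ 2 * M := ⟨_, rfl⟩
  have hKpos : 0 < K := by
    rw [hK]
    have : 0 < k := by omega
    positivity
  have hK0 : (0 : ℝ) < K := by exact_mod_cast hKpos
  refine ⟨1 / (16 * K), by positivity, 2 * K, ?_⟩
  intro n hn
  have hn1 : 1 ≤ n := by omega
  have hn0 : (0 : ℝ) < n := by exact_mod_cast hn1
  obtain ⟨r0, hr0⟩ : ∃ r0, r0 = n / K := ⟨_, rfl⟩
  have hr1 : 1 ≤ r0 := by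
    rw [hr0, Nat.le_div_iff_mul_le hKpos]
    omega
  have hrn : r0 * K ≤ n := by
    rw [hr0]
    exact Nat.div_mul_le_self n K
  have h2k : 2 * (k - 2) ≤ K := by
    rw [hK]
    have h1 : 1 ≤ 3 ^ (k + 1) := Nat.one_le_pow _ _ (by norm_num)
    have h2 : k ≤ k ^ 2 := by nlinarith
    calc 2 * (k - 2) ≤ 8 * 1 * k * 1 := by omega
      _ ≤ 8 * 3 ^ (k + 1) * k ^ 2 * M :=
        Nat.mul_le_mul (Nat.mul_le_mul (Nat.mul_le_mul_left _ h1) h2) hM1
  obtain ⟨c, hc1, hc2⟩ := exists_hyp k (M * n) n (2 * r0) 6 q κ hk3 hn1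
    (Nat.le_mul_of_pos_left n hM1)
    (by
      calc (k - 2) * (2 * r0) = r0 * (2 * (k - 2)) := by ring
        _ ≤ r0 * K := Nat.mul_le_mul_left _ h2k
        _ ≤ n := hrn)
    (by
      have h1 : (r0 : ℝ) * K ≤ n := by exact_mod_cast hrn
      push_cast
      calc 4 * 3 ^ (k + 1) * (k : ℝ) ^ 2 * (M * n) * (2 * r0) =
            (r0 * (8 * 3 ^ (k + 1) * (k : ℝ) ^ 2 * M)) * n := by ring
        _ = ((r0 : ℝ) * K) * n := by
            rw [hK]
            push_cast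
            ring
        _ ≤ n * n := mul_le_mul_of_nonneg_right h1 hn0.le
        _ = (n : ℝ) ^ 2 := by ring) hk
  obtain ⟨b, hb⟩ := Pool.Agent.H30R2.NS.exists_far (m := M * n) (γ := δ) hδ (by
    rw [Fintype.card_fin]
    push_cast
    rw [div_lt_iff₀ (by positivity)] at hM
    calc Real.log 2 * n < (M * (2 * δ ^ 2)) * n := mul_lt_mul_of_pos_right hM hn0
      _ = _ := by ring) (fun p : Fin (M * n) × Fin k => c p.1 p.2)
  -- the formula
  obtain ⟨k', rfl⟩ : ∃ k', k = k' + 1 := ⟨k - 1, by omega⟩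
  refine ⟨Fin (M * n) × (Fin k' → ZMod 2), inferInstance, cl c b, ?_, ?_, ?_⟩
  · rw [Fintype.card_prod, Fintype.card_fun, ZMod.card, Fintype.card_fin, Fintype.card_fin,
      Nat.add_sub_cancel, mul_comm]
  · intro x
    rw [falsified_eq, viol_eq]
    have := hb x
    push_cast at this
    exact this
  · intro D hD Q hconv hmiss hcov
    by_contra hcon
    push Not at hcon
    obtain ⟨S, hS, A, hA, hbig⟩ := exists_big Q hcov
    have hexp : Real.exp (κ * (1 + Real.log (1 / κ)) * n) ≤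
        (2 : ℝ) ^ (((4 * (10 * q + 12) : ℕ) : ℝ) * Real.log ((k' + 1 : ℕ) : ℝ) /
          ((k' + 1 : ℕ) : ℝ) * n) := by
      rw [Real.rpow_def_of_pos (by norm_num)]
      apply Real.exp_le_exp.2
      rw [← mul_assoc]
      refine mul_le_mul_of_nonneg_right ?_ hn0.le
      have h1 : (1 : ℝ) ≤ Real.log ((k' + 1 : ℕ) : ℝ) := by
        rw [Real.le_log_iff_exp_le hk0]
        have h2 := Real.exp_one_lt_d9
        have h3 : (3 : ℝ) ≤ ((k' + 1 : ℕ) : ℝ) := by exact_mod_cast hk3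
        linarith
      have h2 : Real.log (1 / κ) ≤ Real.log ((k' + 1 : ℕ) : ℝ) := by
        apply Real.log_le_log (by positivity)
        rw [hκd, one_div_div, div_le_iff₀ (by positivity)]
        have h3 : (1 : ℝ) ≤ ((10 * q + 12 : ℕ) : ℝ) := by exact_mod_cast (by omega : 1 ≤ 10 * q + 12)
        exact le_mul_of_one_le_right hk0.le h3
      have h3 : (1 : ℝ) / 2 ≤ Real.log 2 := by
        have := Real.log_two_gt_d9
        linarith
      calc κ * (1 + Real.log (1 / κ)) ≤ κ * (2 * Real.log ((k' + 1 : ℕ) : ℝ)) :=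
            mul_le_mul_of_nonneg_left (by linarith) hκ0.le
        _ = (1 / 2) * (((4 * (10 * q + 12) : ℕ) : ℝ) * Real.log ((k' + 1 : ℕ) : ℝ) /
              ((k' + 1 : ℕ) : ℝ)) := by
            rw [hκd]
            push_cast
            ring
        _ ≤ Real.log 2 * (((4 * (10 * q + 12) : ℕ) : ℝ) * Real.log ((k' + 1 : ℕ) : ℝ) /
              ((k' + 1 : ℕ) : ℝ)) :=
            mul_le_mul_of_nonneg_right h3 (by positivity)
    have hSn : Real.exp (κ * (1 + Real.log (1 / κ)) * n) ≤ ((A.image supp).card : ℝ) := by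
      refine hexp.trans ?_
      rw [Finset.card_image_of_injective _ supp_injective]
      obtain ⟨e, he⟩ : ∃ e : ℝ, e = ((4 * (10 * q + 12) : ℕ) : ℝ) *
          Real.log ((k' + 1 : ℕ) : ℝ) / ((k' + 1 : ℕ) : ℝ) := ⟨_, rfl⟩
      rw [← he] at hcon ⊢
      have h1 : (2 : ℝ) ^ n = (2 : ℝ) ^ ((1 - e) * n) * (2 : ℝ) ^ (e * n) := by
        rw [← Real.rpow_add (by norm_num), ← Real.rpow_natCast]
        congr 1
        ring
      rw [h1] at hbig
      have h2 : (0 : ℝ) < (2 : ℝ) ^ ((1 - e) * n) := Real.rpow_pos_of_pos (by norm_num) _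
      have h3 : (2 : ℝ) ^ ((1 - e) * n) * (2 : ℝ) ^ (e * n) ≤ (2 : ℝ) ^ ((1 - e) * n) * A.card :=
        hbig.trans (mul_le_mul_of_nonneg_right hcon.le (by positivity))
      exact le_of_mul_le_mul_left h3 h2
    obtain ⟨U, hU, hUn⟩ := shatter_big κ hκ0 hκ1 n hn1 _ hSn
    have hDr : 8 * D ≤ r0 := by
      have h1 : (n : ℝ) < (r0 + 1) * K := by
        have h2 : n < (n / K + 1) * K := by
          have := Nat.lt_div_mul_add (a := n) hKpos
          calc n < n / K * K + K := this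
            _ = _ := by ring
        rw [← hr0] at h2
        exact_mod_cast h2
      have h2 : (D : ℝ) * (16 * K) ≤ n := by
        rwa [one_div, inv_mul_eq_div, le_div_iff₀ (by positivity)] at hD
      have h3 : ((D * 16 : ℕ) : ℝ) * K < ((r0 + 1 : ℕ) : ℝ) * K := by
        push_cast
        linarith
      have h4 : D * 16 < r0 + 1 := by exact_mod_cast lt_of_mul_lt_mul_right h3 hK0.le
      omega
    obtain ⟨L, hL, hmem, hval⟩ := core (k := k' + 1) (r0 := r0) (D := D) (by omega) hr1 hDr c b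
      hc1 A U hU S (hconv S hS) hA
    refine hmiss S hS _ hmem ⟨L, hL, fun _ _ => rfl, ?_⟩
    have h1 : (fun x => (falsified (cl c b) x : ℝ)) = viol c b := funext fun x => falsified_eq c b x
    rw [h1]
    refine hval.trans ?_
    have h2 : (q : ℝ) * ((univ.filter fun j => slots U (c j) < 6).card : ℝ) ≤ M * n := by
      exact_mod_cast hc2 U hUn
    have h3 : 1 < q * δ := by
      rwa [div_lt_iff₀ hδ] at hq
    have h4 : (0 : ℝ) ≤ ((univ.filter fun j => slots U (c j) < 6).card : ℝ) := Nat.cast_nonneg _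
    calc ((univ.filter fun j => slots U (c j) < 6).card : ℝ)
        ≤ (q * δ) * ((univ.filter fun j => slots U (c j) < 6).card : ℝ) :=
          le_mul_of_one_le_left h4 h3.le
      _ = δ * (q * ((univ.filter fun j => slots U (c j) < 6).card : ℝ)) := by ring
      _ ≤ δ * (M * n) := mul_le_mul_of_nonneg_left h2 hδ.le

/-- The main theorem, with trees and split cuts. -/
theorem main_all (δ : ℝ) (hδ : 0 < δ) :
    ∃ M C : ℕ, 1 ≤ M ∧ ∀ k : ℕ, C ≤ k → ∃ γ : ℝ, 0 < γ ∧ ∃ n0 : ℕ, ∀ n : ℕ, n0 ≤ n →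
      ∃ (I : Type) (_ : Fintype I) (F : I → Clause k n),
        Fintype.card I = 2 ^ (k - 1) * (M * n) ∧
        (∀ x, (1 / 2 - δ) * (M * n) ≤ (falsified F x : ℝ)) ∧
        (∀ D : ℕ, (D : ℝ) ≤ γ * n →
          (∀ Q : List (Set (Fin n → ZMod 2 → ℝ)), (∀ S ∈ Q, Convex ℝ S) →
            (∀ S ∈ Q, ∀ μ ∈ S, μ ∉ Relax D F (δ * (M * n))) →
            (∀ x : Fin n → ZMod 2, ∃ S ∈ Q, lab x ∈ S) →
            (2 : ℝ) ^ ((1 - C * Real.log k / k) * n) ≤ Q.length) ∧
          (∀ T : Tree (Fin n) (ZMod 2), T.Proves (Relax D F (δ * (M * n))) Set.univ →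
            (2 : ℝ) ^ ((1 - C * Real.log k / k) * n) ≤ T.leaves) ∧
          (∀ l, SplitProof (Relax D F (δ * (M * n))) l Set.univ →
            (2 : ℝ) ^ ((1 - C * Real.log k / k) * n) ≤ 2 * l.length + 1)) ∧
        (δ < 1 / 4 → ∀ D : ℕ, k ≤ D → ∃ T : Tree (Fin n) (ZMod 2), T.leaves = 2 ^ n ∧
          T.Proves (Relax D F (δ * (M * n))) Set.univ) := by
  obtain ⟨M, C, hM, hC3, h⟩ := main δ hδ
  refine ⟨M, C, hM, fun k hk => ?_⟩
  obtain ⟨γ, hγ, n0, h⟩ := h k hk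
  refine ⟨γ, hγ, max n0 1, fun n hn => ?_⟩
  obtain ⟨I, iI, F, h1, h2, h3⟩ := h n ((le_max_left _ _).trans hn)
  have htree : ∀ D : ℕ, (D : ℝ) ≤ γ * n → ∀ T : Tree (Fin n) (ZMod 2),
      T.Proves (Relax D F (δ * (M * n))) Set.univ →
      (2 : ℝ) ^ ((1 - C * Real.log k / k) * n) ≤ T.leaves := by
    intro D hD T hT
    obtain ⟨Q, g1, g2, g3, g4⟩ := cover_of_tree _ T Set.univ convex_univ hT
    rw [← g1]
    exact h3 D hD Q g2 g3 fun x => g4 x (Set.mem_univ _)
  refine ⟨I, iI, F, h1, h2, fun D hD => ⟨h3 D hD, htree D hD, fun l hl => ?_⟩, ?_⟩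
  · obtain ⟨T, hT, hP⟩ := tree_of_split _ l _ hl
    have := htree D hD T hP
    rw [hT] at this
    exact_mod_cast this
  · intro hδ4 D hkD
    refine exists_tree F _ hkD (by omega) fun x => lt_of_lt_of_le ?_ (h2 x)
    have hn1 : 1 ≤ n := (le_max_right _ _).trans hn
    have hn0 : (0 : ℝ) < n := by exact_mod_cast hn1
    have hM0 : (0 : ℝ) < M := by exact_mod_cast hM
    have : 0 < (M : ℝ) * n := by positivity
    nlinarith

end Pool.Agent.W888.GX
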