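import Pool.Agent.W888.GX.Avg
import Pool.Agent.W888.GX.Fin

set_option autoImplicit false
set_option linter.unusedSectionVars false

/-!
The version with exact satisfaction: branch-and-cut trees which do not depend on the signs.
-/

namespace Pool.Agent.W888.GX

open Finset Matrix
open Pool.Agent.W888.UG (lab lab_apply Tree full full_proves)

/-- A convex set with many assignments contains a point of the relaxation for all right-hand sides
with prescribed values at few equations. -/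
theorem open_presc {n m k r0 D : ℕ} (hr0 : 1 ≤ r0) (hD : 8 * D ≤ r0) (hk : 1 ≤ k)
    (c : Fin m → Fin (k + 1) → Fin n)
    (hc : ∀ J : Finset (Fin m), 1 ≤ J.card → J.card ≤ 2 * r0 → (k + 1 - 2) * J.card ≤
      (img c J).card)
    (η κ : ℝ) (hη0 : 0 < η) (hη1 : 2 * η < 1) (h cap Δ g : ℕ) (h6 : 6 ≤ h)
    (hf : 1 / ((g : ℝ) + 1) + Δ * (2 ^ 6 * (1 - 1 / (2 * ((g : ℝ) + 1))) ^ h) ≤ 2 * η)
    (hcap : ∀ W : Finset (Fin n), κ * n ≤ Wᶜ.card → (inside c W).card < cap)
    (C : Set (Fin n → ZMod 2 → ℝ)) (hC : Convex ℝ C) (S : Finset (Fin n → ZMod 2))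
    (hSC : ∀ x ∈ S, lab x ∈ C) (hS : S.Nonempty)
    (hsize : (univ.filter fun v : Fin n =>
        Δ < (univ.filter fun j => v ∈ vars c j).card).card * Real.log 2 +
      -Real.log (1 - η) * n + h * Real.log 2 * cap + κ * n * Real.log 2 ≤ Real.log S.card) :
    ∃ (J : Finset (Fin m)) (t : Fin m → ZMod 2), J.card < cap ∧
      ∀ b : Fin m → ZMod 2, (∀ j ∈ J, b j = t j) → (C ∩ Relax D (cl c b) 0).Nonempty := by
  classical
  obtain ⟨W, hHW, S', hS'S, hS'ne, hS'c, hWc, hmarg, hall⟩ :=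
    greedy c η κ hη0 (by linarith) h cap _ S hS hcap hsize
  obtain ⟨x0, hx0⟩ := hS'ne
  have hpos : (0 : ℝ) < S'.card := by exact_mod_cast Finset.card_pos.2 ⟨x0, hx0⟩
  refine ⟨inside c W, fun j => ∑ s, x0 (c j s), hcap W hWc, fun b hb => ?_⟩
  have hone : ∀ v, ∑ a, Pool.Agent.W888.UG.mar S' v a = 1 :=
    Pool.Agent.W888.UG.mar_sum ⟨x0, hx0⟩
  have hfr : ∀ v ∉ W, fr c W h g v ≤ 2 * η := by
    intro v hv
    refine (fr_le c W h g v Δ ?_).trans hf
    by_contra hcon
    exact hv (hHW (mem_filter.2 ⟨mem_univ _, not_le.1 hcon⟩))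
  obtain ⟨L, hL, hLm, hLv⟩ := exact_pe (k := k + 1) (D := D) (by omega) hr0 hD c b hc W h h6 hall g
    x0 (Pool.Agent.W888.UG.mar S') hone (by
      intro v hv a
      unfold Pool.Agent.W888.UG.mar
      by_cases ha : x0 v = a
      · rw [if_pos ha]
        have h1 : (S'.filter fun l => l v = a) = S' := by
          refine filter_true_of_mem fun l hl => ?_
          rw [← ha]
          exact hS'c l hl x0 hx0 v hv
        rw [h1, div_self hpos.ne']
      · rw [if_neg ha]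
        have h1 : (S'.filter fun l => l v = a) = ∅ := by
          refine filter_false_of_mem fun l hl hla => ha ?_
          rw [← hla]
          exact hS'c x0 hx0 l hl v hv
        rw [h1, card_empty, Nat.cast_zero, zero_div]) (by
      intro v hv a
      have h1 := hfr v hv
      have h2 := hone v
      have h3 : Pool.Agent.W888.UG.mar S' v (a + 1) ≤ 1 - η := by
        unfold Pool.Agent.W888.UG.mar
        rw [div_le_iff₀ hpos]
        exact hmarg v hv (a + 1)
      have h4 : ∑ a', Pool.Agent.W888.UG.mar S' v a' =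
          Pool.Agent.W888.UG.mar S' v a + Pool.Agent.W888.UG.mar S' v (a + 1) := by
        have h5 : ∀ a : ZMod 2, (univ : Finset (ZMod 2)) = {a, a + 1} ∧ a ≠ a + 1 := by decide
        rw [(h5 a).1, Finset.sum_pair (h5 a).2]
      linarith) (by
      intro v
      by_cases hv : v ∈ W
      · rw [fr_W c W h g hv]
        norm_num
      · exact lt_of_le_of_lt (hfr v hv) hη1) (by
      intro j hj
      exact (hb j (mem_filter.2 ⟨mem_univ _, hj⟩)).symm)
  refine ⟨Pool.Agent.W888.UG.mar S', Pool.Agent.W888.UG.mar_mem hC ⟨x0, hx0⟩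
    fun l hl => hSC l (hS'S hl), L, hL, hLm, ?_⟩
  have h1 : (fun x => (falsified (cl c b) x : ℝ)) = viol c b := funext fun x => falsified_eq c b x
  rw [h1, hLv]

/-- the right-hand sides for which every assignment violates almost half of the equations -/
def Far {n m k : ℕ} (δ : ℝ) (c : Fin m → Fin (k + 1) → Fin n) (b : Fin m → ZMod 2) : Prop :=
  ∀ x, (1 / 2 - δ) * m ≤ (falsified (cl c b) x : ℝ)

open Classical in
theorem few_near {n m k : ℕ} {δ : ℝ} (hδ : 0 < δ)
    (hm : 2 * (Real.log 2 * n) ≤ 2 * δ ^ 2 * m) (c : Fin m → Fin (k + 1) → Fin n) :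
    ((univ.filter fun b : Fin m → ZMod 2 => ¬ Far δ c b).card : ℝ) * 2 ^ n ≤ 2 ^ m := by
  have h1 : (univ.filter fun b : Fin m → ZMod 2 => ¬ Far δ c b) =
      univ.filter fun b : Fin m → ZMod 2 => ¬ ∀ x, (1 / 2 - δ) * m ≤ viol c b x := by
    refine Finset.filter_congr fun b _ => ?_
    unfold Far
    simp only [falsified_eq]
  rw [h1]
  exact near_count hδ hm c

open Classical in
/-- the number of open right-hand sides -/
theorem open_count {n m k cap D : ℕ} {δ : ℝ} (c : Fin m → Fin (k + 1) → Fin n)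
    (hnear : ((univ.filter fun b : Fin m → ZMod 2 => ¬ Far δ c b).card : ℝ) * 2 ^ n ≤ 2 ^ m)
    (hcapn : cap ≤ n) (C : Set (Fin n → ZMod 2 → ℝ)) (J : Finset (Fin m)) (t : Fin m → ZMod 2)
    (hJ : J.card < cap)
    (h : ∀ b : Fin m → ZMod 2, (∀ j ∈ J, b j = t j) → (C ∩ Relax D (cl c b) 0).Nonempty) :
    (2 : ℝ) ^ m / 2 ^ cap ≤ (((univ.filter fun b : Fin m → ZMod 2 => Far δ c b).filter fun b =>
      (C ∩ Relax D (cl c b) 0).Nonempty).card : ℝ) := by
  have h1 : (univ.filter fun b : Fin m → ZMod 2 => ∀ j ∈ J, b j = t j) ⊆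
      ((univ.filter fun b : Fin m → ZMod 2 => Far δ c b).filter fun b =>
        (C ∩ Relax D (cl c b) 0).Nonempty) ∪
      (univ.filter fun b : Fin m → ZMod 2 => ¬ Far δ c b) := by
    intro b hb
    rw [mem_filter] at hb
    rw [mem_union, mem_filter, mem_filter, mem_filter]
    by_cases hF : Far δ c b
    · exact Or.inl ⟨⟨mem_univ _, hF⟩, h b hb.2⟩
    · exact Or.inr ⟨mem_univ _, hF⟩
  have h2 : ((univ.filter fun b : Fin m → ZMod 2 => ∀ j ∈ J, b j = t j).card : ℝ) ≤
      (((univ.filter fun b : Fin m → ZMod 2 => Far δ c b).filter fun b =>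
        (C ∩ Relax D (cl c b) 0).Nonempty).card : ℝ) +
      ((univ.filter fun b : Fin m → ZMod 2 => ¬ Far δ c b).card : ℝ) := by
    exact_mod_cast (card_le_card h1).trans (card_union_le _ _)
  have h3 : ((univ.filter fun b : Fin m → ZMod 2 => ∀ j ∈ J, b j = t j).card : ℝ) * 2 ^ J.card =
      2 ^ m := by exact_mod_cast card_presc J t
  have h4 : (2 : ℝ) * (2 ^ m / 2 ^ cap) ≤
      ((univ.filter fun b : Fin m → ZMod 2 => ∀ j ∈ J, b j = t j).card : ℝ) := by
    rw [← h3]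
    have h5 : (2 : ℝ) * 2 ^ J.card ≤ 2 ^ cap := by
      rw [← pow_succ']
      exact pow_le_pow_right₀ (by norm_num) hJ
    have h6 : (0 : ℝ) < 2 ^ cap := by positivity
    have h7 : (0 : ℝ) ≤ ((univ.filter fun b : Fin m → ZMod 2 => ∀ j ∈ J, b j = t j).card : ℝ) :=
      Nat.cast_nonneg _
    calc (2 : ℝ) * (((univ.filter fun b : Fin m → ZMod 2 => ∀ j ∈ J, b j = t j).card : ℝ) *
          2 ^ J.card / 2 ^ cap) =
        ((univ.filter fun b : Fin m → ZMod 2 => ∀ j ∈ J, b j = t j).card : ℝ) *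
          ((2 * 2 ^ J.card) / 2 ^ cap) := by ring
      _ ≤ ((univ.filter fun b : Fin m → ZMod 2 => ∀ j ∈ J, b j = t j).card : ℝ) * 1 :=
        mul_le_mul_of_nonneg_left ((div_le_one h6).2 h5) h7
      _ = _ := mul_one _
  have h5 : ((univ.filter fun b : Fin m → ZMod 2 => ¬ Far δ c b).card : ℝ) ≤ 2 ^ m / 2 ^ cap := by
    rw [le_div_iff₀ (by positivity)]
    refine le_trans (mul_le_mul_of_nonneg_left ?_ (Nat.cast_nonneg _)) hnear
    exact pow_le_pow_right₀ (by norm_num) hcapn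
  linarith

theorem sum_deg {n m k : ℕ} (c : Fin m → Fin k → Fin n) :
    ∑ v : Fin n, (univ.filter fun j => v ∈ vars c j).card ≤ m * k := by
  have h1 : ∀ v : Fin n, (univ.filter fun j => v ∈ vars c j).card =
      ∑ j, if v ∈ vars c j then 1 else 0 := fun v => Finset.card_filter _ _
  simp only [h1]
  rw [Finset.sum_comm]
  have h2 : ∀ j : Fin m, ∑ v : Fin n, (if v ∈ vars c j then 1 else 0) ≤ k := by
    intro j
    rw [← Finset.card_filter]
    have h3 : (univ.filter fun v => v ∈ vars c j) = vars c j := by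
      ext v
      simp
    rw [h3]
    refine Finset.card_image_le.trans ?_
    rw [card_univ, Fintype.card_fin]
  refine (Finset.sum_le_sum fun j _ => h2 j).trans ?_
  rw [Finset.sum_const, card_univ, Fintype.card_fin, smul_eq_mul]

theorem heavy_le {n m k : ℕ} (c : Fin m → Fin k → Fin n) (Δ : ℕ) :
    (univ.filter fun v : Fin n => Δ < (univ.filter fun j => v ∈ vars c j).card).card * Δ ≤
      m * k := by
  refine le_trans ?_ (sum_deg c)
  rw [← smul_eq_mul, ← Finset.sum_const]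
  refine (Finset.sum_le_sum fun v hv => (mem_filter.1 hv).2.le).trans ?_
  exact Finset.sum_le_sum_of_subset (filter_subset _ _)

theorem exists_h (ρ K ζ : ℝ) (hρ0 : 0 ≤ ρ) (hρ1 : ρ < 1) (hK : 0 < K) (hζ : 0 < ζ) :
    ∃ h : ℕ, 6 ≤ h ∧ K * (h * ρ ^ h) ≤ ζ := by
  have h1 := tendsto_self_mul_const_pow_of_lt_one hρ0 hρ1
  have h2 := (h1.eventually (gt_mem_nhds (show (0 : ℝ) < ζ / K by positivity))).and
    (Filter.eventually_ge_atTop 6)
  obtain ⟨h, h3, h4⟩ := h2.exists
  refine ⟨h, h4, ?_⟩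
  rw [lt_div_iff₀ hK] at h3
  linarith

theorem cnt_univ (n : ℕ) : (cnt (Set.univ : Set (Fin n → ZMod 2 → ℝ)) : ℝ) = 2 ^ n := by
  unfold cnt
  have h1 : ∀ (inst : DecidablePred fun x : Fin n → ZMod 2 =>
      lab x ∈ (Set.univ : Set (Fin n → ZMod 2 → ℝ))), (@Finset.filter _ (fun x : Fin n → ZMod 2 =>
      lab x ∈ (Set.univ : Set (Fin n → ZMod 2 → ℝ))) inst univ) = univ := fun inst =>
    Finset.filter_true_of_mem fun x _ => Set.mem_univ _
  rw [h1, card_univ, Fintype.card_fun, ZMod.card, Fintype.card_fin]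
  push_cast
  rfl

open Classical in
/-- The main theorem. -/
theorem exact_main (ε δ : ℝ) (hε : 0 < ε) (hε1 : ε < 1) (hδ : 0 < δ) :
    ∃ k M : ℕ, 1 ≤ M ∧ ∃ γ : ℝ, 0 < γ ∧ ∃ n0 : ℕ, ∀ n : ℕ, n0 ≤ n →
      ∃ c : Fin (M * n) → Fin (k + 1) → Fin n,
        ((univ.filter fun b => ¬ Far δ c b).card : ℝ) * 2 ^ n ≤ 2 ^ (M * n) ∧
        ∀ D : ℕ, (D : ℝ) ≤ γ * n → ∀ T : Tree (Fin n) (ZMod 2),
          (∀ b, Far δ c b → T.Proves (Relax D (cl c b) 0) Set.univ) →
          (2 : ℝ) ^ ((1 - ε) * n) * 2 ^ (M * n) ≤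
            ∑ b ∈ univ.filter fun b => Far δ c b,
              (pruned (Relax D (cl c b) 0) T Set.univ : ℝ) := by
  have hl2 : 1 / 2 ≤ Real.log 2 := by
    have := Real.log_two_gt_d9
    linarith
  have hl1 : 0 < Real.log 2 := by linarith
  obtain ⟨M, hM⟩ := exists_nat_gt (Real.log 2 / δ ^ 2)
  have hM0 : (0 : ℝ) < M := lt_of_le_of_lt (by positivity) hM
  have hM1 : 1 ≤ M := by
    have : 0 < M := by exact_mod_cast hM0
    omega
  obtain ⟨E, hE⟩ := exists_nat_gt (1 / ε)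
  have hE0 : (0 : ℝ) < E := lt_trans (by positivity) hE
  have hE1 : 1 ≤ E := by
    have : 0 < E := by exact_mod_cast hE0
    omega
  have hEε : 1 / (E : ℝ) < ε := by
    rw [div_lt_iff₀ hE0]
    rw [div_lt_iff₀ hε] at hE
    linarith
  obtain ⟨η, hη⟩ : ∃ η : ℝ, η = ε / 64 := ⟨_, rfl⟩
  have hη0 : 0 < η := by rw [hη]; positivity
  obtain ⟨g, hg⟩ : ∃ g : ℕ, g = 64 * E := ⟨_, rfl⟩
  have hgη : 1 / ((g : ℝ) + 1) ≤ η := by
    have h1 : (0 : ℝ) < 64 * E := by positivity
    calc 1 / ((g : ℝ) + 1) ≤ 1 / (64 * E) := by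
          apply one_div_le_one_div_of_le h1
          rw [hg]
          push_cast
          linarith
      _ = (1 / E) / 64 := by rw [div_div, mul_comm]
      _ ≤ η := by
          rw [hη]
          linarith
  obtain ⟨ρ, hρ⟩ : ∃ ρ : ℝ, ρ = 1 - 1 / (2 * ((g : ℝ) + 1)) := ⟨_, rfl⟩
  have hg0 : (0 : ℝ) ≤ g := Nat.cast_nonneg g
  have hρ0 : 0 ≤ ρ := by
    rw [hρ]
    have : 1 / (2 * ((g : ℝ) + 1)) ≤ 1 := by
      rw [div_le_one (by positivity)]
      linarith
    linarith
  have hρ1 : ρ < 1 := by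
    rw [hρ]
    have : 0 < 1 / (2 * ((g : ℝ) + 1)) := by positivity
    linarith
  obtain ⟨h, h6, hh⟩ := exists_h ρ (256 * 332 * 64 * M ^ 2 * E ^ 3) η hρ0 hρ1 (by positivity) hη0
  obtain ⟨q, hq⟩ : ∃ q : ℕ, q = 32 * h * M * E := ⟨_, rfl⟩
  obtain ⟨K, hK⟩ : ∃ K : ℕ, K = 16 * E * (10 * q + 12) := ⟨_, rfl⟩
  obtain ⟨k, hk⟩ : ∃ k : ℕ, k + 1 = K := ⟨K - 1, by
    have : 1 ≤ 16 * E * (10 * q + 12) := Nat.mul_pos (by omega) (by omega)
    omega⟩
  obtain ⟨Δ, hΔ⟩ : ∃ Δ : ℕ, Δ = 16 * M * K * E := ⟨_, rfl⟩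
  have hh1 : (1 : ℝ) ≤ h := by exact_mod_cast (by omega : 1 ≤ h)
  have hE1' : (1 : ℝ) ≤ E := by exact_mod_cast hE1
  have hM1' : (1 : ℝ) ≤ M := by exact_mod_cast hM1
  have hqpos : 1 ≤ q := by
    rw [hq]
    exact Nat.mul_pos (Nat.mul_pos (by omega) (by omega)) (by omega)
  have hq0 : (0 : ℝ) < q := by exact_mod_cast hqpos
  have hKR : (K : ℝ) = 16 * E * (10 * q + 12) := by rw [hK]; push_cast; ring
  have hK0 : (0 : ℝ) < K := by rw [hKR]; positivity
  have hf : 1 / ((g : ℝ) + 1) + Δ * (2 ^ 6 * (1 - 1 / (2 * ((g : ℝ) + 1))) ^ h) ≤ 2 * η := by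
    rw [← hρ]
    have h1 : (Δ : ℝ) ≤ 256 * 332 * M ^ 2 * E ^ 3 * h := by
      rw [hΔ]
      push_cast
      rw [hKR, hq]
      push_cast
      have h2 : (12 : ℝ) ≤ 12 * (h * M * E) := by
        have h3 : (1 : ℝ) ≤ h * M * E :=
          one_le_mul_of_one_le_of_one_le (one_le_mul_of_one_le_of_one_le hh1 hM1') hE1'
        linarith
      calc 16 * (M : ℝ) * (16 * E * (10 * (32 * h * M * E) + 12)) * E
          ≤ 16 * (M : ℝ) * (16 * E * (10 * (32 * h * M * E) + 12 * (h * M * E))) * E := by gcongr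
        _ = _ := by ring
    have h2 : (Δ : ℝ) * (2 ^ 6 * ρ ^ h) ≤ η := by
      calc (Δ : ℝ) * (2 ^ 6 * ρ ^ h) ≤ (256 * 332 * M ^ 2 * E ^ 3 * h) * (2 ^ 6 * ρ ^ h) :=
            mul_le_mul_of_nonneg_right h1 (by positivity)
        _ = 256 * 332 * 64 * M ^ 2 * E ^ 3 * (h * ρ ^ h) := by ring
        _ ≤ η := hh
    linarith
  obtain ⟨κ, hκ⟩ : ∃ κ : ℝ, κ = ((10 * q + 12 : ℕ) : ℝ) / K := ⟨_, rfl⟩
  have hκε : κ ≤ ε / 16 := by
    have h1 : κ = (1 / E) / 16 := by
      rw [hκ, hKR]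
      push_cast
      field_simp
    rw [h1]
    linarith
  have hpk := param_k q K (by
    rw [hK]
    have : 4 ≤ 16 * E := by omega
    exact Nat.mul_le_mul_right _ this)
  rw [← hκ] at hpk
  obtain ⟨Q, hQ⟩ : ∃ Q : ℕ, Q = 8 * 3 ^ (K + 1) * K ^ 2 * M := ⟨_, rfl⟩
  have hK3 : 3 ≤ K := by
    rw [hK]
    calc 3 ≤ 16 * 1 * 12 := by norm_num
      _ ≤ 16 * E * (10 * q + 12) := Nat.mul_le_mul (Nat.mul_le_mul_left _ hE1) (by omega)
  have hQpos : 0 < Q := by
    rw [hQ]
    have : 0 < K := by omega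
    positivity
  have hQ0 : (0 : ℝ) < Q := by exact_mod_cast hQpos
  refine ⟨k, M, hM1, 1 / (16 * Q), by positivity, 2 * Q + 32 * h * E, ?_⟩
  intro n hn
  have hn1 : 1 ≤ n := by omega
  have hn0 : (0 : ℝ) < n := by exact_mod_cast hn1
  obtain ⟨r0, hr0⟩ : ∃ r0, r0 = n / Q := ⟨_, rfl⟩
  have hr1 : 1 ≤ r0 := by
    rw [hr0, Nat.le_div_iff_mul_le hQpos]
    omega
  have hrn : r0 * Q ≤ n := by
    rw [hr0]
    exact Nat.div_mul_le_self n Q
  have h2k : 2 * (K - 2) ≤ Q := by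
    rw [hQ]
    have h1 : 1 ≤ 3 ^ (K + 1) := Nat.one_le_pow _ _ (by norm_num)
    have h2 : K ≤ K ^ 2 := by nlinarith
    calc 2 * (K - 2) ≤ 8 * 1 * K * 1 := by omega
      _ ≤ 8 * 3 ^ (K + 1) * K ^ 2 * M :=
        Nat.mul_le_mul (Nat.mul_le_mul (Nat.mul_le_mul_left _ h1) h2) hM1
  obtain ⟨c, hc1, hc2⟩ := exists_hyp K (M * n) n (2 * r0) 6 q κ hK3 hn1
    (Nat.le_mul_of_pos_left n hM1)
    (by
      calc (K - 2) * (2 * r0) = r0 * (2 * (K - 2)) := by ring
        _ ≤ r0 * Q := Nat.mul_le_mul_left _ h2k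
        _ ≤ n := hrn)
    (by
      have h1 : (r0 : ℝ) * Q ≤ n := by exact_mod_cast hrn
      push_cast
      calc 4 * 3 ^ (K + 1) * (K : ℝ) ^ 2 * (M * n) * (2 * r0) =
            (r0 * (8 * 3 ^ (K + 1) * (K : ℝ) ^ 2 * M)) * n := by ring
        _ = ((r0 : ℝ) * Q) * n := by
            rw [hQ]
            push_cast
            ring
        _ ≤ n * n := mul_le_mul_of_nonneg_right h1 hn0.le
        _ = (n : ℝ) ^ 2 := by ring) hpk
  subst hk
  have hnear := few_near (n := n) (m := M * n) (k := k) hδ (by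
    push_cast
    rw [div_lt_iff₀ (by positivity)] at hM
    calc 2 * (Real.log 2 * n) ≤ 2 * ((M * δ ^ 2) * n) := by gcongr
      _ = _ := by ring) c
  refine ⟨c, hnear, ?_⟩
  intro D hD T hT
  have hDr : 8 * D ≤ r0 := by
    have h1 : (n : ℝ) < (r0 + 1) * Q := by
      have h2 : n < (n / Q + 1) * Q := by
        have := Nat.lt_div_mul_add (a := n) hQpos
        calc n < n / Q * Q + Q := this
          _ = _ := by ring
      rw [← hr0] at h2
      exact_mod_cast h2
    have h2 : (D : ℝ) * (16 * Q) ≤ n := by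
      rwa [one_div, inv_mul_eq_div, le_div_iff₀ (by positivity)] at hD
    have h3 : ((D * 16 : ℕ) : ℝ) * Q < ((r0 + 1 : ℕ) : ℝ) * Q := by
      push_cast
      linarith
    have h4 : D * 16 < r0 + 1 := by exact_mod_cast lt_of_mul_lt_mul_right h3 hQ0.le
    omega
  -- the cap
  obtain ⟨cap, hcapd⟩ : ∃ cap : ℕ, cap = M * n / q + 1 := ⟨_, rfl⟩
  have hcapR : (cap : ℝ) ≤ M * n / q + 1 := by
    rw [hcapd]
    push_cast
    have h1 : ((M * n / q : ℕ) : ℝ) ≤ ((M * n : ℕ) : ℝ) / q := Nat.cast_div_le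
    push_cast at h1
    linarith
  have hcapε : (h : ℝ) * cap ≤ ε / 16 * n := by
    have h1 : (h : ℝ) * (M * n / q) = n / (32 * E) := by
      rw [hq]
      push_cast
      have hh0 : (h : ℝ) ≠ 0 := by linarith
      field_simp
    have h2 : (h : ℝ) ≤ n / (32 * E) := by
      rw [le_div_iff₀ (by positivity)]
      have h3 : 32 * h * E ≤ n := by omega
      have h4 : ((32 * h * E : ℕ) : ℝ) ≤ n := by exact_mod_cast h3
      push_cast at h4
      linarith
    have h3 : (n : ℝ) / (32 * E) ≤ ε / 32 * n := by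
      calc (n : ℝ) / (32 * E) = (1 / E) / 32 * n := by field_simp
        _ ≤ ε / 32 * n := by gcongr
    calc (h : ℝ) * cap ≤ h * (M * n / q + 1) := mul_le_mul_of_nonneg_left hcapR (by linarith)
      _ = h * (M * n / q) + h := by ring
      _ ≤ _ := by rw [h1]; linarith
  have hcapn' : (cap : ℝ) ≤ ε / 16 * n := by
    refine le_trans ?_ hcapε
    exact le_mul_of_one_le_left (Nat.cast_nonneg _) hh1
  have hcapn : cap ≤ n := by
    have h1 : ε / 16 * (n : ℝ) ≤ 1 * n := mul_le_mul_of_nonneg_right (by linarith) hn0.le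
    have h2 : (cap : ℝ) ≤ n := by linarith
    exact_mod_cast h2
  have hcap : ∀ W : Finset (Fin n), κ * n ≤ Wᶜ.card → (inside c W).card < cap := by
    intro W hW
    have h1 := hc2 Wᶜ hW
    have h2 : inside c W ⊆ univ.filter fun j => slots Wᶜ (c j) < 6 := by
      intro j hj
      rw [inside, mem_filter] at hj
      rw [mem_filter]
      refine ⟨mem_univ _, ?_⟩
      have h3 : slots Wᶜ (c j) = 0 := by
        unfold slots
        rw [card_eq_zero]
        refine filter_false_of_mem fun s _ hs => ?_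
        refine (mem_compl.1 hs) (hj.2 ?_)
        rw [vars, mem_image]
        exact ⟨s, mem_univ _, rfl⟩
      omega
    have h3 : q * (inside c W).card ≤ M * n := (Nat.mul_le_mul_left _ (card_le_card h2)).trans h1
    rw [hcapd, Nat.lt_succ_iff, Nat.le_div_iff_mul_le hqpos]
    linarith
  -- the heavy variables
  have hheavy : ((univ.filter fun v : Fin n =>
      Δ < (univ.filter fun j => v ∈ vars c j).card).card : ℝ) ≤ ε / 16 * n := by
    have h1 := heavy_le c Δ
    have h2 : ((univ.filter fun v : Fin n =>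
        Δ < (univ.filter fun j => v ∈ vars c j).card).card : ℝ) * Δ ≤ (M * n) * ((k + 1 : ℕ) : ℝ) := by
      exact_mod_cast h1
    have h3 : (Δ : ℝ) = 16 * M * ((k + 1 : ℕ) : ℝ) * E := by
      rw [hΔ]
      push_cast
      ring
    rw [h3] at h2
    have h4 : ((univ.filter fun v : Fin n =>
        Δ < (univ.filter fun j => v ∈ vars c j).card).card : ℝ) * (16 * E) ≤ n := by
      have h5 : (0 : ℝ) < M * ((k + 1 : ℕ) : ℝ) := by positivity
      refine le_of_mul_le_mul_right ?_ h5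
      calc _ = ((univ.filter fun v : Fin n =>
            Δ < (univ.filter fun j => v ∈ vars c j).card).card : ℝ) *
            (16 * M * ((k + 1 : ℕ) : ℝ) * E) := by ring
        _ ≤ (M * n) * ((k + 1 : ℕ) : ℝ) := h2
        _ = _ := by ring
    have h5 : ((univ.filter fun v : Fin n =>
        Δ < (univ.filter fun j => v ∈ vars c j).card).card : ℝ) ≤ n / (16 * E) := by
      rwa [le_div_iff₀ (by positivity)]
    refine h5.trans ?_
    calc (n : ℝ) / (16 * E) = (1 / E) / 16 * n := by field_simp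
      _ ≤ ε / 16 * n := by gcongr
  have hlogη : -Real.log (1 - η) ≤ ε / 16 * Real.log 2 := by
    have h1 := Real.one_sub_inv_le_log_of_pos (show 0 < 1 - η by rw [hη]; linarith)
    have h2 : (1 - η)⁻¹ ≤ 1 + 2 * η := by
      rw [inv_le_iff_one_le_mul₀ (by rw [hη]; linarith)]
      have h3 : η ≤ 1 / 64 := by rw [hη]; linarith
      nlinarith
    have h3 : ε / 16 * (1 / 2) ≤ ε / 16 * Real.log 2 :=
      mul_le_mul_of_nonneg_left hl2 (by positivity)
    rw [hη] at *
    linarith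
  -- the average
  have hB0 : (0 : ℝ) < (2 : ℝ) ^ (ε / 2 * n) := Real.rpow_pos_of_pos (by norm_num) _
  have hK0' : (0 : ℝ) < (2 : ℝ) ^ (M * n) / 2 ^ cap := by positivity
  have hη1 : 2 * η < 1 := by rw [hη]; linarith
  have hbig : ∀ C : Set (Fin n → ZMod 2 → ℝ), Convex ℝ C → (2 : ℝ) ^ (ε / 2 * n) ≤ cnt C →
      (2 : ℝ) ^ (M * n) / 2 ^ cap ≤
        (((univ.filter fun b : Fin (M * n) → ZMod 2 => Far δ c b).filter fun b =>
          (C ∩ Relax D (cl c b) 0).Nonempty).card : ℝ) := by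
    intro C hC hcnt
    obtain ⟨S, hS⟩ : ∃ S : Finset (Fin n → ZMod 2), S = univ.filter fun x => lab x ∈ C := ⟨_, rfl⟩
    have hcS : (cnt C : ℝ) = S.card := by
      rw [hS]
      unfold cnt
      norm_cast
    rw [hcS] at hcnt
    have hSpos : (0 : ℝ) < S.card := lt_of_lt_of_le hB0 hcnt
    have hlog : ε / 2 * n * Real.log 2 ≤ Real.log S.card := by
      rw [← Real.log_rpow (by norm_num)]
      exact Real.log_le_log hB0 hcnt
    obtain ⟨J, t, hJ, hopen⟩ := open_presc (n := n) (m := M * n) (k := k) hr1 hDr (by omega) c hc1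
      η κ hη0 hη1 h cap Δ g h6 hf hcap C hC S (fun x hx => by
        rw [hS, mem_filter] at hx
        exact hx.2) (Finset.card_pos.1 (by exact_mod_cast hSpos)) (by
        refine le_trans ?_ hlog
        have e1 : ((univ.filter fun v : Fin n =>
            Δ < (univ.filter fun j => v ∈ vars c j).card).card : ℝ) * Real.log 2 ≤
            ε / 16 * n * Real.log 2 := mul_le_mul_of_nonneg_right hheavy hl1.le
        have e2 : -Real.log (1 - η) * n ≤ ε / 16 * Real.log 2 * n :=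
          mul_le_mul_of_nonneg_right hlogη hn0.le
        have e3 : (h : ℝ) * Real.log 2 * cap ≤ ε / 16 * n * Real.log 2 := by
          calc (h : ℝ) * Real.log 2 * cap = (h * cap) * Real.log 2 := by ring
            _ ≤ _ := mul_le_mul_of_nonneg_right hcapε hl1.le
        have e4 : κ * n * Real.log 2 ≤ ε / 16 * n * Real.log 2 := by gcongr
        have e5 : 0 ≤ ε * n * Real.log 2 := by positivity
        calc _ ≤ ε / 16 * n * Real.log 2 + ε / 16 * Real.log 2 * n + ε / 16 * n * Real.log 2 +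
              ε / 16 * n * Real.log 2 := by linarith
          _ = (1 / 4) * (ε * n * Real.log 2) := by ring
          _ ≤ (1 / 2) * (ε * n * Real.log 2) := by linarith
          _ = _ := by ring)
    exact open_count c hnear hcapn C J t hJ hopen
  have hav := avg (univ.filter fun b : Fin (M * n) → ZMod 2 => Far δ c b)
    (fun b => Relax D (cl c b) 0) _ _ hB0 hK0' hbig T Set.univ convex_univ
    (fun b hb => hT b (mem_filter.1 hb).2)
  rw [cnt_univ, Finset.sum_sub_distrib, Finset.sum_const, nsmul_eq_mul, mul_one] at hav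
  have hF : (2 : ℝ) ^ (M * n) / 2 ^ cap ≤
      ((univ.filter fun b : Fin (M * n) → ZMod 2 => Far δ c b).card : ℝ) := by
    refine (hbig Set.univ convex_univ ?_).trans ?_
    · rw [cnt_univ, ← Real.rpow_natCast 2 n]
      apply Real.rpow_le_rpow_of_exponent_le (by norm_num)
      have : ε / 2 * (n : ℝ) ≤ 1 * n := mul_le_mul_of_nonneg_right (by linarith) hn0.le
      linarith
    · exact_mod_cast card_le_card (filter_subset _ _)
  obtain ⟨P, hP⟩ : ∃ P : ℝ, P = ∑ b ∈ univ.filter fun b => Far δ c b,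
      (pruned (Relax D (cl c b) 0) T Set.univ : ℝ) := ⟨_, rfl⟩
  rw [← hP] at hav ⊢
  obtain ⟨N, hN⟩ : ∃ N : ℝ, N = ((univ.filter fun b : Fin (M * n) → ZMod 2 =>
    Far δ c b).card : ℝ) := ⟨_, rfl⟩
  rw [← hN] at hav hF
  have h1 : (2 : ℝ) ^ n * (2 ^ (M * n) / 2 ^ cap) ≤ (2 : ℝ) ^ (ε / 2 * n) * P := by
    have h2 : (2 : ℝ) ^ (ε / 2 * n) * (1 + (P - N) / (2 ^ (M * n) / 2 ^ cap)) *
        (2 ^ (M * n) / 2 ^ cap) = (2 : ℝ) ^ (ε / 2 * n) * ((2 ^ (M * n) / 2 ^ cap) + (P - N)) := by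
      have h3 := hK0'.ne'
      generalize (2 : ℝ) ^ (M * n) / 2 ^ cap = Z at h3 ⊢
      field_simp
    calc (2 : ℝ) ^ n * (2 ^ (M * n) / 2 ^ cap) ≤
        (2 : ℝ) ^ (ε / 2 * n) * (1 + (P - N) / (2 ^ (M * n) / 2 ^ cap)) *
          (2 ^ (M * n) / 2 ^ cap) := mul_le_mul_of_nonneg_right hav hK0'.le
      _ = (2 : ℝ) ^ (ε / 2 * n) * ((2 ^ (M * n) / 2 ^ cap) + (P - N)) := h2
      _ ≤ (2 : ℝ) ^ (ε / 2 * n) * P := mul_le_mul_of_nonneg_left (by linarith) hB0.le
  have h2 : (2 : ℝ) ^ (ε / 2 * n) * ((2 : ℝ) ^ ((1 - ε) * n) * 2 ^ (M * n)) ≤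
      (2 : ℝ) ^ n * (2 ^ (M * n) / 2 ^ cap) := by
    have h3 : (2 : ℝ) ^ (ε / 2 * n) * (2 : ℝ) ^ ((1 - ε) * n) * 2 ^ cap ≤ (2 : ℝ) ^ n := by
      rw [← Real.rpow_natCast 2 cap, ← Real.rpow_natCast 2 n, ← Real.rpow_add (by norm_num),
        ← Real.rpow_add (by norm_num)]
      apply Real.rpow_le_rpow_of_exponent_le (by norm_num)
      have : 0 ≤ ε * n := by positivity
      linarith
    have h4 : (0 : ℝ) < 2 ^ cap := by positivity
    rw [mul_div_assoc', le_div_iff₀ h4]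
    calc (2 : ℝ) ^ (ε / 2 * n) * ((2 : ℝ) ^ ((1 - ε) * n) * 2 ^ (M * n)) * 2 ^ cap =
        ((2 : ℝ) ^ (ε / 2 * n) * (2 : ℝ) ^ ((1 - ε) * n) * 2 ^ cap) * 2 ^ (M * n) := by ring
      _ ≤ _ := mul_le_mul_of_nonneg_right h3 (by positivity)
  exact le_of_mul_le_mul_left (h2.trans h1) hB0

open Classical in
/-- The tree which branches on all variables is a proof for every formula. -/
theorem full_ok {n k D : ℕ} {I : Type} [Fintype I] (F : I → Clause k n) (β : ℝ) (hk : k ≤ D)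
    (hD : 1 ≤ D) (h : ∀ x, β < falsified F x) :
    Tree.Proves (Relax D F β)
      (full ((Finset.univ : Finset (Fin n)).toList.map fun v => (v, (1 : ZMod 2)))) Set.univ := by
  refine full_proves _ _ _ ?_
  rintro μ - h01 ⟨L, hL, hμ, hval⟩
  have h01' : ∀ v, μ v 1 ≤ 0 ∨ 1 ≤ μ v 1 := fun v => h01 (v, 1) (by simp)
  have hsum : ∀ v, μ v 0 + μ v 1 = 1 := by
    intro v
    have e : (fun x : Fin n → ZMod 2 => if x v = 0 then (1 : ℝ) else 0) +
        (fun x => if x v = 1 then 1 else 0) = fun _ => 1 := by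
      funext x
      rw [Pi.add_apply]
      rcases z2 (x v) with hx | hx
      · rw [hx, if_pos rfl, if_neg (by decide)]; norm_num
      · rw [hx, if_pos rfl, if_neg (by decide)]; norm_num
    rw [hμ, hμ, ← map_add, e, hL.1]
  have hnn : ∀ v a, 0 ≤ μ v a := by
    intro v a
    rw [hμ]
    have h1 := hL.2 (fun x => if x v = a then 1 else 0)
      (junta_mem {v} (by rw [card_singleton]; exact hD) fun x y hxy => by
        rw [hxy v (mem_singleton_self v)])
    have h2 : (fun x : Fin n → ZMod 2 => (if x v = a then (1 : ℝ) else 0) ^ 2) =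
        fun x => if x v = a then 1 else 0 := by
      funext x
      split_ifs <;> norm_num
    rwa [h2] at h1
  obtain ⟨x0, hx0⟩ : ∃ x0 : Fin n → ZMod 2, ∀ v, L (fun x => if x v = x0 v then 1 else 0) = 1 := by
    refine ⟨fun v => if μ v 1 ≤ 0 then 0 else 1, fun v => ?_⟩
    beta_reduce
    rw [← hμ]
    have h1 := hsum v
    have h2 := hnn v 0
    have h3 := hnn v 1
    split_ifs with h4
    · linarith
    · rcases h01' v with h5 | h5
      · exact absurd h5 h4
      · linarith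
  have h1 : (fun x => (falsified F x : ℝ)) =
      ∑ i, fun x => if ¬ Satisfies x (F i) then (1 : ℝ) else 0 := by
    funext x
    rw [Finset.sum_apply]
    unfold falsified
    rw [Finset.card_filter]
    push_cast
    rfl
  have h2 : L (fun x => (falsified F x : ℝ)) = falsified F x0 := by
    rw [h1, map_sum]
    have h3 : (falsified F x0 : ℝ) = ∑ i, if ¬ Satisfies x0 (F i) then (1 : ℝ) else 0 := by
      unfold falsified
      rw [Finset.card_filter]
      push_cast
      rfl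
    rw [h3]
    refine Finset.sum_congr rfl fun i _ => ?_
    refine pe_eval hL hD x0 hx0 _ (univ.image fun l => (F i l).1) ?_ ?_
    · refine Finset.card_image_le.trans ?_
      rw [card_univ, Fintype.card_fin]
      exact hk
    · intro x y hxy
      have h4 : Satisfies x (F i) ↔ Satisfies y (F i) := by
        unfold Satisfies
        refine exists_congr fun l => ?_
        rw [hxy (F i l).1 (mem_image.2 ⟨l, mem_univ _, rfl⟩)]
      simp only [h4]
  rw [h2] at hval
  exact absurd hval (not_le.2 (h x0))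

theorem full_leaves {n : ℕ} (l : List (Fin n × ZMod 2)) : (full l).leaves = 2 ^ l.length := by
  induction l with
  | nil => rfl
  | cons p l ih =>
    show (full l).leaves + (full l).leaves = 2 ^ (l.length + 1)
    rw [ih, pow_succ]
    ring

open Classical in
/-- The main theorem, with the tree which branches on all variables. -/
theorem exact_all (ε δ : ℝ) (hε : 0 < ε) (hε1 : ε < 1) (hδ : 0 < δ) :
    ∃ k M : ℕ, 1 ≤ M ∧ ∃ γ : ℝ, 0 < γ ∧ ∃ n0 : ℕ, ∀ n : ℕ, n0 ≤ n →
      ∃ c : Fin (M * n) → Fin (k + 1) → Fin n,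
        ((univ.filter fun b => ¬ Far δ c b).card : ℝ) * 2 ^ n ≤ 2 ^ (M * n) ∧
        (∀ D : ℕ, (D : ℝ) ≤ γ * n → ∀ T : Tree (Fin n) (ZMod 2),
          (∀ b, Far δ c b → T.Proves (Relax D (cl c b) 0) Set.univ) →
          (2 : ℝ) ^ ((1 - ε) * n) * 2 ^ (M * n) ≤
            ∑ b ∈ univ.filter fun b => Far δ c b,
              (pruned (Relax D (cl c b) 0) T Set.univ : ℝ)) ∧
        (δ < 1 / 2 → ∃ T : Tree (Fin n) (ZMod 2), T.leaves = 2 ^ n ∧ ∀ D : ℕ, k + 1 ≤ D →
          ∀ b, Far δ c b → T.Proves (Relax D (cl c b) 0) Set.univ) := by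
  obtain ⟨k, M, hM, γ, hγ, n0, h⟩ := exact_main ε δ hε hε1 hδ
  refine ⟨k, M, hM, γ, hγ, max n0 1, fun n hn => ?_⟩
  obtain ⟨c, h1, h2⟩ := h n ((le_max_left _ _).trans hn)
  refine ⟨c, h1, h2, fun hδ2 => ⟨full ((Finset.univ : Finset (Fin n)).toList.map
    fun v => (v, (1 : ZMod 2))), ?_, fun D hD b hb => ?_⟩⟩
  · rw [full_leaves, List.length_map, Finset.length_toList, card_univ, Fintype.card_fin]
  · refine full_ok _ _ hD (by omega) fun x => lt_of_lt_of_le ?_ (hb x)
    have hn1 : 1 ≤ n := (le_max_right _ _).trans hn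
    have : 0 < M * n := Nat.mul_pos (by omega) (by omega)
    have h3 : (0 : ℝ) < ((M * n : ℕ) : ℝ) := by exact_mod_cast this
    exact mul_pos (by linarith) h3

end Pool.Agent.W888.GX
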