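import Mathlib

set_option autoImplicit false
set_option linter.unusedSectionVars false

/-!
Pseudo-expectations for sparse linear systems modulo two which hold only on a part `U` of the
variables; the other variables are fixed.
-/

namespace Pool.Agent.W888.GX

open Finset Matrix

/-- The span of the real functions of `x : V → A` that depend on at most `D` of the values `x v`. -/
def LowDegree (V A : Type) (D : ℕ) : Submodule ℝ ((V → A) → ℝ) :=
  Submodule.span ℝ {f | ∃ S : Finset V, S.card ≤ D ∧
    ∀ x y : V → A, (∀ v ∈ S, x v = y v) → f x = f y}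

/-- `L` is a pseudo-expectation of degree `2 D`: a normalised linear functional which is nonnegative
on the squares of all functions in `LowDegree V A D` (a solution of the sum-of-squares, or Lasserre,
relaxation of degree `2 D`). -/
def IsPseudoExpectation {V A : Type} (D : ℕ) (L : ((V → A) → ℝ) →ₗ[ℝ] ℝ) : Prop :=
  L (fun _ => 1) = 1 ∧ ∀ f ∈ LowDegree V A D, 0 ≤ L (fun x => f x ^ 2)

/-- the sign -/
noncomputable def sg (z : ZMod 2) : ℝ := if z = 0 then 1 else -1

theorem z2 (z : ZMod 2) : z = 0 ∨ z = 1 := by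
  revert z
  decide

theorem sg_zero : sg 0 = 1 := if_pos rfl

theorem sg_one : sg 1 = -1 := if_neg (by decide)

theorem sg_add (a b : ZMod 2) : sg (a + b) = sg a * sg b := by
  rcases z2 a with rfl | rfl <;> rcases z2 b with rfl | rfl
  · simp [sg_zero]
  · simp [sg_zero]
  · simp [sg_zero]
  · rw [show (1 + 1 : ZMod 2) = 0 by decide, sg_zero, sg_one]; norm_num

theorem sg_sq (a : ZMod 2) : sg a ^ 2 = 1 := by
  rcases z2 a with rfl | rfl
  · rw [sg_zero]; norm_num
  · rw [sg_one]; norm_num

theorem sg_ne (a : ZMod 2) : sg a ≠ 0 := by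
  intro h
  have := sg_sq a
  rw [h] at this
  norm_num at this

theorem z2_add_self (a : ZMod 2) : a + a = 0 := by
  rcases z2 a with rfl | rfl <;> decide

/-- A positive semidefinite form from an equivalence relation with signs. -/
theorem psd_class {ι : Type} [DecidableEq ι] (B : Finset ι) (M : ι → ι → ℝ)
    (hsym : ∀ a b, M a b = M b a) (h1 : ∀ a ∈ B, M a a = 1)
    (hsq : ∀ a ∈ B, ∀ b ∈ B, M a b ≠ 0 → M a b ^ 2 = 1)
    (htr : ∀ a ∈ B, ∀ b ∈ B, ∀ d ∈ B, M a b ≠ 0 → M b d ≠ 0 → M a d = M a b * M b d)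
    (c : ι → ℝ) : 0 ≤ ∑ a ∈ B, ∑ b ∈ B, c a * c b * M a b := by
  classical
  obtain ⟨cl, hcl⟩ : ∃ cl : ι → ℕ, cl = fun a => (B.filter fun e => M a e ≠ 0).card := ⟨_, rfl⟩
  have hclpos : ∀ a ∈ B, 0 < cl a := by
    intro a ha
    rw [hcl]
    refine Finset.card_pos.2 ⟨a, mem_filter.2 ⟨ha, ?_⟩⟩
    rw [h1 a ha]
    exact one_ne_zero
  have hcleq : ∀ a ∈ B, ∀ e ∈ B, M a e ≠ 0 → cl e = cl a := by
    intro a ha e he hae
    rw [hcl]
    beta_reduce
    congr 1
    ext d
    simp only [mem_filter]
    constructor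
    · rintro ⟨hd, hed⟩
      refine ⟨hd, ?_⟩
      rw [htr a ha e he d hd hae hed]
      exact mul_ne_zero hae hed
    · rintro ⟨hd, had⟩
      refine ⟨hd, ?_⟩
      have hea : M e a ≠ 0 := by rw [hsym]; exact hae
      rw [htr e he a ha d hd hea had]
      exact mul_ne_zero hea had
  have key : ∀ a ∈ B, ∀ b ∈ B, M a b = ∑ e ∈ B, (1 / (cl e : ℝ)) * (M a e * M b e) := by
    intro a ha b hb
    by_cases hab : M a b = 0
    · rw [hab]
      symm
      refine Finset.sum_eq_zero fun e he => ?_
      by_cases h2 : M a e = 0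
      · rw [h2]; ring
      · by_cases h3 : M b e = 0
        · rw [h3]; ring
        · exfalso
          have h4 : M e b ≠ 0 := by rw [hsym]; exact h3
          have h5 := htr a ha e he b hb h2 h4
          rw [hab] at h5
          exact mul_ne_zero h2 h4 h5.symm
    · have h2 : ∀ e ∈ B, (1 / (cl e : ℝ)) * (M a e * M b e) =
          if M a e ≠ 0 then (1 / (cl a : ℝ)) * M a b else 0 := by
        intro e he
        by_cases h3 : M a e = 0
        · rw [if_neg (not_not.2 h3), h3]; ring
        · rw [if_pos h3, hcleq a ha e he h3]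
          have hba : M b a ≠ 0 := by rw [hsym]; exact hab
          rw [htr b hb a ha e he hba h3, hsym b a]
          have h4 := hsq a ha e he h3
          have : M a e * (M a b * M a e) = M a e ^ 2 * M a b := by ring
          rw [this, h4]
          ring
      rw [Finset.sum_congr rfl h2, ← Finset.sum_filter, Finset.sum_const, nsmul_eq_mul]
      have h3 : ((B.filter fun e => M a e ≠ 0).card : ℝ) = cl a := by rw [hcl]
      have h4 : (0 : ℝ) < cl a := by exact_mod_cast hclpos a ha
      rw [h3]
      field_simp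
  have h2 : ∑ a ∈ B, ∑ b ∈ B, c a * c b * M a b =
      ∑ e ∈ B, (1 / (cl e : ℝ)) * (∑ a ∈ B, c a * M a e) ^ 2 := by
    calc ∑ a ∈ B, ∑ b ∈ B, c a * c b * M a b
        = ∑ a ∈ B, ∑ b ∈ B, ∑ e ∈ B, (1 / (cl e : ℝ)) * ((c a * M a e) * (c b * M b e)) := by
          refine Finset.sum_congr rfl fun a ha => Finset.sum_congr rfl fun b hb => ?_
          rw [key a ha b hb, Finset.mul_sum]
          refine Finset.sum_congr rfl fun e _ => ?_
          ring
      _ = ∑ e ∈ B, ∑ a ∈ B, ∑ b ∈ B, (1 / (cl e : ℝ)) * ((c a * M a e) * (c b * M b e)) := by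
          rw [Finset.sum_comm]
          rw [Finset.sum_comm]
          rw [Finset.sum_comm (s := B) (t := B) (f := fun e a => ∑ b ∈ B,
            (1 / (cl e : ℝ)) * ((c a * M a e) * (c b * M b e)))]
          refine Finset.sum_congr rfl fun a _ => ?_
          rw [Finset.sum_comm]
      _ = _ := by
          refine Finset.sum_congr rfl fun e _ => ?_
          rw [sq, Finset.sum_mul_sum, Finset.mul_sum]
          refine Finset.sum_congr rfl fun a _ => ?_
          rw [Finset.mul_sum]
  rw [h2]
  exact Finset.sum_nonneg fun e _ => mul_nonneg (by positivity) (sq_nonneg _)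

section fourier

variable {V : Type} [Fintype V] [DecidableEq V]

/-- the characters -/
noncomputable def chi (y x : V → ZMod 2) : ℝ := sg (y ⬝ᵥ x)

theorem chi_add (y y' x : V → ZMod 2) : chi (y + y') x = chi y x * chi y' x := by
  unfold chi
  rw [add_dotProduct, sg_add]

theorem chi_add' (y x x' : V → ZMod 2) : chi y (x + x') = chi y x * chi y x' := by
  unfold chi
  rw [dotProduct_add, sg_add]

theorem chi_zero (x : V → ZMod 2) : chi 0 x = 1 := by
  unfold chi
  rw [zero_dotProduct, sg_zero]

theorem chi_comm (x y : V → ZMod 2) : chi x y = chi y x := by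
  unfold chi
  rw [dotProduct_comm]

theorem chi_single (y : V → ZMod 2) (v : V) (h : y v ≠ 0) : chi y (Pi.single v 1) = -1 := by
  unfold chi
  rw [dotProduct_single_one, (z2 (y v)).resolve_left h, sg_one]

theorem sum_shift (s : V → ZMod 2) (g : (V → ZMod 2) → ℝ) : ∑ x, g (x + s) = ∑ x, g x :=
  Equiv.sum_comp (Equiv.addRight s) g

theorem sum_chi (y : V → ZMod 2) :
    ∑ x, chi y x = if y = 0 then (2 : ℝ) ^ Fintype.card V else 0 := by
  by_cases h : y = 0
  · rw [if_pos h, h]
    simp only [chi_zero]
    rw [Finset.sum_const, card_univ, Fintype.card_fun, ZMod.card, nsmul_eq_mul, mul_one]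
    push_cast
    rfl
  · rw [if_neg h]
    obtain ⟨v, hv⟩ : ∃ v, y v ≠ 0 := by
      by_contra hcon
      push Not at hcon
      exact h (funext hcon)
    have h1 := sum_shift (V := V) (Pi.single v 1) fun x => chi y x
    beta_reduce at h1
    have h2 : ∑ x : V → ZMod 2, chi y (x + Pi.single v 1) = - ∑ x, chi y x := by
      rw [← Finset.sum_neg_distrib]
      refine Finset.sum_congr rfl fun x _ => ?_
      rw [chi_add', chi_single y v hv]
      ring
    linarith

/-- Fourier coefficients -/
noncomputable def hat (f : (V → ZMod 2) → ℝ) (y : V → ZMod 2) : ℝ :=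
  (1 / 2 ^ Fintype.card V) * ∑ x, f x * chi y x

theorem add_self_v (y : V → ZMod 2) : y + y = 0 := by
  funext v
  exact z2_add_self _

theorem add_eq_zero_v (y y' : V → ZMod 2) : y + y' = 0 ↔ y = y' := by
  constructor
  · intro h
    have : y + y' + y' = y' := by rw [h, zero_add]
    rwa [add_assoc, add_self_v, add_zero] at this
  · rintro rfl
    exact add_self_v y

theorem hat_chi (y y' : V → ZMod 2) : hat (chi y') y = if y = y' then 1 else 0 := by
  unfold hat
  have h1 : ∀ x, chi y' x * chi y x = chi (y + y') x := fun x => by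
    rw [chi_add, mul_comm]
  simp only [h1, sum_chi, add_eq_zero_v]
  split_ifs with h
  · have : (0 : ℝ) < 2 ^ Fintype.card V := by positivity
    field_simp
  · ring

theorem inversion (f : (V → ZMod 2) → ℝ) (x : V → ZMod 2) :
    f x = ∑ y, hat f y * chi y x := by
  unfold hat
  have h1 : ∑ y, (1 / 2 ^ Fintype.card V) * (∑ x', f x' * chi y x') * chi y x =
      (1 / 2 ^ Fintype.card V) * ∑ x', f x' * ∑ y, chi (x + x') y := by
    rw [Finset.mul_sum]
    simp only [Finset.mul_sum, Finset.sum_mul]
    rw [Finset.sum_comm]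
    refine Finset.sum_congr rfl fun x' _ => Finset.sum_congr rfl fun y _ => ?_
    rw [chi_add, chi_comm x y, chi_comm x' y]
    ring
  rw [h1]
  simp only [sum_chi, add_eq_zero_v]
  rw [Finset.sum_eq_single x]
  · rw [if_pos rfl]
    have : (0 : ℝ) < 2 ^ Fintype.card V := by positivity
    field_simp
  · intro b _ hb
    rw [if_neg (Ne.symm hb), mul_zero]
  · intro h
    exact absurd (mem_univ _) h

/-- weight -/
def wt {ι : Type} [Fintype ι] (y : ι → ZMod 2) : ℕ := (univ.filter fun v => y v ≠ 0).card

theorem wt_add {ι : Type} [Fintype ι] (y y' : ι → ZMod 2) : wt (y + y') ≤ wt y + wt y' := by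
  classical
  unfold wt
  refine le_trans (Finset.card_le_card ?_) (Finset.card_union_le _ _)
  intro v hv
  rw [mem_filter] at hv
  rw [mem_union, mem_filter, mem_filter]
  by_contra hcon
  push Not at hcon
  refine hv.2 ?_
  rw [Pi.add_apply, hcon.1 (mem_univ _), hcon.2 (mem_univ _), add_zero]

theorem hat_add (f g : (V → ZMod 2) → ℝ) (y : V → ZMod 2) :
    hat (f + g) y = hat f y + hat g y := by
  unfold hat
  rw [← mul_add, ← Finset.sum_add_distrib]
  congr 1
  refine Finset.sum_congr rfl fun x _ => ?_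
  rw [Pi.add_apply]
  ring

theorem hat_smul (a : ℝ) (f : (V → ZMod 2) → ℝ) (y : V → ZMod 2) :
    hat (a • f) y = a * hat f y := by
  unfold hat
  rw [mul_left_comm, Finset.mul_sum (a := a)]
  congr 1
  refine Finset.sum_congr rfl fun x _ => ?_
  rw [Pi.smul_apply, smul_eq_mul]
  ring

theorem hat_low {D : ℕ} {f : (V → ZMod 2) → ℝ} (hf : f ∈ LowDegree V (ZMod 2) D)
    (y : V → ZMod 2) (hy : D < wt y) : hat f y = 0 := by
  unfold LowDegree at hf
  induction hf using Submodule.span_induction with
  | mem f h =>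
    obtain ⟨S, hS, hf⟩ := h
    obtain ⟨v, hv, hvS⟩ : ∃ v, y v ≠ 0 ∧ v ∉ S := by
      by_contra hcon
      push Not at hcon
      have : (univ.filter fun v => y v ≠ 0) ⊆ S := by
        intro v hv
        exact hcon v (mem_filter.1 hv).2
      have h1 := Finset.card_le_card this
      unfold wt at hy
      omega
    have h1 := sum_shift (V := V) (Pi.single v 1) fun x => f x * chi y x
    beta_reduce at h1
    have h2 : ∑ x : V → ZMod 2, f (x + Pi.single v 1) * chi y (x + Pi.single v 1) =
        - ∑ x, f x * chi y x := by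
      rw [← Finset.sum_neg_distrib]
      refine Finset.sum_congr rfl fun x _ => ?_
      rw [chi_add', chi_single y v hv, hf (x + Pi.single v 1) x]
      · ring
      · intro u hu
        have : u ≠ v := fun h => hvS (h ▸ hu)
        rw [Pi.add_apply, Pi.single_eq_of_ne this, add_zero]
    unfold hat
    rw [show ∑ x, f x * chi y x = 0 by linarith, mul_zero]
  | zero =>
    unfold hat
    simp
  | add f g _ _ hf hg => rw [hat_add, hf, hg, add_zero]
  | smul a f _ hf => rw [hat_smul, hf, mul_zero]

/-- the functional with prescribed values on the characters -/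
noncomputable def Lf (l : (V → ZMod 2) → ℝ) : ((V → ZMod 2) → ℝ) →ₗ[ℝ] ℝ where
  toFun f := ∑ y, l y * hat f y
  map_add' f g := by
    rw [← Finset.sum_add_distrib]
    refine Finset.sum_congr rfl fun y _ => ?_
    rw [← mul_add, hat_add]
  map_smul' a f := by
    rw [RingHom.id_apply, smul_eq_mul, Finset.mul_sum]
    refine Finset.sum_congr rfl fun y _ => ?_
    rw [hat_smul]
    ring

theorem Lf_chi (l : (V → ZMod 2) → ℝ) (y : V → ZMod 2) : Lf l (chi y) = l y := by
  show ∑ y', l y' * hat (chi y) y' = l y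
  simp only [hat_chi]
  rw [Finset.sum_eq_single y]
  · rw [if_pos rfl, mul_one]
  · intro b _ hb
    rw [if_neg hb, mul_zero]
  · intro h
    exact absurd (mem_univ _) h

theorem Lf_sq (l : (V → ZMod 2) → ℝ) (D : ℕ) {f : (V → ZMod 2) → ℝ}
    (hf : f ∈ LowDegree V (ZMod 2) D) :
    Lf l (fun x => f x ^ 2) = ∑ y ∈ univ.filter fun y : V → ZMod 2 => wt y ≤ D,
      ∑ y' ∈ univ.filter fun y : V → ZMod 2 => wt y ≤ D, hat f y * hat f y' * l (y + y') := by
  classical
  have h1 : ∀ x, f x = ∑ y ∈ univ.filter fun y : V → ZMod 2 => wt y ≤ D, hat f y * chi y x := by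
    intro x
    rw [inversion f x, Finset.sum_filter]
    refine Finset.sum_congr rfl fun y _ => ?_
    split_ifs with h
    · rfl
    · rw [hat_low hf y (not_le.1 h), zero_mul]
  have h2 : (fun x : V → ZMod 2 => f x ^ 2) = ∑ y ∈ univ.filter fun y : V → ZMod 2 => wt y ≤ D,
      ∑ y' ∈ univ.filter fun y : V → ZMod 2 => wt y ≤ D,
        (hat f y * hat f y') • (chi (y + y') : (V → ZMod 2) → ℝ) := by
    funext x
    rw [Finset.sum_apply, sq]
    conv_lhs => rw [h1 x, Finset.sum_mul_sum]
    refine Finset.sum_congr rfl fun y _ => ?_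
    rw [Finset.sum_apply]
    refine Finset.sum_congr rfl fun y' _ => ?_
    rw [Pi.smul_apply, smul_eq_mul, chi_add]
    ring
  rw [h2, map_sum]
  refine Finset.sum_congr rfl fun y _ => ?_
  rw [map_sum]
  refine Finset.sum_congr rfl fun y' _ => ?_
  rw [map_smul, Lf_chi, smul_eq_mul]

end fourier

section system

variable {V I : Type} [Fintype V] [DecidableEq V] [Fintype I] [DecidableEq I]

/-- the linear combination of the rows with coefficients `a` -/
def rs (R : I → V → ZMod 2) (a : I → ZMod 2) : V → ZMod 2 := fun v => ∑ j, a j * R j v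

theorem rs_add (R : I → V → ZMod 2) (a a' : I → ZMod 2) : rs R (a + a') = rs R a + rs R a' := by
  funext v
  rw [Pi.add_apply]
  unfold rs
  rw [← Finset.sum_add_distrib]
  refine Finset.sum_congr rfl fun j _ => ?_
  rw [Pi.add_apply]
  ring

/-- `y` agrees on `U` with the combination `a` of at most `r` rows in `G` -/
def Der (R : I → V → ZMod 2) (U : Finset V) (G : Finset I) (r : ℕ) (y : V → ZMod 2)
    (a : I → ZMod 2) : Prop :=
  (∀ j, j ∉ G → a j = 0) ∧ wt a ≤ r ∧ ∀ v ∈ U, y v = rs R a v

/-- Every combination of at most `r` rows of `G` has large weight on `U`. -/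
def Exp (R : I → V → ZMod 2) (U : Finset V) (G : Finset I) (r : ℕ) : Prop :=
  ∀ a : I → ZMod 2, (∀ j, j ∉ G → a j = 0) → wt a ≤ r → a ≠ 0 →
    wt a ≤ 2 * (U.filter fun v => rs R a v ≠ 0).card ∧ 2 ≤ (U.filter fun v => rs R a v ≠ 0).card

open Classical in
/-- the values on the characters -/
noncomputable def ell (R : I → V → ZMod 2) (b : I → ZMod 2) (U : Finset V) (G : Finset I) (r : ℕ)
    (w : V → ZMod 2) (y : V → ZMod 2) : ℝ :=
  if h : ∃ a, Der R U G r y a then sg (h.choose ⬝ᵥ b + (y + rs R h.choose) ⬝ᵥ w) else 0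

variable {R : I → V → ZMod 2} {b : I → ZMod 2} {U : Finset V} {G : Finset I} {r : ℕ}
  {w : V → ZMod 2}

theorem wt_eq_zero {ι : Type} [Fintype ι] {a : ι → ZMod 2} (h : wt a = 0) : a = 0 := by
  funext j
  by_contra hj
  have : j ∈ (univ.filter fun v => a v ≠ 0) := mem_filter.2 ⟨mem_univ _, hj⟩
  have h2 : 0 < (univ.filter fun v => a v ≠ 0).card := Finset.card_pos.2 ⟨j, this⟩
  unfold wt at h
  omega

theorem der_add {r1 r2 r3 : ℕ} {y y' : V → ZMod 2} {a a' : I → ZMod 2} (h : Der R U G r1 y a)
    (h' : Der R U G r2 y' a') (hr : wt (a + a') ≤ r3) : Der R U G r3 (y + y') (a + a') := by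
  refine ⟨fun j hj => ?_, hr, fun v hv => ?_⟩
  · rw [Pi.add_apply, h.1 j hj, h'.1 j hj, add_zero]
  · rw [rs_add, Pi.add_apply, Pi.add_apply, h.2.2 v hv, h'.2.2 v hv]

theorem der_unique (hE : Exp R U G (2 * r)) {y : V → ZMod 2} {a a' : I → ZMod 2}
    (h : Der R U G r y a) (h' : Der R U G r y a') : a = a' := by
  rw [← add_eq_zero_v]
  by_contra hne
  have hw : wt (a + a') ≤ 2 * r := by
    have := wt_add a a'
    have h1 := h.2.1
    have h2 := h'.2.1
    omega
  have h1 := der_add h h' hw
  have h2 := (hE (a + a') h1.1 hw hne).2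
  rw [add_self_v] at h1
  have h3 : (U.filter fun v => rs R (a + a') v ≠ 0).card = 0 := by
    rw [Finset.card_eq_zero, Finset.filter_eq_empty_iff]
    intro v hv
    rw [not_not, ← h1.2.2 v hv]
    rfl
  omega

theorem ell_eq (hE : Exp R U G (2 * r)) {y : V → ZMod 2} {a : I → ZMod 2}
    (h : Der R U G r y a) : ell R b U G r w y = sg (a ⬝ᵥ b + (y + rs R a) ⬝ᵥ w) := by
  have hex : ∃ a, Der R U G r y a := ⟨a, h⟩
  have h1 : hex.choose = a := der_unique hE hex.choose_spec h
  unfold ell
  rw [dif_pos hex, h1]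

theorem ell_ne {y : V → ZMod 2} (h : ell R b U G r w y ≠ 0) : ∃ a, Der R U G r y a := by
  by_contra hcon
  apply h
  unfold ell
  rw [dif_neg hcon]

theorem ell_abs (y : V → ZMod 2) : |ell R b U G r w y| ≤ 1 := by
  unfold ell
  split_ifs with h
  · rw [← sq_le_one_iff_abs_le_one, sg_sq]
  · simp

theorem der_wt (hE : Exp R U G (2 * r)) {y : V → ZMod 2} {a : I → ZMod 2}
    (h : Der R U G r y a) : wt a ≤ 2 * wt y := by
  by_cases ha : a = 0
  · rw [ha]
    unfold wt
    simp
  · have h1 := (hE a h.1 (by have := h.2.1; omega) ha).1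
    have h2 : (U.filter fun v => rs R a v ≠ 0).card ≤ wt y := by
      unfold wt
      refine Finset.card_le_card fun v hv => ?_
      rw [mem_filter] at hv ⊢
      refine ⟨mem_univ _, ?_⟩
      rw [h.2.2 v hv.1]
      exact hv.2
    omega

theorem ell_add (hE : Exp R U G (2 * r)) {y y' : V → ZMod 2} {a a' : I → ZMod 2}
    (h : Der R U G r y a) (h' : Der R U G r y' a') (hr : wt (a + a') ≤ r) :
    ell R b U G r w (y + y') = ell R b U G r w y * ell R b U G r w y' := by
  rw [ell_eq hE h, ell_eq hE h', ell_eq hE (der_add h h' hr), ← sg_add, rs_add]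
  congr 1
  simp only [add_dotProduct]
  ring

theorem zero_der : Der R U G r 0 0 := by
  refine ⟨fun _ _ => rfl, ?_, fun v _ => ?_⟩
  · unfold wt
    simp
  · unfold rs
    simp

/-- The pseudo-expectation of the system on `U` with the rest fixed. -/
theorem pe (hE : Exp R U G (2 * r)) (D : ℕ) (hD : 8 * D ≤ r) :
    IsPseudoExpectation D (Lf (ell R b U G r w)) := by
  classical
  have h0 : ell R b U G r w 0 = 1 := by
    rw [ell_eq hE zero_der]
    have : rs R (0 : I → ZMod 2) = 0 := by
      funext v
      unfold rs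
      simp
    rw [this]
    simp [sg_zero]
  refine ⟨?_, ?_⟩
  · have h1 : (fun _ : V → ZMod 2 => (1 : ℝ)) = chi 0 := by
      funext x
      rw [chi_zero]
    rw [h1, Lf_chi, h0]
  · intro f hf
    rw [Lf_sq _ D hf]
    refine psd_class (univ.filter fun y : V → ZMod 2 => wt y ≤ D)
      (fun y y' => ell R b U G r w (y + y')) ?_ ?_ ?_ ?_ (hat f)
    · intro y y'
      rw [add_comm]
    · intro y _
      rw [add_self_v, h0]
    · intro y _ y' _ h
      obtain ⟨a, ha⟩ := ell_ne h
      rw [ell_eq hE ha, sg_sq]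
    · intro y hy y' hy' y'' hy'' h h'
      rw [mem_filter] at hy hy' hy''
      obtain ⟨a, ha⟩ := ell_ne h
      obtain ⟨a', ha'⟩ := ell_ne h'
      have h1 := der_wt hE ha
      have h2 := der_wt hE ha'
      have h3 := wt_add y y'
      have h4 := wt_add y' y''
      have h5 := wt_add a a'
      have h6 : y + y'' = (y + y') + (y' + y'') := by
        rw [add_assoc, ← add_assoc y' y' y'', add_self_v, zero_add]
      rw [h6]
      exact ell_add hE ha ha' (by omega)

/-- value on a single variable in `U` -/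
theorem ell_single_in (hE : Exp R U G (2 * r)) {v : V} (hv : v ∈ U) :
    ell R b U G r w (Pi.single v 1) = 0 := by
  by_contra h
  obtain ⟨a, ha⟩ := ell_ne h
  by_cases h0 : a = 0
  · have h1 := ha.2.2 v hv
    rw [h0, Pi.single_eq_same] at h1
    unfold rs at h1
    simp at h1
  · have h1 := (hE a ha.1 (by have := ha.2.1; omega) h0).2
    have h2 : (U.filter fun v => rs R a v ≠ 0) ⊆ {v} := by
      intro u hu
      rw [mem_filter] at hu
      rw [mem_singleton]
      by_contra hne
      apply hu.2
      rw [← ha.2.2 u hu.1, Pi.single_eq_of_ne hne]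
    have h3 := Finset.card_le_card h2
    rw [Finset.card_singleton] at h3
    omega

/-- value on a single variable outside `U` -/
theorem ell_single_out (hE : Exp R U G (2 * r)) {v : V} (hv : v ∉ U) :
    ell R b U G r w (Pi.single v 1) = sg (w v) := by
  have h1 : Der R U G r (Pi.single v 1) 0 := by
    refine ⟨fun _ _ => rfl, ?_, fun u hu => ?_⟩
    · unfold wt
      simp
    · have : u ≠ v := fun h => hv (h ▸ hu)
      rw [Pi.single_eq_of_ne this]
      unfold rs
      simp
  rw [ell_eq hE h1]
  have : rs R (0 : I → ZMod 2) = 0 := by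
    funext v
    unfold rs
    simp
  rw [this, add_zero, zero_dotProduct, zero_add, single_one_dotProduct]

/-- value on a row in `G` -/
theorem ell_row (hE : Exp R U G (2 * r)) (hr : 1 ≤ r) {j : I} (hj : j ∈ G) :
    ell R b U G r w (R j) = sg (b j) := by
  have h0 : rs R (Pi.single j 1) = R j := by
    funext v
    unfold rs
    rw [Finset.sum_eq_single j]
    · rw [Pi.single_eq_same, one_mul]
    · intro i _ hi
      rw [Pi.single_eq_of_ne hi, zero_mul]
    · intro h
      exact absurd (mem_univ _) h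
  have h1 : Der R U G r (R j) (Pi.single j 1) := by
    refine ⟨fun i hi => ?_, ?_, fun v _ => ?_⟩
    · have : i ≠ j := fun h => hi (h ▸ hj)
      rw [Pi.single_eq_of_ne this]
    · refine le_trans ?_ hr
      unfold wt
      rw [Finset.card_le_one]
      intro i hi i' hi'
      rw [mem_filter] at hi hi'
      have h2 : ∀ i, (Pi.single j (1 : ZMod 2) : I → ZMod 2) i ≠ 0 → i = j := by
        intro i h
        by_contra hne
        exact h (Pi.single_eq_of_ne hne _)
      rw [h2 i hi.2, h2 i' hi'.2]
    · rw [h0]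
  rw [ell_eq hE h1, h0, add_self_v, zero_dotProduct, add_zero, single_one_dotProduct]

end system

end Pool.Agent.W888.GX
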