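import Pool.Agent.W888.GX.Greedy

set_option autoImplicit false
set_option linter.unusedSectionVars false

/-!
Random free sets of variables, and pseudo-expectations with prescribed marginals which satisfy all
equations.
-/

namespace Pool.Agent.W888.GX

open Finset Matrix

section

variable {n m k g : ℕ}

/-- value of the functional on characters which vanish on `U` -/
theorem ell_out {V I : Type} [Fintype V] [DecidableEq V] [Fintype I] [DecidableEq I]
    {R : I → V → ZMod 2} {b : I → ZMod 2} {U : Finset V} {G : Finset I} {r : ℕ}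
    {w : V → ZMod 2} (hE : Exp R U G (2 * r)) {y : V → ZMod 2} (hy : ∀ v ∈ U, y v = 0) :
    ell R b U G r w y = sg (y ⬝ᵥ w) := by
  have h0 : rs R (0 : I → ZMod 2) = 0 := by
    funext v
    unfold rs
    simp
  have h1 : Der R U G r y 0 := by
    refine ⟨fun _ _ => rfl, ?_, fun u hu => ?_⟩
    · unfold wt
      simp
    · rw [hy u hu, h0]
      rfl
  rw [ell_eq hE h1, h0, add_zero, zero_dotProduct, zero_add]

/-- the constraints with few variables of colour zero -/
def few (c : Fin m → Fin k → Fin n) (W : Finset (Fin n)) (h : ℕ) (φ : Fin n → Fin (g + 1)) :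
    Finset (Fin m) :=
  univ.filter fun j => h ≤ (vars c j \ W).card ∧ ((vars c j \ W).filter fun v => φ v = 0).card < 6

/-- the free variables -/
def free (c : Fin m → Fin k → Fin n) (W : Finset (Fin n)) (h : ℕ) (φ : Fin n → Fin (g + 1)) :
    Finset (Fin n) :=
  (Wᶜ.filter fun v => φ v = 0) ∪ (few c W h φ).biUnion fun j => vars c j \ W

theorem free_sub (c : Fin m → Fin k → Fin n) (W : Finset (Fin n)) (h : ℕ)
    (φ : Fin n → Fin (g + 1)) {v : Fin n} (hv : v ∈ free c W h φ) : v ∉ W := by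
  rcases mem_union.1 hv with hv | hv
  · exact mem_compl.1 (mem_filter.1 hv).1
  · rw [mem_biUnion] at hv
    obtain ⟨j, -, hv⟩ := hv
    exact (mem_sdiff.1 hv).2

theorem card_le_slots (c : Fin m → Fin k → Fin n) (j : Fin m) (R B : Finset (Fin n))
    (hB : B ⊆ vars c j) (hBR : B ⊆ R) : B.card ≤ slots R (c j) := by
  have h1 : B ⊆ (univ.filter fun s => c j s ∈ R).image (c j) := by
    intro v hv
    have h2 := hB hv
    rw [vars, mem_image] at h2
    obtain ⟨s, -, hs⟩ := h2
    rw [mem_image]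
    exact ⟨s, mem_filter.2 ⟨mem_univ _, by rw [hs]; exact hBR hv⟩, hs⟩
  exact (card_le_card h1).trans card_image_le

theorem free_slots (c : Fin m → Fin k → Fin n) (W : Finset (Fin n)) (h : ℕ) (h6 : 6 ≤ h)
    (hall : ∀ j, vars c j ⊆ W ∨ h ≤ (vars c j \ W).card) (φ : Fin n → Fin (g + 1)) (j : Fin m) :
    vars c j ⊆ W ∨ 6 ≤ slots (free c W h φ) (c j) := by
  rcases hall j with h1 | h1
  · exact Or.inl h1
  · right
    by_cases hj : ((vars c j \ W).filter fun v => φ v = 0).card < 6
    · refine (h6.trans h1).trans (card_le_slots c j _ _ sdiff_subset ?_)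
      intro v hv
      refine mem_union.2 (Or.inr ?_)
      rw [mem_biUnion]
      exact ⟨j, mem_filter.2 ⟨mem_univ _, h1, hj⟩, hv⟩
    · rw [not_lt] at hj
      refine hj.trans (card_le_slots c j _ _ ((filter_subset _ _).trans sdiff_subset) ?_)
      intro v hv
      rw [mem_filter, mem_sdiff] at hv
      exact mem_union.2 (Or.inl (mem_filter.2 ⟨mem_compl.2 hv.1.2, hv.2⟩))

theorem row_inside (c : Fin m → Fin k → Fin n) (W : Finset (Fin n)) (h : ℕ)
    (φ : Fin n → Fin (g + 1)) (j : Fin m) (hj : vars c j ⊆ W) (v : Fin n)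
    (hv : v ∈ free c W h φ) : row c j v = 0 := by
  unfold row
  refine Finset.sum_eq_zero fun s _ => if_neg fun h1 => free_sub c W h φ hv (hj ?_)
  rw [vars, mem_image]
  exact ⟨s, mem_univ _, h1⟩

/-- the weight of a colouring -/
noncomputable def P (n g : ℕ) : ℝ := (1 / ((g : ℝ) + 1)) ^ n

theorem P_nonneg : 0 ≤ P n g := by
  unfold P
  positivity

theorem P_sum : ∑ _φ : Fin n → Fin (g + 1), P n g = 1 := by
  unfold P
  rw [Finset.sum_const, card_univ, Fintype.card_fun, Fintype.card_fin, Fintype.card_fin,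
    nsmul_eq_mul]
  push_cast
  rw [← mul_pow, mul_one_div_cancel (by positivity), one_pow]

theorem P_half (B : Finset (Fin n)) :
    ∑ φ : Fin n → Fin (g + 1), P n g * (1 / 2) ^ (B.filter fun v => φ v = 0).card =
      (1 - 1 / (2 * ((g : ℝ) + 1))) ^ B.card := by
  have h1 : ∀ φ : Fin n → Fin (g + 1), P n g * (1 / 2) ^ (B.filter fun v => φ v = 0).card =
      ∏ v, ((1 / ((g : ℝ) + 1)) * if v ∈ B then (if φ v = 0 then 1 / 2 else 1) else 1) := by
    intro φ
    rw [Finset.prod_mul_distrib, Finset.prod_const, card_univ, Fintype.card_fin]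
    congr 1
    rw [Finset.prod_ite_mem, Finset.univ_inter, Finset.prod_ite, Finset.prod_const,
      Finset.prod_const_one, mul_one]
  simp only [h1]
  have h2 := Finset.prod_univ_sum (fun _ : Fin n => (Finset.univ : Finset (Fin (g + 1))))
    (fun v a => (1 / ((g : ℝ) + 1)) * if v ∈ B then (if a = 0 then (1 : ℝ) / 2 else 1) else 1)
  rw [Fintype.piFinset_univ] at h2
  rw [← h2]
  have hg : (0 : ℝ) < (g : ℝ) + 1 := by positivity
  have h3 : ∀ v : Fin n, ∑ a : Fin (g + 1), (1 / ((g : ℝ) + 1)) *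
      (if v ∈ B then (if a = 0 then (1 : ℝ) / 2 else 1) else 1) =
      if v ∈ B then 1 - 1 / (2 * ((g : ℝ) + 1)) else 1 := by
    intro v
    rw [← Finset.mul_sum]
    by_cases hv : v ∈ B
    · simp only [if_pos hv]
      have h4 : ∑ a : Fin (g + 1), (if a = 0 then (1 : ℝ) / 2 else 1) = (g + 1) - 1 / 2 := by
        rw [Fin.sum_univ_succ, if_pos rfl]
        have : ∀ i : Fin g, (if i.succ = 0 then (1 : ℝ) / 2 else 1) = 1 := fun i =>
          if_neg (Fin.succ_ne_zero i)
        simp only [this]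
        rw [Finset.sum_const, card_univ, Fintype.card_fin, nsmul_eq_mul]
        ring
      rw [h4]
      field_simp
    · simp only [if_neg hv]
      rw [Finset.sum_const, card_univ, Fintype.card_fin, nsmul_eq_mul]
      push_cast
      field_simp
  simp only [h3]
  rw [Finset.prod_ite_mem, Finset.univ_inter, Finset.prod_const]

theorem P_few (B : Finset (Fin n)) :
    ∑ φ : Fin n → Fin (g + 1), P n g * (if (B.filter fun v => φ v = 0).card < 6 then 1 else 0) ≤
      2 ^ 6 * (1 - 1 / (2 * ((g : ℝ) + 1))) ^ B.card := by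
  rw [← P_half, Finset.mul_sum]
  refine Finset.sum_le_sum fun φ _ => ?_
  split_ifs with h
  · have h1 : ((1 : ℝ) / 2) ^ 6 ≤ (1 / 2) ^ (B.filter fun v => φ v = 0).card :=
      pow_le_pow_of_le_one (by norm_num) (by norm_num) h.le
    have h2 : (0 : ℝ) ≤ P n g := P_nonneg
    have h3 : (1 : ℝ) ≤ 2 ^ 6 * (1 / 2) ^ (B.filter fun v => φ v = 0).card := by
      calc (1 : ℝ) = 2 ^ 6 * (1 / 2) ^ 6 := by norm_num
        _ ≤ _ := mul_le_mul_of_nonneg_left h1 (by norm_num)
    calc P n g * 1 ≤ P n g * (2 ^ 6 * (1 / 2) ^ (B.filter fun v => φ v = 0).card) :=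
          mul_le_mul_of_nonneg_left h3 h2
      _ = _ := by ring
  · rw [mul_zero]
    have h2 : (0 : ℝ) ≤ P n g := P_nonneg
    positivity

theorem P_colour (v : Fin n) :
    ∑ φ : Fin n → Fin (g + 1), P n g * (if φ v = 0 then 1 else 0) = 1 / ((g : ℝ) + 1) := by
  have h1 := Pool.Agent.W888.UG.prod_marg' (W := Fin n) (A := Fin (g + 1))
    (fun _ _ => 1 / ((g : ℝ) + 1)) (fun _ => by
      rw [Finset.sum_const, card_univ, Fintype.card_fin, nsmul_eq_mul]
      push_cast
      rw [mul_one_div_cancel (by positivity)]) v 0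
  rw [← h1]
  refine Finset.sum_congr rfl fun φ _ => ?_
  rw [Finset.prod_const, card_univ, Fintype.card_fin]
  rfl

/-- the probability that a variable is free -/
noncomputable def fr (c : Fin m → Fin k → Fin n) (W : Finset (Fin n)) (h g : ℕ) (v : Fin n) : ℝ :=
  ∑ φ : Fin n → Fin (g + 1), P n g * (if v ∈ free c W h φ then 1 else 0)

theorem fr_nonneg (c : Fin m → Fin k → Fin n) (W : Finset (Fin n)) (h g : ℕ) (v : Fin n) :
    0 ≤ fr c W h g v := by
  unfold fr
  refine Finset.sum_nonneg fun φ _ => mul_nonneg P_nonneg ?_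
  split_ifs <;> norm_num

theorem fr_W (c : Fin m → Fin k → Fin n) (W : Finset (Fin n)) (h g : ℕ) {v : Fin n}
    (hv : v ∈ W) : fr c W h g v = 0 := by
  unfold fr
  refine Finset.sum_eq_zero fun φ _ => ?_
  rw [if_neg fun h1 => free_sub c W h φ h1 hv, mul_zero]

theorem fr_le (c : Fin m → Fin k → Fin n) (W : Finset (Fin n)) (h g : ℕ) (v : Fin n) (Δ : ℕ)
    (hΔ : (univ.filter fun j => v ∈ vars c j).card ≤ Δ) :
    fr c W h g v ≤ 1 / ((g : ℝ) + 1) + Δ * (2 ^ 6 * (1 - 1 / (2 * ((g : ℝ) + 1))) ^ h) := by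
  classical
  obtain ⟨ρ, hρ⟩ : ∃ ρ : ℝ, ρ = 1 - 1 / (2 * ((g : ℝ) + 1)) := ⟨_, rfl⟩
  have hg : (1 : ℝ) ≤ (g : ℝ) + 1 := by
    have : (0 : ℝ) ≤ g := Nat.cast_nonneg g
    linarith
  have hρ0 : 0 ≤ ρ := by
    rw [hρ]
    have : 1 / (2 * ((g : ℝ) + 1)) ≤ 1 := by
      rw [div_le_one (by positivity)]
      linarith
    linarith
  have hρ1 : ρ ≤ 1 := by
    rw [hρ]
    have : 0 ≤ 1 / (2 * ((g : ℝ) + 1)) := by positivity
    linarith
  have h1 : ∀ φ : Fin n → Fin (g + 1), (if v ∈ free c W h φ then (1 : ℝ) else 0) ≤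
      (if φ v = 0 then 1 else 0) + ∑ j ∈ univ.filter fun j => v ∈ vars c j,
        if h ≤ (vars c j \ W).card ∧ ((vars c j \ W).filter fun v => φ v = 0).card < 6
          then (1 : ℝ) else 0 := by
    intro φ
    have hnn : (0 : ℝ) ≤ ∑ j ∈ univ.filter fun j => v ∈ vars c j,
        if h ≤ (vars c j \ W).card ∧ ((vars c j \ W).filter fun v => φ v = 0).card < 6
          then (1 : ℝ) else 0 := Finset.sum_nonneg fun j _ => by split_ifs <;> norm_num
    by_cases hv : v ∈ free c W h φ
    · rw [if_pos hv]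
      rcases mem_union.1 hv with hv | hv
      · rw [if_pos (mem_filter.1 hv).2]
        linarith
      · rw [mem_biUnion] at hv
        obtain ⟨j, hj, hv⟩ := hv
        rw [few, mem_filter] at hj
        have h2 : (1 : ℝ) ≤ ∑ j ∈ univ.filter fun j => v ∈ vars c j,
            if h ≤ (vars c j \ W).card ∧ ((vars c j \ W).filter fun v => φ v = 0).card < 6
              then (1 : ℝ) else 0 := by
          have h3 := Finset.single_le_sum (s := univ.filter fun j => v ∈ vars c j)
            (f := fun j => if h ≤ (vars c j \ W).card ∧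
              ((vars c j \ W).filter fun v => φ v = 0).card < 6 then (1 : ℝ) else 0)
            (fun i _ => by split_ifs <;> norm_num)
            (mem_filter.2 ⟨mem_univ j, (mem_sdiff.1 hv).1⟩)
          beta_reduce at h3
          rwa [if_pos hj.2] at h3
        have h4 : (0 : ℝ) ≤ if φ v = 0 then (1 : ℝ) else 0 := by split_ifs <;> norm_num
        linarith
    · rw [if_neg hv]
      have h4 : (0 : ℝ) ≤ if φ v = 0 then (1 : ℝ) else 0 := by split_ifs <;> norm_num
      linarith
  unfold fr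
  refine (Finset.sum_le_sum fun φ _ => mul_le_mul_of_nonneg_left (h1 φ) P_nonneg).trans ?_
  rw [← hρ]
  have h5 : ∀ φ : Fin n → Fin (g + 1), P n g * ((if φ v = 0 then 1 else 0) +
      ∑ j ∈ univ.filter fun j => v ∈ vars c j,
        if h ≤ (vars c j \ W).card ∧ ((vars c j \ W).filter fun v => φ v = 0).card < 6
          then (1 : ℝ) else 0) = P n g * (if φ v = 0 then 1 else 0) +
      ∑ j ∈ univ.filter fun j => v ∈ vars c j, P n g *
        if h ≤ (vars c j \ W).card ∧ ((vars c j \ W).filter fun v => φ v = 0).card < 6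
          then (1 : ℝ) else 0 := by
    intro φ
    rw [mul_add, Finset.mul_sum]
  rw [Finset.sum_congr rfl fun φ _ => h5 φ, Finset.sum_add_distrib, P_colour, Finset.sum_comm]
  refine add_le_add le_rfl ?_
  have h2 : ∀ j ∈ univ.filter fun j => v ∈ vars c j, ∑ φ : Fin n → Fin (g + 1), P n g *
      (if h ≤ (vars c j \ W).card ∧ ((vars c j \ W).filter fun v => φ v = 0).card < 6
        then (1 : ℝ) else 0) ≤ 2 ^ 6 * ρ ^ h := by
    intro j _
    by_cases hj : h ≤ (vars c j \ W).card
    · simp only [hj, true_and]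
      refine (P_few (g := g) (vars c j \ W)).trans ?_
      rw [← hρ]
      exact mul_le_mul_of_nonneg_left (pow_le_pow_of_le_one hρ0 hρ1 hj) (by norm_num)
    · simp only [hj, false_and, if_false, mul_zero]
      rw [Finset.sum_const_zero]
      positivity
  refine (Finset.sum_le_sum h2).trans ?_
  rw [Finset.sum_const, nsmul_eq_mul]
  refine mul_le_mul_of_nonneg_right ?_ (by positivity)
  exact_mod_cast hΔ

/-- A pseudo-expectation with prescribed marginals which satisfies all equations. -/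
theorem exact_pe {r0 D : ℕ} (hk : 2 ≤ k) (hr0 : 1 ≤ r0) (hD : 8 * D ≤ r0)
    (c : Fin m → Fin k → Fin n) (b : Fin m → ZMod 2)
    (hc : ∀ J : Finset (Fin m), 1 ≤ J.card → J.card ≤ 2 * r0 → (k - 2) * J.card ≤ (img c J).card)
    (W : Finset (Fin n)) (h : ℕ) (h6 : 6 ≤ h)
    (hall : ∀ j, vars c j ⊆ W ∨ h ≤ (vars c j \ W).card) (g : ℕ) (β : Fin n → ZMod 2)
    (p : Fin n → ZMod 2 → ℝ) (hp1 : ∀ v, ∑ a, p v a = 1)
    (hpW : ∀ v ∈ W, ∀ a, p v a = if β v = a then 1 else 0)
    (hpU : ∀ v ∉ W, ∀ a, fr c W h g v / 2 ≤ p v a) (hf1 : ∀ v, fr c W h g v < 1)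
    (hb : ∀ j, vars c j ⊆ W → ∑ s, β (c j s) = b j) :
    ∃ L : ((Fin n → ZMod 2) → ℝ) →ₗ[ℝ] ℝ, IsPseudoExpectation D L ∧
      (∀ v a, p v a = L (fun x => if x v = a then 1 else 0)) ∧ L (viol c b) = 0 := by
  classical
  obtain ⟨t, ht⟩ : ∃ t : Fin n → ZMod 2 → ℝ,
      t = fun v a => (p v a - fr c W h g v / 2) / (1 - fr c W h g v) := ⟨_, rfl⟩
  have ht0 : ∀ v a, 0 ≤ t v a := by
    intro v a
    rw [ht]
    refine div_nonneg ?_ (by linarith [hf1 v])
    by_cases hv : v ∈ W
    · rw [fr_W c W h g hv, hpW v hv]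
      split_ifs <;> norm_num
    · linarith [hpU v hv a]
  have ht1 : ∀ v, ∑ a, t v a = 1 := by
    intro v
    rw [ht]
    beta_reduce
    rw [← Finset.sum_div, Finset.sum_sub_distrib, hp1, Finset.sum_const, card_univ, ZMod.card,
      nsmul_eq_mul, div_eq_one_iff_eq (by linarith [hf1 v])]
    push_cast
    ring
  have htW : ∀ v ∈ W, ∀ a, t v a = if β v = a then 1 else 0 := by
    intro v hv a
    rw [ht]
    beta_reduce
    rw [fr_W c W h g hv, hpW v hv]
    simp
  obtain ⟨ν, hν⟩ : ∃ ν : (Fin n → ZMod 2) → ℝ, ν = fun w => ∏ v, t v (w v) := ⟨_, rfl⟩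
  have hν0 : ∀ w, 0 ≤ ν w := by
    intro w
    rw [hν]
    exact Finset.prod_nonneg fun v _ => ht0 v _
  have hν1 : ∑ w, ν w = 1 := by
    rw [hν]
    exact Pool.Agent.W888.UG.prod_marg t ht1
  have hνm : ∀ v a, ∑ w, ν w * (if w v = a then 1 else 0) = t v a := by
    intro v a
    rw [hν]
    exact Pool.Agent.W888.UG.prod_marg' t ht1 v a
  have hνW : ∀ w, ν w ≠ 0 → ∀ v ∈ W, w v = β v := by
    intro w hw v hv
    rw [hν] at hw
    beta_reduce at hw
    rw [Finset.prod_ne_zero_iff] at hw
    have h1 := hw v (mem_univ v)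
    rw [htW v hv] at h1
    by_contra hne
    exact h1 (if_neg (Ne.symm hne))
  obtain ⟨G, hG⟩ : ∃ G : (Fin n → Fin (g + 1)) → Finset (Fin m),
      G = fun φ => univ.filter fun j => 6 ≤ slots (free c W h φ) (c j) := ⟨_, rfl⟩
  have hE : ∀ φ : Fin n → Fin (g + 1), Exp (row c) (free c W h φ) (G φ) (2 * r0) := by
    intro φ
    rw [hG]
    exact exp_of hk c hc _
  obtain ⟨l, hl⟩ : ∃ l : (Fin n → Fin (g + 1)) → (Fin n → ZMod 2) → (Fin n → ZMod 2) → ℝ,
      l = fun φ w => ell (row c) b (free c W h φ) (G φ) r0 w := ⟨_, rfl⟩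
  have hpe : ∀ φ w, IsPseudoExpectation D (Lf (l φ w)) := by
    intro φ w
    rw [hl]
    exact pe (hE φ) D hD
  have hl0 : ∀ φ w, l φ w 0 = 1 := by
    intro φ w
    rw [← Lf_chi (l φ w) 0]
    have h1 := (hpe φ w).1
    have h2 : (fun _ : Fin n → ZMod 2 => (1 : ℝ)) = chi 0 := by
      funext y
      rw [chi_zero]
    rw [h2] at h1
    exact h1
  obtain ⟨L, hL⟩ : ∃ L : ((Fin n → ZMod 2) → ℝ) →ₗ[ℝ] ℝ,
      ∀ f, L f = ∑ φ : Fin n → Fin (g + 1), ∑ w, P n g * (ν w * Lf (l φ w) f) := by
    refine ⟨∑ φ : Fin n → Fin (g + 1), ∑ w, (P n g * ν w) • Lf (l φ w), fun f => ?_⟩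
    rw [LinearMap.sum_apply]
    refine Finset.sum_congr rfl fun φ _ => ?_
    rw [LinearMap.sum_apply]
    refine Finset.sum_congr rfl fun w _ => ?_
    rw [LinearMap.smul_apply, smul_eq_mul]
    ring
  refine ⟨L, ⟨?_, ?_⟩, ?_, ?_⟩
  · rw [hL]
    have h1 : ∀ φ : Fin n → Fin (g + 1),
        ∑ w, P n g * (ν w * Lf (l φ w) (fun _ => 1)) = P n g := by
      intro φ
      rw [← Finset.mul_sum]
      simp only [(hpe φ _).1, mul_one]
      rw [hν1, mul_one]
    simp only [h1]
    exact P_sum
  · intro f hf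
    rw [hL]
    exact Finset.sum_nonneg fun φ _ => Finset.sum_nonneg fun w _ =>
      mul_nonneg P_nonneg (mul_nonneg (hν0 w) ((hpe φ w).2 f hf))
  · intro v a
    rw [hL]
    have h1 : ∀ φ : Fin n → Fin (g + 1),
        ∑ w, P n g * (ν w * Lf (l φ w) (fun x => if x v = a then 1 else 0)) =
        (P n g * (if v ∈ free c W h φ then 1 else 0)) * (1 / 2 - t v a) + P n g * t v a := by
      intro φ
      rw [← Finset.mul_sum]
      by_cases hv : v ∈ free c W h φ
      · have h2 : ∀ w, Lf (l φ w) (fun x => if x v = a then (1 : ℝ) else 0) = 1 / 2 := by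
          intro w
          rw [Lf_ind _ (hl0 φ w)]
          have h3 : l φ w (Pi.single v 1) = 0 := by
            rw [hl]
            exact ell_single_in (hE φ) hv
          rw [h3, mul_zero, add_zero]
        simp only [h2]
        rw [← Finset.sum_mul, hν1, if_pos hv]
        ring
      · have h2 : ∀ w, Lf (l φ w) (fun x => if x v = a then (1 : ℝ) else 0) =
            if w v = a then 1 else 0 := by
          intro w
          rw [Lf_ind _ (hl0 φ w)]
          have h3 : l φ w (Pi.single v 1) = sg (w v) := by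
            rw [hl]
            exact ell_single_out (hE φ) hv
          rw [h3]
          rcases z2 (w v) with h4 | h4 <;> rcases z2 a with rfl | rfl
          · rw [h4, if_pos rfl, sg_zero]; norm_num
          · rw [h4, if_neg (by decide), sg_zero, sg_one]; norm_num
          · rw [h4, if_neg (by decide), sg_zero, sg_one]; norm_num
          · rw [h4, if_pos rfl, sg_one]; norm_num
        simp only [h2]
        rw [hνm, if_neg hv]
        ring
    simp only [h1]
    rw [Finset.sum_add_distrib, ← Finset.sum_mul, ← Finset.sum_mul, P_sum]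
    have h2 : ∑ φ : Fin n → Fin (g + 1), P n g * (if v ∈ free c W h φ then (1 : ℝ) else 0) =
        fr c W h g v := rfl
    rw [h2]
    have h3 : (1 - fr c W h g v) ≠ 0 := by
      have := hf1 v
      linarith
    have h4 : t v a = (p v a - fr c W h g v / 2) / (1 - fr c W h g v) := by rw [ht]
    rw [h4]
    field_simp
    ring
  · rw [hL]
    refine Finset.sum_eq_zero fun φ _ => Finset.sum_eq_zero fun w _ => ?_
    by_cases hw : ν w = 0
    · rw [hw]; ring
    · have h1 : Lf (l φ w) (viol c b) = 0 := by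
        rw [Lf_viol _ (hl0 φ w)]
        refine Finset.sum_eq_zero fun j _ => ?_
        have h2 : l φ w (row c j) = sg (b j) := by
          rw [hl]
          rcases free_slots c W h h6 hall φ j with h3 | h3
          · have h4 := ell_out (b := b) (w := w) (hE φ) (y := row c j)
              (fun v hv => row_inside c W h φ j h3 v hv)
            beta_reduce
            rw [h4, row_dot, ← hb j h3]
            congr 1
            refine Finset.sum_congr rfl fun s _ => ?_
            refine hνW w hw _ (h3 ?_)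
            rw [vars, mem_image]
            exact ⟨s, mem_univ _, rfl⟩
          · refine ell_row (hE φ) hr0 ?_
            rw [hG, mem_filter]
            exact ⟨mem_univ _, h3⟩
        have h3 := sg_sq (b j)
        rw [h2, ← sq, h3]
        norm_num
      rw [h1]
      ring

end

end Pool.Agent.W888.GX
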