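import Pool.Agent.W888.GX.Cnf

set_option autoImplicit false
set_option linter.unusedSectionVars false

/-!
A large set of assignments contains a set which is constant on some variables `W`, has marginals
bounded away from zero and one on the others, and such that every constraint has either all its
variables in `W` or many outside.
-/

namespace Pool.Agent.W888.GX

open Finset Matrix

section

variable {n m k : ℕ}

/-- the variables of a constraint -/
def vars (c : Fin m → Fin k → Fin n) (j : Fin m) : Finset (Fin n) := univ.image (c j)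

/-- the constraints with all variables in `W` -/
def inside (c : Fin m → Fin k → Fin n) (W : Finset (Fin n)) : Finset (Fin m) :=
  univ.filter fun j => vars c j ⊆ W

theorem inside_mono (c : Fin m → Fin k → Fin n) {W W' : Finset (Fin n)} (h : W ⊆ W') :
    inside c W ⊆ inside c W' := by
  intro j hj
  rw [inside, mem_filter] at hj ⊢
  exact ⟨hj.1, hj.2.trans h⟩

/-- constant on `W` -/
def ConstOn (S : Finset (Fin n → ZMod 2)) (W : Finset (Fin n)) : Prop :=
  ∀ x ∈ S, ∀ y ∈ S, ∀ v ∈ W, x v = y v

theorem pigeon (S : Finset (Fin n → ZMod 2)) (hS : S.Nonempty) (X : Finset (Fin n)) :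
    ∃ S' ⊆ S, S'.Nonempty ∧ ConstOn S' X ∧ (S.card : ℝ) ≤ 2 ^ X.card * S'.card := by
  classical
  have hpos : (0 : ℝ) < S.card := by exact_mod_cast hS.card_pos
  obtain ⟨y, -, hy⟩ := Finset.exists_le_card_fiber_of_nsmul_le_card_of_maps_to
    (s := S) (t := X.powerset) (f := fun x : Fin n → ZMod 2 => X.filter fun v => x v = 1)
    (b := (S.card : ℝ) / 2 ^ X.card) (fun x _ => mem_powerset.2 (filter_subset _ _))
    ⟨∅, empty_mem_powerset _⟩ (by
      rw [card_powerset, nsmul_eq_mul]
      push_cast
      rw [mul_div_cancel₀]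
      positivity)
  refine ⟨S.filter fun x => (X.filter fun v => x v = 1) = y, filter_subset _ _, ?_, ?_, ?_⟩
  · apply Finset.card_pos.1
    have : (0 : ℝ) < ((S.filter fun x => (X.filter fun v => x v = 1) = y).card : ℝ) :=
      lt_of_lt_of_le (by positivity) hy
    exact_mod_cast this
  · intro x hx x' hx' v hv
    rw [mem_filter] at hx hx'
    have h1 : v ∈ (X.filter fun v => x v = 1) ↔ v ∈ (X.filter fun v => x' v = 1) := by
      rw [hx.2, hx'.2]
    rw [mem_filter, mem_filter] at h1
    rcases z2 (x v) with h2 | h2 <;> rcases z2 (x' v) with h3 | h3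
    · rw [h2, h3]
    · rw [h2, h3] at h1; exact absurd (h1.2 ⟨hv, rfl⟩).2 (by decide)
    · rw [h2, h3] at h1; exact absurd (h1.1 ⟨hv, rfl⟩).2 (by decide)
    · rw [h2, h3]
  · rw [div_le_iff₀ (by positivity)] at hy
    linarith

theorem card_const (S : Finset (Fin n → ZMod 2)) (W : Finset (Fin n)) (h : ConstOn S W) :
    S.card ≤ 2 ^ Wᶜ.card := by
  classical
  rw [← card_powerset]
  refine Finset.card_le_card_of_injOn (fun x => Wᶜ.filter fun v => x v = 1)
    (fun x _ => mem_coe.2 (mem_powerset.2 (filter_subset _ _))) ?_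
  intro x hx y hy hxy
  rw [mem_coe] at hx hy
  funext v
  by_cases hv : v ∈ W
  · exact h x hx y hy v hv
  · have h1 : v ∈ (Wᶜ.filter fun v => x v = 1) ↔ v ∈ (Wᶜ.filter fun v => y v = 1) := by
      have : (Wᶜ.filter fun v => x v = 1) = (Wᶜ.filter fun v => y v = 1) := hxy
      rw [this]
    have hv' : v ∈ Wᶜ := mem_compl.2 hv
    rw [mem_filter, mem_filter] at h1
    rcases z2 (x v) with h2 | h2 <;> rcases z2 (y v) with h3 | h3
    · rw [h2, h3]
    · rw [h2, h3] at h1; exact absurd (h1.2 ⟨hv', rfl⟩).2 (by decide)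
    · rw [h2, h3] at h1; exact absurd (h1.1 ⟨hv', rfl⟩).2 (by decide)
    · rw [h2, h3]

open Classical in
/-- The structure lemma. -/
theorem greedy (c : Fin m → Fin k → Fin n) (η κ : ℝ) (hη0 : 0 < η) (hη1 : η < 1)
    (h cap : ℕ) (H : Finset (Fin n)) (S : Finset (Fin n → ZMod 2)) (hS : S.Nonempty)
    (hcap : ∀ W : Finset (Fin n), κ * n ≤ Wᶜ.card → (inside c W).card < cap)
    (hsize : H.card * Real.log 2 + -Real.log (1 - η) * n + h * Real.log 2 * cap +
      κ * n * Real.log 2 ≤ Real.log S.card) :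
    ∃ W : Finset (Fin n), H ⊆ W ∧ ∃ S' ⊆ S, S'.Nonempty ∧ ConstOn S' W ∧ κ * n ≤ Wᶜ.card ∧
      (∀ v ∉ W, ∀ a, ((S'.filter fun x => x v = a).card : ℝ) ≤ (1 - η) * S'.card) ∧
      ∀ j, vars c j ⊆ W ∨ h ≤ (vars c j \ W).card := by
  have hl2 : 0 < Real.log 2 := Real.log_pos (by norm_num)
  have hc1 : 0 < -Real.log (1 - η) := by
    have := Real.log_neg (show 0 < 1 - η by linarith) (by linarith)
    linarith
  obtain ⟨c1, hc1d⟩ : ∃ c1 : ℝ, c1 = -Real.log (1 - η) := ⟨_, rfl⟩
  rw [← hc1d] at hc1 hsize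
  obtain ⟨Ψ, hΨ⟩ : ∃ Ψ : Finset (Fin n) × Finset (Fin n → ZMod 2) → ℝ, Ψ = fun p =>
      Real.log p.2.card + c1 * p.1.card + h * Real.log 2 * (min (inside c p.1).card cap : ℕ) :=
    ⟨_, rfl⟩
  obtain ⟨S0, hS0, hS0ne, hS0c, hS0card⟩ := pigeon S hS H
  obtain ⟨⟨W, S'⟩, hmem, hmax⟩ := Finset.exists_max_image
    ((univ : Finset (Finset (Fin n) × Finset (Fin n → ZMod 2))).filter fun p =>
      H ⊆ p.1 ∧ p.2 ⊆ S ∧ p.2.Nonempty ∧ ConstOn p.2 p.1) Ψ
    ⟨(H, S0), mem_filter.2 ⟨mem_univ _, subset_rfl, hS0, hS0ne, hS0c⟩⟩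
  rw [mem_filter] at hmem
  obtain ⟨-, hHW, hS'S, hS'ne, hS'c⟩ := hmem
  have hmax' : ∀ W'' S'', H ⊆ W'' → S'' ⊆ S → S''.Nonempty → ConstOn S'' W'' →
      Ψ (W'', S'') ≤ Ψ (W, S') := fun W'' S'' h1 h2 h3 h4 =>
    hmax (W'', S'') (mem_filter.2 ⟨mem_univ _, h1, h2, h3, h4⟩)
  beta_reduce at hHW hS'S hS'ne hS'c
  have hS'pos : (0 : ℝ) < S'.card := by exact_mod_cast hS'ne.card_pos
  have hS0pos : (0 : ℝ) < S0.card := by exact_mod_cast hS0ne.card_pos
  have hSpos : (0 : ℝ) < S.card := by exact_mod_cast hS.card_pos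
  -- the size of `S'`
  have hlog0 : Real.log S.card ≤ H.card * Real.log 2 + Real.log S0.card := by
    have h1 := Real.log_le_log hSpos hS0card
    rwa [Real.log_mul (by positivity) hS0pos.ne', Real.log_pow] at h1
  have hbase := hmax' H S0 subset_rfl hS0 hS0ne hS0c
  have hWn : (W.card : ℝ) ≤ n := by
    have := card_le_univ W
    rw [Fintype.card_fin] at this
    exact_mod_cast this
  have hlogS' : κ * n * Real.log 2 ≤ Real.log S'.card := by
    rw [hΨ] at hbase
    beta_reduce at hbase
    have h1 : (0 : ℝ) ≤ c1 * H.card := by positivity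
    have h2 : (0 : ℝ) ≤ h * Real.log 2 * ((min (inside c H).card cap : ℕ) : ℝ) := by positivity
    have h3 : h * Real.log 2 * ((min (inside c W).card cap : ℕ) : ℝ) ≤ h * Real.log 2 * cap := by
      refine mul_le_mul_of_nonneg_left ?_ (by positivity)
      exact_mod_cast min_le_right _ _
    have h4 : c1 * (W.card : ℝ) ≤ c1 * n := mul_le_mul_of_nonneg_left hWn hc1.le
    linarith
  have hWc : κ * n ≤ Wᶜ.card := by
    have h1 := card_const S' W hS'c
    have h2 : (S'.card : ℝ) ≤ 2 ^ Wᶜ.card := by exact_mod_cast h1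
    have h3 := Real.log_le_log hS'pos h2
    rw [Real.log_pow] at h3
    exact le_of_mul_le_mul_right (hlogS'.trans h3) hl2
  have hcapW := hcap W hWc
  refine ⟨W, hHW, S', hS'S, hS'ne, hS'c, hWc, ?_, ?_⟩
  · intro v hv a
    by_contra hcon
    push Not at hcon
    obtain ⟨S'', hS''⟩ : ∃ S'', S'' = S'.filter fun x => x v = a := ⟨_, rfl⟩
    rw [← hS''] at hcon
    have hpos : (0 : ℝ) < S''.card := lt_of_le_of_lt (by
      apply mul_nonneg (by linarith) hS'pos.le) hcon
    have h1 := hmax' (insert v W) S'' (hHW.trans (subset_insert _ _))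
      (by rw [hS'']; exact (filter_subset _ _).trans hS'S)
      (Finset.card_pos.1 (by exact_mod_cast hpos)) (by
        intro x hx y hy u hu
        rw [hS'', mem_filter] at hx hy
        rcases mem_insert.1 hu with rfl | hu
        · rw [hx.2, hy.2]
        · exact hS'c x hx.1 y hy.1 u hu)
    rw [hΨ] at h1
    beta_reduce at h1
    have h2 : Real.log ((1 - η) * S'.card) < Real.log S''.card :=
      Real.log_lt_log (mul_pos (by linarith) hS'pos) hcon
    rw [Real.log_mul (by linarith) hS'pos.ne'] at h2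
    have h3 : h * Real.log 2 * ((min (inside c W).card cap : ℕ) : ℝ) ≤
        h * Real.log 2 * ((min (inside c (insert v W)).card cap : ℕ) : ℝ) := by
      refine mul_le_mul_of_nonneg_left ?_ (by positivity)
      exact_mod_cast min_le_min_right _ (card_le_card (inside_mono c (subset_insert _ _)))
    rw [card_insert_of_notMem hv, Nat.cast_add, Nat.cast_one] at h1
    linarith
  · intro j
    by_contra hcon
    push Not at hcon
    obtain ⟨hj, hjh⟩ := hcon
    obtain ⟨S'', hS''S', hS''ne, hS''c, hS''card⟩ := pigeon S' hS'ne (vars c j \ W)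
    have h1 := hmax' (W ∪ vars c j) S'' (hHW.trans subset_union_left) (hS''S'.trans hS'S)
      hS''ne (by
        intro x hx y hy u hu
        by_cases huW : u ∈ W
        · exact hS'c x (hS''S' hx) y (hS''S' hy) u huW
        · refine hS''c x hx y hy u (mem_sdiff.2 ⟨?_, huW⟩)
          exact (mem_union.1 hu).resolve_left huW)
    have hS''pos : (0 : ℝ) < S''.card := by exact_mod_cast hS''ne.card_pos
    rw [hΨ] at h1
    beta_reduce at h1
    have h2 : Real.log S'.card ≤ (vars c j \ W).card * Real.log 2 + Real.log S''.card := by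
      have h3 := Real.log_le_log hS'pos hS''card
      rwa [Real.log_mul (by positivity) hS''pos.ne', Real.log_pow] at h3
    have h4 : (inside c W).card + 1 ≤ (inside c (W ∪ vars c j)).card := by
      have h5 : j ∉ inside c W := by
        rw [inside, mem_filter, not_and]
        intro _
        exact hj
      rw [← card_insert_of_notMem h5]
      refine card_le_card fun i hi => ?_
      rcases mem_insert.1 hi with rfl | hi
      · rw [inside, mem_filter]
        exact ⟨mem_univ _, subset_union_right⟩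
      · exact inside_mono c subset_union_left hi
    have h6 : ((min (inside c W).card cap : ℕ) : ℝ) + 1 ≤
        ((min (inside c (W ∪ vars c j)).card cap : ℕ) : ℝ) := by
      have : min (inside c W).card cap + 1 ≤ min (inside c (W ∪ vars c j)).card cap := by
        rw [min_eq_left hcapW.le]
        exact le_min h4 hcapW
      exact_mod_cast this
    have h7 : (h : ℝ) * Real.log 2 * ((min (inside c W).card cap : ℕ) : ℝ) + h * Real.log 2 ≤
        h * Real.log 2 * ((min (inside c (W ∪ vars c j)).card cap : ℕ) : ℝ) := by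
      have := mul_le_mul_of_nonneg_left h6 (show (0 : ℝ) ≤ h * Real.log 2 by positivity)
      linarith
    have h8 : c1 * (W.card : ℝ) ≤ c1 * ((W ∪ vars c j).card : ℝ) := by
      refine mul_le_mul_of_nonneg_left ?_ hc1.le
      exact_mod_cast card_le_card subset_union_left
    have h9 : ((vars c j \ W).card : ℝ) * Real.log 2 < h * Real.log 2 := by
      refine mul_lt_mul_of_pos_right ?_ hl2
      exact_mod_cast hjh
    linarith

end

end Pool.Agent.W888.GX
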