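import Mathlib

set_option autoImplicit false
set_option linter.unusedSectionVars false

/-!
Sparse hypergraphs which expand and which meet every large set of variables almost everywhere.
-/

namespace Pool.Agent.W888.GX

open Finset

/-- number of slots whose variable lies in `U` -/
def slots {n k : ℕ} (U : Finset (Fin n)) (f : Fin k → Fin n) : ℕ :=
  (univ.filter fun s => f s ∈ U).card

/-- the variables of the constraints in `J` -/
def img {n m k : ℕ} (c : Fin m → Fin k → Fin n) (J : Finset (Fin m)) : Finset (Fin n) :=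
  J.biUnion fun j => univ.image (c j)

theorem card_inside {n m k : ℕ} (J : Finset (Fin m)) (Z : Finset (Fin n)) :
    ((univ.filter fun c : Fin m → Fin k → Fin n => ∀ j ∈ J, ∀ s, c j s ∈ Z).card : ℝ) *
      (n : ℝ) ^ (k * J.card) = (Z.card : ℝ) ^ (k * J.card) * (n : ℝ) ^ (k * m) := by
  classical
  have h1 : (univ.filter fun c : Fin m → Fin k → Fin n => ∀ j ∈ J, ∀ s, c j s ∈ Z) =
      Fintype.piFinset fun j => Fintype.piFinset fun _ : Fin k => if j ∈ J then Z else univ := by
    ext c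
    simp only [mem_filter, mem_univ, true_and, Fintype.mem_piFinset]
    constructor
    · intro h j s
      by_cases hj : j ∈ J
      · rw [if_pos hj]; exact h j hj s
      · rw [if_neg hj]; exact mem_univ _
    · intro h j hj s
      have := h j s
      rwa [if_pos hj] at this
  rw [h1, Fintype.card_piFinset]
  have h2 : ∀ j : Fin m, (Fintype.piFinset fun _ : Fin k => if j ∈ J then Z else univ).card =
      if j ∈ J then Z.card ^ k else n ^ k := by
    intro j
    rw [Fintype.card_piFinset]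
    by_cases hj : j ∈ J
    · simp [hj]
    · simp [hj]
  simp only [h2]
  rw [← Finset.prod_mul_prod_compl J]
  have h3 : ∏ j ∈ J, (if j ∈ J then Z.card ^ k else n ^ k) = Z.card ^ (k * J.card) := by
    rw [Finset.prod_congr rfl fun j hj => if_pos hj, Finset.prod_const, ← pow_mul]
  have h4 : ∏ j ∈ Jᶜ, (if j ∈ J then Z.card ^ k else n ^ k) = n ^ (k * Jᶜ.card) := by
    rw [Finset.prod_congr rfl fun j hj => if_neg (Finset.mem_compl.1 hj), Finset.prod_const,
      ← pow_mul]
  rw [h3, h4]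
  push_cast
  rw [mul_assoc, ← pow_add]
  congr 2
  rw [← mul_add, Finset.card_compl_add_card, Fintype.card_fin]

theorem pow_self_le (s : ℕ) : (s : ℝ) ^ s ≤ Real.exp s * (s.factorial : ℝ) := by
  have h := Real.pow_div_factorial_le_exp (s : ℝ) (Nat.cast_nonneg s) s
  rwa [div_le_iff₀ (by positivity)] at h

theorem term_le (k s m n : ℕ) (hk : 3 ≤ k) (hs : 1 ≤ s) (hn : 1 ≤ n) (hz : (k - 2) * s ≤ n)
    (hc : 4 * 3 ^ (k + 1) * (k : ℝ) ^ 2 * m * s ≤ (n : ℝ) ^ 2) :
    (m.choose s : ℝ) * (n.choose ((k - 2) * s)) * ((((k - 2) * s : ℕ) : ℝ) / n) ^ (k * s) ≤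
      (1 / 4) ^ s := by
  obtain ⟨z, hzd⟩ : ∃ z, z = (k - 2) * s := ⟨_, rfl⟩
  rw [← hzd] at hz ⊢
  have hn0 : (0 : ℝ) < n := by exact_mod_cast hn
  have hs0 : (0 : ℝ) < s := by exact_mod_cast hs
  have hks : k * s = z + 2 * s := by
    rw [hzd, ← add_mul, Nat.sub_add_cancel (by omega)]
  have hzks : z ≤ k * s := by omega
  -- the first binomial coefficient
  have h1 : (m.choose s : ℝ) ≤ (Real.exp 1 * (m / s)) ^ s := by
    have h := Nat.choose_le_pow_div (α := ℝ) s m
    refine h.trans ?_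
    rw [div_le_iff₀ (by positivity), mul_pow, div_pow, Real.exp_one_pow]
    have h2 := pow_self_le s
    have h3 : (0 : ℝ) < (s : ℝ) ^ s := by positivity
    calc (m : ℝ) ^ s = (m : ℝ) ^ s / (s : ℝ) ^ s * (s : ℝ) ^ s := by field_simp
      _ ≤ (m : ℝ) ^ s / (s : ℝ) ^ s * (Real.exp s * (s.factorial : ℝ)) :=
          mul_le_mul_of_nonneg_left h2 (by positivity)
      _ = _ := by ring
  have h2 : (n.choose z : ℝ) * ((z : ℝ) / n) ^ z ≤ Real.exp z := by
    have h := Nat.choose_le_pow_div (α := ℝ) z n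
    calc (n.choose z : ℝ) * ((z : ℝ) / n) ^ z ≤ ((n : ℝ) ^ z / (z.factorial : ℝ)) *
          ((z : ℝ) / n) ^ z := mul_le_mul_of_nonneg_right h (by positivity)
      _ = (z : ℝ) ^ z / (z.factorial : ℝ) := by
          rw [div_pow]
          field_simp
      _ ≤ Real.exp z := Real.pow_div_factorial_le_exp (z : ℝ) (Nat.cast_nonneg z) z
  have h3 : ((z : ℝ) / n) ^ (2 * s) ≤ (((k : ℝ) * s / n) ^ 2) ^ s := by
    rw [← pow_mul]
    refine pow_le_pow_left₀ (by positivity) ?_ _
    have : (z : ℝ) ≤ k * s := by exact_mod_cast hzks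
    gcongr
  have h4 : Real.exp z ≤ (Real.exp 1 ^ k) ^ s := by
    rw [← pow_mul, Real.exp_one_pow]
    apply Real.exp_le_exp.2
    exact_mod_cast hzks
  have he : Real.exp 1 ≤ 3 := by
    have := Real.exp_one_lt_d9
    linarith
  have he0 : 0 < Real.exp 1 := Real.exp_pos 1
  calc (m.choose s : ℝ) * (n.choose z) * ((z : ℝ) / n) ^ (k * s)
      = (m.choose s : ℝ) * (((n.choose z : ℝ) * ((z : ℝ) / n) ^ z) * ((z : ℝ) / n) ^ (2 * s)) := by
        rw [hks, pow_add]
        ring
    _ ≤ (Real.exp 1 * (m / s)) ^ s * ((Real.exp 1 ^ k) ^ s * (((k : ℝ) * s / n) ^ 2) ^ s) := by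
        refine mul_le_mul h1 ?_ (by positivity) (by positivity)
        exact mul_le_mul (h2.trans h4) h3 (by positivity) (by positivity)
    _ = (Real.exp 1 ^ (k + 1) * (k : ℝ) ^ 2 * m * s / n ^ 2) ^ s := by
        rw [← mul_pow, ← mul_pow]
        congr 1
        field_simp
        ring
    _ ≤ (1 / 4) ^ s := by
        refine pow_le_pow_left₀ (by positivity) ?_ _
        rw [div_le_iff₀ (by positivity)]
        have h5 : Real.exp 1 ^ (k + 1) ≤ 3 ^ (k + 1) := pow_le_pow_left₀ he0.le he _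
        have h6 : Real.exp 1 ^ (k + 1) * (k : ℝ) ^ 2 * m * s ≤ 3 ^ (k + 1) * (k : ℝ) ^ 2 * m * s := by
          gcongr
        linarith

theorem sum_quarter (r : ℕ) : ∑ s ∈ Finset.Icc 1 r, ((1 : ℝ) / 4) ^ s ≤ 1 / 3 := by
  have h : ∀ r : ℕ, ∑ s ∈ Finset.Icc 1 r, ((1 : ℝ) / 4) ^ s = 1 / 3 - 1 / 3 * (1 / 4) ^ r := by
    intro r
    induction r with
    | zero => simp
    | succ r ih =>
      rw [Finset.sum_Icc_succ_top (by omega), ih, pow_succ]
      ring
  rw [h]
  have : (0 : ℝ) ≤ 1 / 3 * (1 / 4) ^ r := by positivity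
  linarith

open Classical in
/-- the number of hypergraphs which do not expand -/
theorem card_nonexp (k m n r : ℕ) (hk : 3 ≤ k) (hn : 1 ≤ n) (hr : (k - 2) * r ≤ n)
    (hc : 4 * 3 ^ (k + 1) * (k : ℝ) ^ 2 * m * r ≤ (n : ℝ) ^ 2) :
    ((univ.filter fun c : Fin m → Fin k → Fin n => ∃ J : Finset (Fin m), 1 ≤ J.card ∧
      J.card ≤ r ∧ (img c J).card < (k - 2) * J.card).card : ℝ) ≤ 1 / 3 * (n : ℝ) ^ (k * m) := by
  have hn0 : (0 : ℝ) < n := by exact_mod_cast hn
  have hsub : (univ.filter fun c : Fin m → Fin k → Fin n => ∃ J : Finset (Fin m), 1 ≤ J.card ∧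
      J.card ≤ r ∧ (img c J).card < (k - 2) * J.card) ⊆
      (Finset.Icc 1 r).biUnion fun s => (powersetCard s (univ : Finset (Fin m))).biUnion fun J =>
        (powersetCard ((k - 2) * s) (univ : Finset (Fin n))).biUnion fun Z =>
          univ.filter fun c : Fin m → Fin k → Fin n => ∀ j ∈ J, ∀ s, c j s ∈ Z := by
    intro c hc
    rw [mem_filter] at hc
    obtain ⟨-, J, h1, h2, h3⟩ := hc
    have h4 : (k - 2) * J.card ≤ n := (Nat.mul_le_mul_left _ h2).trans hr
    obtain ⟨Z, hZ1, hZ2, hZ3⟩ := Finset.exists_subsuperset_card_eq (subset_univ (img c J)) h3.le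
      (by rw [card_univ, Fintype.card_fin]; exact h4)
    rw [mem_biUnion]
    refine ⟨J.card, mem_Icc.2 ⟨h1, h2⟩, ?_⟩
    rw [mem_biUnion]
    refine ⟨J, mem_powersetCard.2 ⟨subset_univ _, rfl⟩, ?_⟩
    rw [mem_biUnion]
    refine ⟨Z, mem_powersetCard.2 ⟨subset_univ _, hZ3⟩, ?_⟩
    rw [mem_filter]
    refine ⟨mem_univ _, fun j hj s => hZ1 ?_⟩
    rw [img, mem_biUnion]
    exact ⟨j, hj, mem_image.2 ⟨s, mem_univ _, rfl⟩⟩
  have hin : ∀ s, s ∈ Finset.Icc 1 r → ∀ J ∈ powersetCard s (univ : Finset (Fin m)),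
      ∀ Z ∈ powersetCard ((k - 2) * s) (univ : Finset (Fin n)),
      ((univ.filter fun c : Fin m → Fin k → Fin n => ∀ j ∈ J, ∀ s, c j s ∈ Z).card : ℝ) =
        ((((k - 2) * s : ℕ) : ℝ) / n) ^ (k * s) * (n : ℝ) ^ (k * m) := by
    intro s _ J hJ Z hZ
    have h1 := card_inside (k := k) J Z
    rw [(mem_powersetCard.1 hJ).2, (mem_powersetCard.1 hZ).2] at h1
    rw [div_pow]
    field_simp
    rw [h1]
  calc ((univ.filter fun c : Fin m → Fin k → Fin n => ∃ J : Finset (Fin m), 1 ≤ J.card ∧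
      J.card ≤ r ∧ (img c J).card < (k - 2) * J.card).card : ℝ)
      ≤ ∑ s ∈ Finset.Icc 1 r, ∑ J ∈ powersetCard s (univ : Finset (Fin m)),
          ∑ Z ∈ powersetCard ((k - 2) * s) (univ : Finset (Fin n)),
          ((univ.filter fun c : Fin m → Fin k → Fin n => ∀ j ∈ J, ∀ s, c j s ∈ Z).card : ℝ) := by
        have h1 := (Finset.card_le_card hsub).trans Finset.card_biUnion_le
        have h2 : ∀ s ∈ Finset.Icc 1 r, ((powersetCard s (univ : Finset (Fin m))).biUnion fun J =>
          (powersetCard ((k - 2) * s) (univ : Finset (Fin n))).biUnion fun Z =>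
          univ.filter fun c : Fin m → Fin k → Fin n => ∀ j ∈ J, ∀ s, c j s ∈ Z).card ≤
          ∑ J ∈ powersetCard s (univ : Finset (Fin m)),
          ∑ Z ∈ powersetCard ((k - 2) * s) (univ : Finset (Fin n)),
          (univ.filter fun c : Fin m → Fin k → Fin n => ∀ j ∈ J, ∀ s, c j s ∈ Z).card := by
          intro s _
          refine Finset.card_biUnion_le.trans (Finset.sum_le_sum fun J _ => ?_)
          exact Finset.card_biUnion_le
        exact_mod_cast h1.trans (Finset.sum_le_sum h2)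
    _ = ∑ s ∈ Finset.Icc 1 r, ((m.choose s : ℝ) * (n.choose ((k - 2) * s)) *
          ((((k - 2) * s : ℕ) : ℝ) / n) ^ (k * s)) * (n : ℝ) ^ (k * m) := by
        refine Finset.sum_congr rfl fun s hs => ?_
        rw [Finset.sum_congr rfl fun J hJ => Finset.sum_congr rfl fun Z hZ => hin s hs J hJ Z hZ]
        rw [Finset.sum_const, Finset.sum_const, card_powersetCard, card_powersetCard, card_univ,
          card_univ, Fintype.card_fin, Fintype.card_fin, nsmul_eq_mul, nsmul_eq_mul]
        ring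
    _ ≤ ∑ s ∈ Finset.Icc 1 r, ((1 : ℝ) / 4) ^ s * (n : ℝ) ^ (k * m) := by
        refine Finset.sum_le_sum fun s hs => ?_
        rw [mem_Icc] at hs
        refine mul_le_mul_of_nonneg_right ?_ (by positivity)
        refine term_le k s m n hk hs.1 hn ((Nat.mul_le_mul_left _ hs.2).trans hr) ?_
        have : (s : ℝ) ≤ r := by exact_mod_cast hs.2
        refine le_trans ?_ hc
        gcongr
    _ ≤ 1 / 3 * (n : ℝ) ^ (k * m) := by
        rw [← Finset.sum_mul]
        exact mul_le_mul_of_nonneg_right (sum_quarter r) (by positivity)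

theorem sum_slots {n : ℕ} (k : ℕ) (U : Finset (Fin n)) :
    ∑ f : Fin k → Fin n, ((1 : ℝ) / 2) ^ slots U f = ((n : ℝ) - U.card / 2) ^ k := by
  classical
  have h1 : ∀ f : Fin k → Fin n, ((1 : ℝ) / 2) ^ slots U f =
      ∏ s, if f s ∈ U then (1 : ℝ) / 2 else 1 := by
    intro f
    rw [slots, Finset.prod_ite, Finset.prod_const, Finset.prod_const_one, mul_one]
  simp only [h1]
  rw [← Fintype.sum_pow fun v : Fin n => if v ∈ U then (1 : ℝ) / 2 else 1]
  congr 1
  have h2 : ∀ v : Fin n, (if v ∈ U then (1 : ℝ) / 2 else 1) = 1 - (if v ∈ U then 1 / 2 else 0) := by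
    intro v
    split_ifs <;> norm_num
  simp only [h2]
  rw [Finset.sum_sub_distrib, Finset.sum_const, card_univ, Fintype.card_fin, nsmul_eq_mul, mul_one,
    Finset.sum_ite_mem, Finset.univ_inter, Finset.sum_const, nsmul_eq_mul]
  ring

open Classical in
theorem card_few {n k h : ℕ} (U : Finset (Fin n)) (κ : ℝ) (hU : κ * n ≤ U.card) :
    ((univ.filter fun f : Fin k → Fin n => slots U f < h).card : ℝ) ≤
      2 ^ h * (1 - κ / 2) ^ k * (n : ℝ) ^ k := by
  have h1 : ((univ.filter fun f : Fin k → Fin n => slots U f < h).card : ℝ) * (1 / 2) ^ h ≤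
      ((n : ℝ) - U.card / 2) ^ k := by
    rw [← sum_slots k U]
    calc ((univ.filter fun f : Fin k → Fin n => slots U f < h).card : ℝ) * (1 / 2) ^ h
        = ∑ _f ∈ univ.filter fun f : Fin k → Fin n => slots U f < h, ((1 : ℝ) / 2) ^ h := by
          rw [Finset.sum_const, nsmul_eq_mul]
      _ ≤ ∑ f ∈ univ.filter fun f : Fin k → Fin n => slots U f < h, ((1 : ℝ) / 2) ^ slots U f := by
          refine Finset.sum_le_sum fun f hf => ?_
          exact pow_le_pow_of_le_one (by norm_num) (by norm_num) (mem_filter.1 hf).2.le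
      _ ≤ _ := Finset.sum_le_sum_of_subset_of_nonneg (filter_subset _ _) fun f _ _ => by positivity
  have hcard : (U.card : ℝ) ≤ n := by
    have := card_le_univ U
    rw [Fintype.card_fin] at this
    exact_mod_cast this
  have h2 : ((n : ℝ) - U.card / 2) ^ k ≤ ((1 - κ / 2) * n) ^ k := by
    refine pow_le_pow_left₀ (by linarith) ?_ _
    linarith
  have h3 : (0 : ℝ) < 2 ^ h := by positivity
  calc ((univ.filter fun f : Fin k → Fin n => slots U f < h).card : ℝ)
      = 2 ^ h * (((univ.filter fun f : Fin k → Fin n => slots U f < h).card : ℝ) * (1 / 2) ^ h) := by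
        rw [one_div, inv_pow]
        field_simp
    _ ≤ 2 ^ h * ((1 - κ / 2) * n) ^ k := mul_le_mul_of_nonneg_left (h1.trans h2) h3.le
    _ = _ := by rw [mul_pow]; ring

open Classical in
/-- the number of hypergraphs with many edges with few slots in `U` -/
theorem card_nonspread {n k h : ℕ} (m q : ℕ) (U : Finset (Fin n)) (κ : ℝ) (hU : κ * n ≤ U.card)
    (hp : 32 ^ q * (2 ^ h * (1 - κ / 2) ^ k) ≤ 1) :
    ((univ.filter fun c : Fin m → Fin k → Fin n =>
      m < q * (univ.filter fun j => slots U (c j) < h).card).card : ℝ) ≤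
      (1 / 16) ^ m * (n : ℝ) ^ (k * m) := by
  obtain ⟨g, hg⟩ : ∃ g : (Fin k → Fin n) → ℝ, g = fun f => if slots U f < h then 32 ^ q else 1 :=
    ⟨_, rfl⟩
  have hg0 : ∀ f, 0 ≤ g f := by
    intro f
    rw [hg]
    beta_reduce
    split_ifs <;> positivity
  have h1 : ∑ f, g f ≤ 2 * (n : ℝ) ^ k := by
    have h2 : ∀ f, g f ≤ 1 + if slots U f < h then (32 : ℝ) ^ q else 0 := by
      intro f
      rw [hg]
      beta_reduce
      split_ifs
      · linarith
      · linarith
    refine (Finset.sum_le_sum fun f _ => h2 f).trans ?_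
    rw [Finset.sum_add_distrib, Finset.sum_const, card_univ, Fintype.card_fun, Fintype.card_fin,
      Fintype.card_fin, nsmul_eq_mul, mul_one, ← Finset.sum_filter, Finset.sum_const, nsmul_eq_mul]
    have h3 := card_few (k := k) (h := h) U κ hU
    have h4 : ((univ.filter fun f : Fin k → Fin n => slots U f < h).card : ℝ) * 32 ^ q ≤
        (n : ℝ) ^ k := by
      calc ((univ.filter fun f : Fin k → Fin n => slots U f < h).card : ℝ) * 32 ^ q
          ≤ (2 ^ h * (1 - κ / 2) ^ k * (n : ℝ) ^ k) * 32 ^ q :=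
            mul_le_mul_of_nonneg_right h3 (by positivity)
        _ = (32 ^ q * (2 ^ h * (1 - κ / 2) ^ k)) * (n : ℝ) ^ k := by ring
        _ ≤ 1 * (n : ℝ) ^ k := mul_le_mul_of_nonneg_right hp (by positivity)
        _ = _ := one_mul _
    push_cast
    linarith
  have h2 : ∑ c : Fin m → Fin k → Fin n, ∏ j, g (c j) ≤ (2 * (n : ℝ) ^ k) ^ m := by
    rw [← Fintype.sum_pow g m]
    exact pow_le_pow_left₀ (Finset.sum_nonneg fun f _ => hg0 f) h1 m
  have h3 : ∀ c : Fin m → Fin k → Fin n,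
      m < q * (univ.filter fun j => slots U (c j) < h).card → (32 : ℝ) ^ m ≤ ∏ j, g (c j) := by
    intro c hc
    have h4 : ∏ j, g (c j) = 32 ^ (q * (univ.filter fun j => slots U (c j) < h).card) := by
      rw [hg]
      beta_reduce
      rw [Finset.prod_ite, Finset.prod_const, Finset.prod_const_one, mul_one, ← pow_mul]
    rw [h4]
    exact pow_le_pow_right₀ (by norm_num) hc.le
  have h5 : ((univ.filter fun c : Fin m → Fin k → Fin n =>
      m < q * (univ.filter fun j => slots U (c j) < h).card).card : ℝ) * 32 ^ m ≤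
      (2 * (n : ℝ) ^ k) ^ m := by
    refine le_trans ?_ h2
    rw [← nsmul_eq_mul, ← Finset.sum_const]
    refine (Finset.sum_le_sum fun c hc => h3 c (mem_filter.1 hc).2).trans ?_
    exact Finset.sum_le_sum_of_subset_of_nonneg (filter_subset _ _) fun c _ _ =>
      Finset.prod_nonneg fun j _ => hg0 _
  have h6 : (2 * (n : ℝ) ^ k) ^ m = ((1 / 16) ^ m * (n : ℝ) ^ (k * m)) * 32 ^ m := by
    rw [mul_pow, pow_mul]
    have : (2 : ℝ) ^ m = (1 / 16) ^ m * 32 ^ m := by
      rw [← mul_pow]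
      norm_num
    rw [this]
    ring
  rw [h6] at h5
  exact le_of_mul_le_mul_right h5 (by positivity)

open Classical in
/-- Existence of an expanding and spread hypergraph. -/
theorem exists_hyp (k m n r h q : ℕ) (κ : ℝ) (hk : 3 ≤ k) (hn : 1 ≤ n) (hmn : n ≤ m)
    (hr : (k - 2) * r ≤ n) (hc : 4 * 3 ^ (k + 1) * (k : ℝ) ^ 2 * m * r ≤ (n : ℝ) ^ 2)
    (hp : 32 ^ q * (2 ^ h * (1 - κ / 2) ^ k) ≤ 1) :
    ∃ c : Fin m → Fin k → Fin n,
      (∀ J : Finset (Fin m), 1 ≤ J.card → J.card ≤ r → (k - 2) * J.card ≤ (img c J).card) ∧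
      ∀ U : Finset (Fin n), κ * n ≤ U.card →
        q * (univ.filter fun j => slots U (c j) < h).card ≤ m := by
  by_contra hcon
  push Not at hcon
  have hn0 : (0 : ℝ) < n := by exact_mod_cast hn
  have hsub : (univ : Finset (Fin m → Fin k → Fin n)) ⊆
      (univ.filter fun c : Fin m → Fin k → Fin n => ∃ J : Finset (Fin m), 1 ≤ J.card ∧
      J.card ≤ r ∧ (img c J).card < (k - 2) * J.card) ∪
      (univ.filter fun U : Finset (Fin n) => κ * n ≤ U.card).biUnion fun U =>
        univ.filter fun c : Fin m → Fin k → Fin n =>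
          m < q * (univ.filter fun j => slots U (c j) < h).card := by
    intro c _
    rw [mem_union]
    by_cases h1 : ∀ J : Finset (Fin m), 1 ≤ J.card → J.card ≤ r →
        (k - 2) * J.card ≤ (img c J).card
    · right
      obtain ⟨U, hU1, hU2⟩ := hcon c h1
      rw [mem_biUnion]
      exact ⟨U, mem_filter.2 ⟨mem_univ _, hU1⟩, mem_filter.2 ⟨mem_univ _, hU2⟩⟩
    · left
      push Not at h1
      obtain ⟨J, h2, h3, h4⟩ := h1
      exact mem_filter.2 ⟨mem_univ _, J, h2, h3, h4⟩
  have h1 : ((univ : Finset (Fin m → Fin k → Fin n)).card : ℝ) = (n : ℝ) ^ (k * m) := by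
    rw [card_univ, Fintype.card_fun, Fintype.card_fun, Fintype.card_fin, Fintype.card_fin,
      Fintype.card_fin]
    push_cast
    rw [← pow_mul]
  have h2 : (n : ℝ) ^ (k * m) ≤ 1 / 3 * (n : ℝ) ^ (k * m) +
      (2 : ℝ) ^ n * ((1 / 16) ^ m * (n : ℝ) ^ (k * m)) := by
    rw [← h1]
    refine le_trans (b := (((univ.filter fun c : Fin m → Fin k → Fin n =>
      ∃ J : Finset (Fin m), 1 ≤ J.card ∧ J.card ≤ r ∧ (img c J).card < (k - 2) * J.card).card : ℝ) +
      ∑ U ∈ univ.filter fun U : Finset (Fin n) => κ * n ≤ U.card,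
        ((univ.filter fun c : Fin m → Fin k → Fin n =>
          m < q * (univ.filter fun j => slots U (c j) < h).card).card : ℝ))) ?_ ?_
    · have h3 := (Finset.card_le_card hsub).trans (Finset.card_union_le _ _)
      have h4 := h3.trans (Nat.add_le_add_left Finset.card_biUnion_le _)
      exact_mod_cast h4
    · rw [h1]
      refine add_le_add (card_nonexp k m n r hk hn hr hc) ?_
      calc ∑ U ∈ univ.filter fun U : Finset (Fin n) => κ * n ≤ U.card,
          ((univ.filter fun c : Fin m → Fin k → Fin n =>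
            m < q * (univ.filter fun j => slots U (c j) < h).card).card : ℝ)
          ≤ ∑ _U ∈ univ.filter fun U : Finset (Fin n) => κ * n ≤ U.card,
            ((1 / 16 : ℝ) ^ m * (n : ℝ) ^ (k * m)) := by
            refine Finset.sum_le_sum fun U hU => ?_
            exact card_nonspread m q U κ (mem_filter.1 hU).2 hp
        _ ≤ ∑ _U : Finset (Fin n), ((1 / 16 : ℝ) ^ m * (n : ℝ) ^ (k * m)) :=
            Finset.sum_le_sum_of_subset_of_nonneg (filter_subset _ _) fun _ _ _ => by positivity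
        _ = _ := by
            rw [Finset.sum_const, card_univ, Fintype.card_finset, Fintype.card_fin, nsmul_eq_mul]
            push_cast
            ring
  have h3 : (2 : ℝ) ^ n * (1 / 16) ^ m ≤ 1 / 8 := by
    have h4 : (2 : ℝ) ^ n ≤ 2 ^ m := pow_le_pow_right₀ (by norm_num) hmn
    calc (2 : ℝ) ^ n * (1 / 16) ^ m ≤ 2 ^ m * (1 / 16) ^ m :=
          mul_le_mul_of_nonneg_right h4 (by positivity)
      _ = (1 / 8) ^ m := by rw [← mul_pow]; norm_num
      _ ≤ (1 / 8) ^ 1 := pow_le_pow_of_le_one (by norm_num) (by norm_num) (hn.trans hmn)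
      _ = _ := by norm_num
  have h4 : (0 : ℝ) < (n : ℝ) ^ (k * m) := by positivity
  have h5 : (2 : ℝ) ^ n * ((1 / 16) ^ m * (n : ℝ) ^ (k * m)) ≤ 1 / 8 * (n : ℝ) ^ (k * m) := by
    rw [← mul_assoc]
    exact mul_le_mul_of_nonneg_right h3 h4.le
  linarith

end Pool.Agent.W888.GX
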