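import Pool.Agent.W888.GX.Hyp

set_option autoImplicit false
set_option linter.unusedSectionVars false

/-!
Sparse hypergraphs with edges of size three which expand, such that few vertices meet few edges.
-/

namespace Pool.Agent.W888.GX

open Finset

theorem term3_le (s m n z : ℕ) (hs : 1 ≤ s) (hn : 1 ≤ n) (hz : z = (7 * s - 1) / 4)
    (hc : 8192 * 3 ^ 12 * (m : ℝ) ^ 4 * s ≤ (n : ℝ) ^ 5) (hsn : 2 * s ≤ n) :
    (m.choose s : ℝ) * (n.choose z) * ((z : ℝ) / n) ^ (3 * s) ≤ (1 / 4) ^ s := by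
  have hn0 : (0 : ℝ) < n := by exact_mod_cast hn
  have hs0 : (0 : ℝ) < s := by exact_mod_cast hs
  have hz2 : z ≤ 2 * s := by omega
  obtain ⟨e, he⟩ : ∃ e, e = 3 * s - z := ⟨_, rfl⟩
  have hks : 3 * s = z + e := by omega
  have he5 : 5 * s ≤ 4 * e := by omega
  have h1 : (m.choose s : ℝ) ≤ (Real.exp 1 * (m / s)) ^ s := by
    have h := Nat.choose_le_pow_div (α := ℝ) s m
    refine h.trans ?_
    rw [div_le_iff₀ (by positivity), mul_pow, div_pow, Real.exp_one_pow]
    have h2 := pow_self_le s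
    have h3 : (0 : ℝ) < (s : ℝ) ^ s := by positivity
    calc (m : ℝ) ^ s = (m : ℝ) ^ s / (s : ℝ) ^ s * (s : ℝ) ^ s := by field_simp
      _ ≤ (m : ℝ) ^ s / (s : ℝ) ^ s * (Real.exp s * (s.factorial : ℝ)) :=
          mul_le_mul_of_nonneg_left h2 (by positivity)
      _ = _ := by ring
  have h2 : (n.choose z : ℝ) * ((z : ℝ) / n) ^ z ≤ Real.exp z := by
    have h := Nat.choose_le_pow_div (α := ℝ) z n
    calc (n.choose z : ℝ) * ((z : ℝ) / n) ^ z ≤ ((n : ℝ) ^ z / (z.factorial : ℝ)) *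
          ((z : ℝ) / n) ^ z := mul_le_mul_of_nonneg_right h (by positivity)
      _ = (z : ℝ) ^ z / (z.factorial : ℝ) := by
          rw [div_pow]
          field_simp
      _ ≤ Real.exp z := Real.pow_div_factorial_le_exp (z : ℝ) (Nat.cast_nonneg z) z
  have h3 : ((z : ℝ) / n) ^ e ≤ (2 * s / n) ^ e := by
    refine pow_le_pow_left₀ (by positivity) ?_ _
    have : (z : ℝ) ≤ 2 * s := by exact_mod_cast hz2
    gcongr
  have h4 : Real.exp z ≤ (Real.exp 1 ^ 2) ^ s := by
    rw [← pow_mul, Real.exp_one_pow]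
    apply Real.exp_le_exp.2
    exact_mod_cast hz2
  have hexp : Real.exp 1 ≤ 3 := by
    have := Real.exp_one_lt_d9
    linarith
  have he0 : 0 < Real.exp 1 := Real.exp_pos 1
  have h5 : (m.choose s : ℝ) * (n.choose z) * ((z : ℝ) / n) ^ (3 * s) ≤
      (Real.exp 1 * (m / s)) ^ s * ((Real.exp 1 ^ 2) ^ s * (2 * s / n) ^ e) := by
    calc (m.choose s : ℝ) * (n.choose z) * ((z : ℝ) / n) ^ (3 * s)
        = (m.choose s : ℝ) * (((n.choose z : ℝ) * ((z : ℝ) / n) ^ z) * ((z : ℝ) / n) ^ e) := by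
          rw [hks, pow_add]
          ring
      _ ≤ _ := by
          refine mul_le_mul h1 ?_ (by positivity) (by positivity)
          exact mul_le_mul (h2.trans h4) h3 (by positivity) (by positivity)
  refine h5.trans ?_
  have h6 : ((Real.exp 1 * (m / s)) ^ s * ((Real.exp 1 ^ 2) ^ s * (2 * s / n) ^ e)) ^ 4 ≤
      ((1 / 4) ^ s) ^ 4 := by
    have h7 : (2 * (s : ℝ) / n) ^ (4 * e) ≤ (2 * s / n) ^ (5 * s) := by
      refine pow_le_pow_of_le_one (by positivity) ?_ he5
      rw [div_le_one hn0]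
      exact_mod_cast hsn
    calc ((Real.exp 1 * (m / s)) ^ s * ((Real.exp 1 ^ 2) ^ s * (2 * s / n) ^ e)) ^ 4
        = ((Real.exp 1 * (m / s)) ^ 4 * (Real.exp 1 ^ 2) ^ 4) ^ s * (2 * s / n) ^ (4 * e) := by
          rw [mul_pow, mul_pow, mul_pow (_ ^ 4), ← pow_mul, ← pow_mul, ← pow_mul, ← pow_mul,
            mul_comm 4 e, pow_mul _ e 4, ← pow_mul]
          ring
      _ ≤ ((Real.exp 1 * (m / s)) ^ 4 * (Real.exp 1 ^ 2) ^ 4) ^ s * (2 * s / n) ^ (5 * s) :=
          mul_le_mul_of_nonneg_left h7 (by positivity)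
      _ = (Real.exp 1 ^ 12 * 32 * (m : ℝ) ^ 4 * s / n ^ 5) ^ s := by
          rw [pow_mul _ 5 s, ← mul_pow]
          congr 1
          field_simp
          ring
      _ ≤ ((1 / 4) ^ 4) ^ s := by
          refine pow_le_pow_left₀ (by positivity) ?_ _
          rw [div_le_iff₀ (by positivity)]
          have h8 : Real.exp 1 ^ 12 ≤ 3 ^ 12 := pow_le_pow_left₀ he0.le hexp _
          have h9 : Real.exp 1 ^ 12 * 32 * (m : ℝ) ^ 4 * s ≤ 3 ^ 12 * 32 * (m : ℝ) ^ 4 * s := by
            gcongr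
          linarith
      _ = _ := by rw [← pow_mul, ← pow_mul, mul_comm]
  exact le_of_pow_le_pow_left₀ (by norm_num) (by positivity) h6

open Classical in
/-- the number of hypergraphs which do not expand -/
theorem card_nonexp3 (m n r : ℕ) (hn : 1 ≤ n) (hr : 2 * r ≤ n)
    (hc : 8192 * 3 ^ 12 * (m : ℝ) ^ 4 * r ≤ (n : ℝ) ^ 5) :
    ((univ.filter fun c : Fin m → Fin 3 → Fin n => ∃ J : Finset (Fin m), 1 ≤ J.card ∧
      J.card ≤ r ∧ 4 * (img c J).card < 7 * J.card).card : ℝ) ≤ 1 / 3 * (n : ℝ) ^ (3 * m) := by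
  have hn0 : (0 : ℝ) < n := by exact_mod_cast hn
  have hsub : (univ.filter fun c : Fin m → Fin 3 → Fin n => ∃ J : Finset (Fin m), 1 ≤ J.card ∧
      J.card ≤ r ∧ 4 * (img c J).card < 7 * J.card) ⊆
      (Finset.Icc 1 r).biUnion fun s => (powersetCard s (univ : Finset (Fin m))).biUnion fun J =>
        (powersetCard ((7 * s - 1) / 4) (univ : Finset (Fin n))).biUnion fun Z =>
          univ.filter fun c : Fin m → Fin 3 → Fin n => ∀ j ∈ J, ∀ s, c j s ∈ Z := by
    intro c hc
    rw [mem_filter] at hc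
    obtain ⟨-, J, h1, h2, h3⟩ := hc
    have h4 : (7 * J.card - 1) / 4 ≤ n := by omega
    obtain ⟨Z, hZ1, hZ2, hZ3⟩ := Finset.exists_subsuperset_card_eq (subset_univ (img c J))
      (show (img c J).card ≤ (7 * J.card - 1) / 4 by omega)
      (by rw [card_univ, Fintype.card_fin]; exact h4)
    rw [mem_biUnion]
    refine ⟨J.card, mem_Icc.2 ⟨h1, h2⟩, ?_⟩
    rw [mem_biUnion]
    refine ⟨J, mem_powersetCard.2 ⟨subset_univ _, rfl⟩, ?_⟩
    rw [mem_biUnion]
    refine ⟨Z, mem_powersetCard.2 ⟨subset_univ _, hZ3⟩, ?_⟩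
    rw [mem_filter]
    refine ⟨mem_univ _, fun j hj s => hZ1 ?_⟩
    rw [img, mem_biUnion]
    exact ⟨j, hj, mem_image.2 ⟨s, mem_univ _, rfl⟩⟩
  have hin : ∀ s, s ∈ Finset.Icc 1 r → ∀ J ∈ powersetCard s (univ : Finset (Fin m)),
      ∀ Z ∈ powersetCard ((7 * s - 1) / 4) (univ : Finset (Fin n)),
      ((univ.filter fun c : Fin m → Fin 3 → Fin n => ∀ j ∈ J, ∀ s, c j s ∈ Z).card : ℝ) =
        ((((7 * s - 1) / 4 : ℕ) : ℝ) / n) ^ (3 * s) * (n : ℝ) ^ (3 * m) := by
    intro s _ J hJ Z hZ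
    have h1 := card_inside (k := 3) J Z
    rw [(mem_powersetCard.1 hJ).2, (mem_powersetCard.1 hZ).2] at h1
    rw [div_pow]
    field_simp
    rw [h1]
  calc ((univ.filter fun c : Fin m → Fin 3 → Fin n => ∃ J : Finset (Fin m), 1 ≤ J.card ∧
      J.card ≤ r ∧ 4 * (img c J).card < 7 * J.card).card : ℝ)
      ≤ ∑ s ∈ Finset.Icc 1 r, ∑ J ∈ powersetCard s (univ : Finset (Fin m)),
          ∑ Z ∈ powersetCard ((7 * s - 1) / 4) (univ : Finset (Fin n)),
          ((univ.filter fun c : Fin m → Fin 3 → Fin n => ∀ j ∈ J, ∀ s, c j s ∈ Z).card : ℝ) := by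
        have h1 := (Finset.card_le_card hsub).trans Finset.card_biUnion_le
        have h2 : ∀ s ∈ Finset.Icc 1 r, ((powersetCard s (univ : Finset (Fin m))).biUnion fun J =>
          (powersetCard ((7 * s - 1) / 4) (univ : Finset (Fin n))).biUnion fun Z =>
          univ.filter fun c : Fin m → Fin 3 → Fin n => ∀ j ∈ J, ∀ s, c j s ∈ Z).card ≤
          ∑ J ∈ powersetCard s (univ : Finset (Fin m)),
          ∑ Z ∈ powersetCard ((7 * s - 1) / 4) (univ : Finset (Fin n)),
          (univ.filter fun c : Fin m → Fin 3 → Fin n => ∀ j ∈ J, ∀ s, c j s ∈ Z).card := by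
          intro s _
          refine Finset.card_biUnion_le.trans (Finset.sum_le_sum fun J _ => ?_)
          exact Finset.card_biUnion_le
        exact_mod_cast h1.trans (Finset.sum_le_sum h2)
    _ = ∑ s ∈ Finset.Icc 1 r, ((m.choose s : ℝ) * (n.choose ((7 * s - 1) / 4)) *
          ((((7 * s - 1) / 4 : ℕ) : ℝ) / n) ^ (3 * s)) * (n : ℝ) ^ (3 * m) := by
        refine Finset.sum_congr rfl fun s hs => ?_
        rw [Finset.sum_congr rfl fun J hJ => Finset.sum_congr rfl fun Z hZ => hin s hs J hJ Z hZ]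
        rw [Finset.sum_const, Finset.sum_const, card_powersetCard, card_powersetCard, card_univ,
          card_univ, Fintype.card_fin, Fintype.card_fin, nsmul_eq_mul, nsmul_eq_mul]
        ring
    _ ≤ ∑ s ∈ Finset.Icc 1 r, ((1 : ℝ) / 4) ^ s * (n : ℝ) ^ (3 * m) := by
        refine Finset.sum_le_sum fun s hs => ?_
        rw [mem_Icc] at hs
        refine mul_le_mul_of_nonneg_right ?_ (by positivity)
        refine term3_le s m n _ hs.1 hn rfl ?_ (by omega)
        have : (s : ℝ) ≤ r := by exact_mod_cast hs.2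
        refine le_trans ?_ hc
        gcongr
    _ ≤ 1 / 3 * (n : ℝ) ^ (3 * m) := by
        rw [← Finset.sum_mul]
        exact mul_le_mul_of_nonneg_right (sum_quarter r) (by positivity)

/-- a row which is not usable when the variables in `X` are fixed -/
def Bad {n : ℕ} (X : Finset (Fin n)) (f : Fin 3 → Fin n) : Prop :=
  ¬ (Function.Injective f ∧ ∀ s, f s ∉ X)

theorem card_eq_slots {n k : ℕ} (s t : Fin (k + 1)) (hst : s ≠ t) :
    (univ.filter fun f : Fin (k + 1) → Fin n => f s = f t).card ≤ n ^ k := by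
  have h1 : (univ : Finset (Fin k → Fin n)).card = n ^ k := by
    rw [card_univ, Fintype.card_fun, Fintype.card_fin, Fintype.card_fin]
  rw [← h1]
  refine Finset.card_le_card_of_injOn (fun f i => f (s.succAbove i)) (fun _ _ => mem_coe.2 (mem_univ _)) ?_
  intro f hf g hg hfg
  rw [mem_coe, mem_filter] at hf hg
  have h2 : ∀ u, u ≠ s → f u = g u := by
    intro u hu
    obtain ⟨i, rfl⟩ := Fin.exists_succAbove_eq hu
    exact congrFun hfg i
  funext u
  by_cases hu : u = s
  · rw [hu, hf.2, hg.2, h2 t (Ne.symm hst)]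
  · exact h2 u hu

theorem card_hit {n k : ℕ} (s : Fin (k + 1)) (X : Finset (Fin n)) :
    (univ.filter fun f : Fin (k + 1) → Fin n => f s ∈ X).card ≤ X.card * n ^ k := by
  have h1 : (X ×ˢ (univ : Finset (Fin k → Fin n))).card = X.card * n ^ k := by
    rw [card_product, card_univ, Fintype.card_fun, Fintype.card_fin, Fintype.card_fin]
  rw [← h1]
  refine Finset.card_le_card_of_injOn (fun f => (f s, fun i => f (s.succAbove i)))
    (fun f hf => ?_) ?_
  · rw [mem_coe, mem_filter] at hf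
    exact mem_coe.2 (mem_product.2 ⟨hf.2, mem_univ _⟩)
  · intro f _ g _ hfg
    have h2 : f s = g s := congrArg Prod.fst hfg
    have h3 : (fun i => f (s.succAbove i)) = fun i => g (s.succAbove i) := congrArg Prod.snd hfg
    funext u
    by_cases hu : u = s
    · rw [hu, h2]
    · obtain ⟨i, rfl⟩ := Fin.exists_succAbove_eq hu
      exact congrFun h3 i

theorem card_bad {n : ℕ} (X : Finset (Fin n)) [DecidablePred (Bad X)] (ξ : ℝ)
    (hX : (X.card : ℝ) ≤ ξ * n) (hn : 1 ≤ ξ * n) :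
    ((univ.filter fun f : Fin 3 → Fin n => Bad X f).card : ℝ) ≤ (6 * ξ) * (n : ℝ) ^ 3 := by
  have hsub : (univ.filter fun f : Fin 3 → Fin n => Bad X f) ⊆
      (((univ.filter fun f : Fin 3 → Fin n => f 0 = f 1) ∪
        (univ.filter fun f : Fin 3 → Fin n => f 0 = f 2)) ∪
        (univ.filter fun f : Fin 3 → Fin n => f 1 = f 2)) ∪
      (((univ.filter fun f : Fin 3 → Fin n => f 0 ∈ X) ∪
        (univ.filter fun f : Fin 3 → Fin n => f 1 ∈ X)) ∪
        (univ.filter fun f : Fin 3 → Fin n => f 2 ∈ X)) := by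
    intro f hf
    rw [mem_filter] at hf
    simp only [mem_union, mem_filter, mem_univ, true_and]
    by_contra hcon
    push Not at hcon
    obtain ⟨⟨⟨h1, h2⟩, h3⟩, ⟨h4, h5⟩, h6⟩ := hcon
    refine hf.2 ⟨?_, ?_⟩
    · intro i j hij
      fin_cases i <;> fin_cases j
      · rfl
      · exact absurd hij h1
      · exact absurd hij h2
      · exact absurd hij.symm h1
      · rfl
      · exact absurd hij h3
      · exact absurd hij.symm h2
      · exact absurd hij.symm h3
      · rfl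
    · intro s
      fin_cases s
      · exact h4
      · exact h5
      · exact h6
  have h1 : (univ.filter fun f : Fin 3 → Fin n => Bad X f).card ≤
      3 * n ^ 2 + 3 * (X.card * n ^ 2) := by
    refine (card_le_card hsub).trans ((card_union_le _ _).trans (Nat.add_le_add ?_ ?_))
    · have e1 : (univ.filter fun f : Fin 3 → Fin n => f 0 = f 1).card ≤ n ^ 2 :=
        card_eq_slots (n := n) (k := 2) 0 1 (by decide)
      have e2 : (univ.filter fun f : Fin 3 → Fin n => f 0 = f 2).card ≤ n ^ 2 :=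
        card_eq_slots (n := n) (k := 2) 0 2 (by decide)
      have e3 : (univ.filter fun f : Fin 3 → Fin n => f 1 = f 2).card ≤ n ^ 2 :=
        card_eq_slots (n := n) (k := 2) 1 2 (by decide)
      have e4 := card_union_le ((univ.filter fun f : Fin 3 → Fin n => f 0 = f 1) ∪
        (univ.filter fun f : Fin 3 → Fin n => f 0 = f 2))
        (univ.filter fun f : Fin 3 → Fin n => f 1 = f 2)
      have e5 := card_union_le (univ.filter fun f : Fin 3 → Fin n => f 0 = f 1)
        (univ.filter fun f : Fin 3 → Fin n => f 0 = f 2)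
      omega
    · have e1 : (univ.filter fun f : Fin 3 → Fin n => f 0 ∈ X).card ≤ X.card * n ^ 2 :=
        card_hit (n := n) (k := 2) 0 X
      have e2 : (univ.filter fun f : Fin 3 → Fin n => f 1 ∈ X).card ≤ X.card * n ^ 2 :=
        card_hit (n := n) (k := 2) 1 X
      have e3 : (univ.filter fun f : Fin 3 → Fin n => f 2 ∈ X).card ≤ X.card * n ^ 2 :=
        card_hit (n := n) (k := 2) 2 X
      have e4 := card_union_le ((univ.filter fun f : Fin 3 → Fin n => f 0 ∈ X) ∪
        (univ.filter fun f : Fin 3 → Fin n => f 1 ∈ X))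
        (univ.filter fun f : Fin 3 → Fin n => f 2 ∈ X)
      have e5 := card_union_le (univ.filter fun f : Fin 3 → Fin n => f 0 ∈ X)
        (univ.filter fun f : Fin 3 → Fin n => f 1 ∈ X)
      omega
  have h2 : ((univ.filter fun f : Fin 3 → Fin n => Bad X f).card : ℝ) ≤
      3 * (n : ℝ) ^ 2 + 3 * (X.card * (n : ℝ) ^ 2) := by exact_mod_cast h1
  have h3 : (0 : ℝ) ≤ (n : ℝ) ^ 2 := by positivity
  have h4 : (1 : ℝ) * (n : ℝ) ^ 2 ≤ (ξ * n) * (n : ℝ) ^ 2 := mul_le_mul_of_nonneg_right hn h3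
  have h5 : (X.card : ℝ) * (n : ℝ) ^ 2 ≤ (ξ * n) * (n : ℝ) ^ 2 := mul_le_mul_of_nonneg_right hX h3
  calc _ ≤ 3 * (n : ℝ) ^ 2 + 3 * (X.card * (n : ℝ) ^ 2) := h2
    _ ≤ 3 * ((ξ * n) * (n : ℝ) ^ 2) + 3 * ((ξ * n) * (n : ℝ) ^ 2) := by linarith
    _ = _ := by ring

open Classical in
/-- the number of hypergraphs with many bad edges -/
theorem card_nonspread3 {n k : ℕ} (m q : ℕ) (B : (Fin k → Fin n) → Prop) (p : ℝ)
    (hB : ((univ.filter fun f : Fin k → Fin n => B f).card : ℝ) ≤ p * (n : ℝ) ^ k)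
    (hp : 32 ^ q * p ≤ 1) :
    ((univ.filter fun c : Fin m → Fin k → Fin n =>
      m < q * (univ.filter fun j => B (c j)).card).card : ℝ) ≤
      (1 / 16) ^ m * (n : ℝ) ^ (k * m) := by
  obtain ⟨g, hg⟩ : ∃ g : (Fin k → Fin n) → ℝ, g = fun f => if B f then 32 ^ q else 1 := ⟨_, rfl⟩
  have hg0 : ∀ f, 0 ≤ g f := by
    intro f
    rw [hg]
    beta_reduce
    split_ifs <;> positivity
  have h1 : ∑ f, g f ≤ 2 * (n : ℝ) ^ k := by
    have h2 : ∀ f, g f ≤ 1 + if B f then (32 : ℝ) ^ q else 0 := by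
      intro f
      rw [hg]
      beta_reduce
      split_ifs
      · linarith
      · linarith
    refine (Finset.sum_le_sum fun f _ => h2 f).trans ?_
    rw [Finset.sum_add_distrib, Finset.sum_const, card_univ, Fintype.card_fun, Fintype.card_fin,
      Fintype.card_fin, nsmul_eq_mul, mul_one, ← Finset.sum_filter, Finset.sum_const, nsmul_eq_mul]
    have h4 : ((univ.filter fun f : Fin k → Fin n => B f).card : ℝ) * 32 ^ q ≤ (n : ℝ) ^ k := by
      calc ((univ.filter fun f : Fin k → Fin n => B f).card : ℝ) * 32 ^ q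
          ≤ (p * (n : ℝ) ^ k) * 32 ^ q := mul_le_mul_of_nonneg_right hB (by positivity)
        _ = (32 ^ q * p) * (n : ℝ) ^ k := by ring
        _ ≤ 1 * (n : ℝ) ^ k := mul_le_mul_of_nonneg_right hp (by positivity)
        _ = _ := one_mul _
    push_cast
    linarith
  have h2 : ∑ c : Fin m → Fin k → Fin n, ∏ j, g (c j) ≤ (2 * (n : ℝ) ^ k) ^ m := by
    rw [← Fintype.sum_pow g m]
    exact pow_le_pow_left₀ (Finset.sum_nonneg fun f _ => hg0 f) h1 m
  have h3 : ∀ c : Fin m → Fin k → Fin n,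
      m < q * (univ.filter fun j => B (c j)).card → (32 : ℝ) ^ m ≤ ∏ j, g (c j) := by
    intro c hc
    have h4 : ∏ j, g (c j) = 32 ^ (q * (univ.filter fun j => B (c j)).card) := by
      rw [hg]
      beta_reduce
      rw [Finset.prod_ite, Finset.prod_const, Finset.prod_const_one, mul_one, ← pow_mul]
    rw [h4]
    exact pow_le_pow_right₀ (by norm_num) hc.le
  have h5 : ((univ.filter fun c : Fin m → Fin k → Fin n =>
      m < q * (univ.filter fun j => B (c j)).card).card : ℝ) * 32 ^ m ≤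
      (2 * (n : ℝ) ^ k) ^ m := by
    refine le_trans ?_ h2
    rw [← nsmul_eq_mul, ← Finset.sum_const]
    refine (Finset.sum_le_sum fun c hc => h3 c (mem_filter.1 hc).2).trans ?_
    exact Finset.sum_le_sum_of_subset_of_nonneg (filter_subset _ _) fun c _ _ =>
      Finset.prod_nonneg fun j _ => hg0 _
  have h6 : (2 * (n : ℝ) ^ k) ^ m = ((1 / 16) ^ m * (n : ℝ) ^ (k * m)) * 32 ^ m := by
    rw [mul_pow, pow_mul]
    have : (2 : ℝ) ^ m = (1 / 16) ^ m * 32 ^ m := by
      rw [← mul_pow]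
      norm_num
    rw [this]
    ring
  rw [h6] at h5
  exact le_of_mul_le_mul_right h5 (by positivity)

open Classical in
/-- Existence of an expanding hypergraph with edges of size three in which few vertices meet few
edges. -/
theorem exists_hyp3 (m n r q : ℕ) (ξ : ℝ) (hn : 1 ≤ n) (hmn : n ≤ m)
    (hr : 2 * r ≤ n) (hc : 8192 * 3 ^ 12 * (m : ℝ) ^ 4 * r ≤ (n : ℝ) ^ 5)
    (hξ : 1 ≤ ξ * n) (hp : 32 ^ q * (6 * ξ) ≤ 1) :
    ∃ c : Fin m → Fin 3 → Fin n,
      (∀ J : Finset (Fin m), 1 ≤ J.card → J.card ≤ r → 7 * J.card ≤ 4 * (img c J).card) ∧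
      ∀ X : Finset (Fin n), (X.card : ℝ) ≤ ξ * n →
        q * (univ.filter fun j => Bad X (c j)).card ≤ m := by
  by_contra hcon
  push Not at hcon
  have hn0 : (0 : ℝ) < n := by exact_mod_cast hn
  have hsub : (univ : Finset (Fin m → Fin 3 → Fin n)) ⊆
      (univ.filter fun c : Fin m → Fin 3 → Fin n => ∃ J : Finset (Fin m), 1 ≤ J.card ∧
      J.card ≤ r ∧ 4 * (img c J).card < 7 * J.card) ∪
      (univ.filter fun X : Finset (Fin n) => (X.card : ℝ) ≤ ξ * n).biUnion fun X =>
        univ.filter fun c : Fin m → Fin 3 → Fin n =>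
          m < q * (univ.filter fun j => Bad X (c j)).card := by
    intro c _
    rw [mem_union]
    by_cases h1 : ∀ J : Finset (Fin m), 1 ≤ J.card → J.card ≤ r →
        7 * J.card ≤ 4 * (img c J).card
    · right
      obtain ⟨U, hU1, hU2⟩ := hcon c h1
      rw [mem_biUnion]
      exact ⟨U, mem_filter.2 ⟨mem_univ _, hU1⟩, mem_filter.2 ⟨mem_univ _, hU2⟩⟩
    · left
      push Not at h1
      obtain ⟨J, h2, h3, h4⟩ := h1
      exact mem_filter.2 ⟨mem_univ _, J, h2, h3, h4⟩
  have h1 : ((univ : Finset (Fin m → Fin 3 → Fin n)).card : ℝ) = (n : ℝ) ^ (3 * m) := by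
    rw [card_univ, Fintype.card_fun, Fintype.card_fun, Fintype.card_fin, Fintype.card_fin,
      Fintype.card_fin]
    push_cast
    rw [← pow_mul]
  have h2 : (n : ℝ) ^ (3 * m) ≤ 1 / 3 * (n : ℝ) ^ (3 * m) +
      (2 : ℝ) ^ n * ((1 / 16) ^ m * (n : ℝ) ^ (3 * m)) := by
    rw [← h1]
    refine le_trans (b := (((univ.filter fun c : Fin m → Fin 3 → Fin n =>
      ∃ J : Finset (Fin m), 1 ≤ J.card ∧ J.card ≤ r ∧
        4 * (img c J).card < 7 * J.card).card : ℝ) +
      ∑ X ∈ univ.filter fun X : Finset (Fin n) => (X.card : ℝ) ≤ ξ * n,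
        ((univ.filter fun c : Fin m → Fin 3 → Fin n =>
          m < q * (univ.filter fun j => Bad X (c j)).card).card : ℝ))) ?_ ?_
    · have h3 := (Finset.card_le_card hsub).trans (Finset.card_union_le _ _)
      have h4 := h3.trans (Nat.add_le_add_left Finset.card_biUnion_le _)
      exact_mod_cast h4
    · rw [h1]
      refine add_le_add (card_nonexp3 m n r hn hr hc) ?_
      calc ∑ X ∈ univ.filter fun X : Finset (Fin n) => (X.card : ℝ) ≤ ξ * n,
          ((univ.filter fun c : Fin m → Fin 3 → Fin n =>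
            m < q * (univ.filter fun j => Bad X (c j)).card).card : ℝ)
          ≤ ∑ _X ∈ univ.filter fun X : Finset (Fin n) => (X.card : ℝ) ≤ ξ * n,
            ((1 / 16 : ℝ) ^ m * (n : ℝ) ^ (3 * m)) := by
            refine Finset.sum_le_sum fun X hX => ?_
            exact card_nonspread3 m q (Bad X) (6 * ξ) (card_bad X ξ (mem_filter.1 hX).2 hξ) hp
        _ ≤ ∑ _X : Finset (Fin n), ((1 / 16 : ℝ) ^ m * (n : ℝ) ^ (3 * m)) :=
            Finset.sum_le_sum_of_subset_of_nonneg (filter_subset _ _) fun _ _ _ => by positivity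
        _ = _ := by
            rw [Finset.sum_const, card_univ, Fintype.card_finset, Fintype.card_fin, nsmul_eq_mul]
            push_cast
            ring
  have h3 : (2 : ℝ) ^ n * (1 / 16) ^ m ≤ 1 / 8 := by
    have h4 : (2 : ℝ) ^ n ≤ 2 ^ m := pow_le_pow_right₀ (by norm_num) hmn
    calc (2 : ℝ) ^ n * (1 / 16) ^ m ≤ 2 ^ m * (1 / 16) ^ m :=
          mul_le_mul_of_nonneg_right h4 (by positivity)
      _ = (1 / 8) ^ m := by rw [← mul_pow]; norm_num
      _ ≤ (1 / 8) ^ 1 := pow_le_pow_of_le_one (by norm_num) (by norm_num) (hn.trans hmn)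
      _ = _ := by norm_num
  have h4 : (0 : ℝ) < (n : ℝ) ^ (3 * m) := by positivity
  have h5 : (2 : ℝ) ^ n * ((1 / 16) ^ m * (n : ℝ) ^ (3 * m)) ≤ 1 / 8 * (n : ℝ) ^ (3 * m) := by
    rw [← mul_assoc]
    exact mul_le_mul_of_nonneg_right h3 h4.le
  linarith

end Pool.Agent.W888.GX
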