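import Pool.Agent.W888.GX.Sys
import Pool.Agent.W888.UG.Model

set_option autoImplicit false
set_option linter.unusedSectionVars false

/-!
Clauses, the relaxation, and the pseudo-expectation of a large set of assignments.
-/

namespace Pool.Agent.W888.GX

open Finset Matrix
open Pool.Agent.W888.UG (lab lab_apply)

/-- A clause with `k` literals over `n` variables: the literal `(v, s)` is true if `x v = s`
(`s = 1`: a variable, `s = 0`: a negated variable). -/
abbrev Clause (k n : ℕ) : Type := Fin k → Fin n × ZMod 2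

/-- The assignment `x` satisfies the clause `C`. -/
def Satisfies {k n : ℕ} (x : Fin n → ZMod 2) (C : Clause k n) : Prop := ∃ l, x (C l).1 = (C l).2

open Classical in
/-- The number of clauses of the formula `F` which `x` falsifies. -/
noncomputable def falsified {k n : ℕ} {I : Type} [Fintype I] (F : I → Clause k n)
    (x : Fin n → ZMod 2) : ℕ :=
  (univ.filter fun i => ¬ Satisfies x (F i)).card

/-- The points (numbers `μ v a` for the variables `v` and values `a`) which the sum-of-squares
relaxation of degree `2 D` does not exclude when it is used to prove that more than `β` clauses of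
`F` are falsified: there is a pseudo-expectation `L` of degree `2 D` with `μ v a = L [x v = a]`
for which the expected number of falsified clauses is at most `β`. -/
def Relax {k n : ℕ} {I : Type} [Fintype I] (D : ℕ) (F : I → Clause k n) (β : ℝ) :
    Set (Fin n → ZMod 2 → ℝ) :=
  {μ | ∃ L : ((Fin n → ZMod 2) → ℝ) →ₗ[ℝ] ℝ, IsPseudoExpectation D L ∧
    (∀ v a, μ v a = L (fun x => if x v = a then 1 else 0)) ∧
    L (fun x => (falsified F x : ℝ)) ≤ β}

/-- the number of violated equations -/
noncomputable def viol {n m k : ℕ} (c : Fin m → Fin k → Fin n) (b : Fin m → ZMod 2)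
    (x : Fin n → ZMod 2) : ℝ :=
  ∑ j, if ∑ s, x (c j s) = b j then 0 else 1

theorem Lf_ind {V : Type} [Fintype V] [DecidableEq V] (l : (V → ZMod 2) → ℝ) (h0 : l 0 = 1)
    (v : V) (a : ZMod 2) :
    Lf l (fun x => if x v = a then 1 else 0) = (1 + sg a * l (Pi.single v 1)) / 2 := by
  have h1 : (fun x : V → ZMod 2 => if x v = a then (1 : ℝ) else 0) =
      (1 / 2 : ℝ) • (chi 0 : (V → ZMod 2) → ℝ) +
        (sg a / 2) • (chi (Pi.single v 1) : (V → ZMod 2) → ℝ) := by
    funext x
    rw [Pi.add_apply, Pi.smul_apply, Pi.smul_apply, chi_zero, smul_eq_mul, smul_eq_mul]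
    unfold chi
    rw [single_one_dotProduct]
    rcases z2 (x v) with h | h <;> rcases z2 a with rfl | rfl
    · rw [h, if_pos rfl, sg_zero]; norm_num
    · rw [h, if_neg (by decide), sg_zero, sg_one]; norm_num
    · rw [h, if_neg (by decide), sg_zero, sg_one]; norm_num
    · rw [h, if_pos rfl, sg_one]; norm_num
  rw [h1, map_add, map_smul, map_smul, Lf_chi, Lf_chi, h0, smul_eq_mul, smul_eq_mul]
  ring

theorem Lf_viol {n m k : ℕ} (l : (Fin n → ZMod 2) → ℝ) (h0 : l 0 = 1)
    (c : Fin m → Fin k → Fin n) (b : Fin m → ZMod 2) :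
    Lf l (viol c b) = ∑ j, (1 - sg (b j) * l (row c j)) / 2 := by
  have h1 : viol c b = ∑ j, ((1 / 2 : ℝ) • (chi 0 : (Fin n → ZMod 2) → ℝ) -
      (sg (b j) / 2) • (chi (row c j) : (Fin n → ZMod 2) → ℝ)) := by
    funext x
    rw [Finset.sum_apply]
    unfold viol
    refine Finset.sum_congr rfl fun j _ => ?_
    rw [Pi.sub_apply, Pi.smul_apply, Pi.smul_apply, chi_zero, smul_eq_mul, smul_eq_mul]
    unfold chi
    rw [row_dot]
    rcases z2 (∑ s, x (c j s)) with h | h <;> rcases z2 (b j) with h' | h'
    · rw [h, h', if_pos rfl, sg_zero]; norm_num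
    · rw [h, h', if_neg (by decide), sg_zero, sg_one]; norm_num
    · rw [h, h', if_neg (by decide), sg_zero, sg_one]; norm_num
    · rw [h, h', if_pos rfl, sg_one]; norm_num
  rw [h1, map_sum]
  refine Finset.sum_congr rfl fun j _ => ?_
  rw [map_sub, map_smul, map_smul, Lf_chi, Lf_chi, h0, smul_eq_mul, smul_eq_mul]
  ring

/-- the support of an assignment -/
def supp {n : ℕ} (x : Fin n → ZMod 2) : Finset (Fin n) := univ.filter fun v => x v = 1

theorem supp_injective {n : ℕ} : Function.Injective (supp (n := n)) := by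
  intro x y h
  funext v
  have h1 : v ∈ supp x ↔ v ∈ supp y := by rw [h]
  unfold supp at h1
  simp only [mem_filter, mem_univ, true_and] at h1
  rcases z2 (x v) with hx | hx <;> rcases z2 (y v) with hy | hy
  · rw [hx, hy]
  · rw [hx, hy] at h1; exact absurd (h1.2 rfl) (by decide)
  · rw [hx, hy] at h1; exact absurd (h1.1 rfl) (by decide)
  · rw [hx, hy]

theorem sum_sg_powerset {n : ℕ} (U : Finset (Fin n)) (v : Fin n) (hv : v ∈ U)
    (f : Finset (Fin n) → ℝ) (hf : ∀ T, f T = if v ∈ T then -1 else 1) :
    ∑ T ∈ U.powerset, f T = 0 := by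
  classical
  rw [← Finset.insert_erase hv, Finset.sum_powerset_insert (Finset.notMem_erase v U),
    ← Finset.sum_add_distrib]
  refine Finset.sum_eq_zero fun T hT => ?_
  rw [mem_powerset] at hT
  have h1 : v ∉ T := fun h => Finset.notMem_erase v U (hT h)
  rw [hf, hf, if_neg h1, if_pos (mem_insert_self v T)]
  norm_num

/-- A large set of assignments, contained in a convex set, gives a point of the relaxation. -/
theorem core {n m k r0 D : ℕ} (hk : 2 ≤ k) (hr0 : 1 ≤ r0) (hD : 8 * D ≤ r0)
    (c : Fin m → Fin k → Fin n) (b : Fin m → ZMod 2)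
    (hc : ∀ J : Finset (Fin m), 1 ≤ J.card → J.card ≤ 2 * r0 → (k - 2) * J.card ≤ (img c J).card)
    (S : Finset (Fin n → ZMod 2)) (U : Finset (Fin n)) (hU : (S.image supp).Shatters U)
    (C : Set (Fin n → ZMod 2 → ℝ)) (hC : Convex ℝ C) (hS : ∀ x ∈ S, lab x ∈ C) :
    ∃ L : ((Fin n → ZMod 2) → ℝ) →ₗ[ℝ] ℝ, IsPseudoExpectation D L ∧
      (fun v a => L (fun x => if x v = a then 1 else 0)) ∈ C ∧
      L (viol c b) ≤ ((univ.filter fun j => slots U (c j) < 6).card : ℝ) := by
  classical
  have hE := exp_of hk c hc U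
  -- representatives
  have hrep : ∀ T : Finset (Fin n), ∃ x : Fin n → ZMod 2, T ⊆ U → x ∈ S ∧ U ∩ supp x = T := by
    intro T
    by_cases hT : T ⊆ U
    · obtain ⟨A, hA, hAT⟩ := hU hT
      obtain ⟨x, hx, rfl⟩ := mem_image.1 hA
      exact ⟨x, fun _ => ⟨hx, hAT⟩⟩
    · exact ⟨0, fun h => absurd h hT⟩
  choose x hx using hrep
  obtain ⟨G, hG⟩ : ∃ G : Finset (Fin m), G = univ.filter fun j => 6 ≤ slots U (c j) := ⟨_, rfl⟩
  rw [← hG] at hE
  obtain ⟨l, hl⟩ : ∃ l : Finset (Fin n) → (Fin n → ZMod 2) → ℝ,
      l = fun T => ell (row c) b U G r0 (x T) := ⟨_, rfl⟩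
  have hpe : ∀ T, IsPseudoExpectation D (Lf (l T)) := by
    intro T
    rw [hl]
    exact pe hE D hD
  have hl0 : ∀ T, l T 0 = 1 := by
    intro T
    rw [← Lf_chi (l T) 0]
    have h1 := (hpe T).1
    have h2 : (fun _ : Fin n → ZMod 2 => (1 : ℝ)) = chi 0 := by
      funext y
      rw [chi_zero]
    rw [h2] at h1
    exact h1
  have hN : (0 : ℝ) < (U.powerset.card : ℝ) := by
    exact_mod_cast Finset.card_pos.2 ⟨∅, Finset.empty_mem_powerset U⟩
  obtain ⟨L, hL⟩ : ∃ L : ((Fin n → ZMod 2) → ℝ) →ₗ[ℝ] ℝ,
      ∀ f, L f = (1 / (U.powerset.card : ℝ)) * ∑ T ∈ U.powerset, Lf (l T) f := by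
    refine ⟨(1 / (U.powerset.card : ℝ)) • ∑ T ∈ U.powerset, Lf (l T), fun f => ?_⟩
    rw [LinearMap.smul_apply, LinearMap.sum_apply, smul_eq_mul]
  have hconst : ∀ z : ℝ, (1 / (U.powerset.card : ℝ)) * ∑ _T ∈ U.powerset, z = z := by
    intro z
    rw [Finset.sum_const, nsmul_eq_mul]
    field_simp
  refine ⟨L, ⟨?_, ?_⟩, ?_, ?_⟩
  · rw [hL, Finset.sum_congr rfl fun T _ => (hpe T).1, hconst]
  · intro f hf
    rw [hL]
    exact mul_nonneg (by positivity) (Finset.sum_nonneg fun T _ => (hpe T).2 f hf)
  · have h1 : (fun (v : Fin n) (a : ZMod 2) => L (fun x => if x v = a then 1 else 0)) =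
        ∑ T ∈ U.powerset, (1 / (U.powerset.card : ℝ)) • lab (x T) := by
      funext v a
      rw [Finset.sum_apply, Finset.sum_apply, hL, Finset.mul_sum]
      simp only [Lf_ind _ (hl0 _), Pi.smul_apply, smul_eq_mul]
      by_cases hv : v ∈ U
      · have h2 : ∀ T, l T (Pi.single v 1) = 0 := by
          intro T
          rw [hl]
          exact ell_single_in hE hv
        have h3 : ∑ T ∈ U.powerset, sg (x T v) = 0 := by
          have h4 : ∑ T ∈ U.powerset, sg (x T v) =
              ∑ T ∈ U.powerset, (if v ∈ T then (-1 : ℝ) else 1) := by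
            refine Finset.sum_congr rfl fun T hT => ?_
            have h5 := (hx T (mem_powerset.1 hT)).2
            by_cases hvT : v ∈ T
            · rw [if_pos hvT]
              rw [← h5, mem_inter, supp, mem_filter] at hvT
              rw [hvT.2.2, sg_one]
            · rw [if_neg hvT]
              rw [← h5, mem_inter, supp, mem_filter, not_and, not_and] at hvT
              rw [(z2 (x T v)).resolve_right (hvT hv (mem_univ _)), sg_zero]
          rw [h4]
          exact sum_sg_powerset U v hv _ fun _ => rfl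
        have h6 : ∀ T, lab (x T) v a = (1 + sg a * sg (x T v)) / 2 := by
          intro T
          rw [lab_apply]
          rcases z2 (x T v) with h | h <;> rcases z2 a with rfl | rfl
          · rw [h, if_pos rfl, sg_zero]; norm_num
          · rw [h, if_neg (by decide), sg_zero, sg_one]; norm_num
          · rw [h, if_neg (by decide), sg_zero, sg_one]; norm_num
          · rw [h, if_pos rfl, sg_one]; norm_num
        simp only [h2, h6, mul_zero, add_zero]
        rw [← Finset.mul_sum, ← Finset.mul_sum, hconst, ← Finset.sum_div, Finset.sum_add_distrib,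
          ← Finset.mul_sum, h3, mul_zero, add_zero, Finset.sum_div, hconst]
      · refine Finset.sum_congr rfl fun T _ => ?_
        have h2 : l T (Pi.single v 1) = sg (x T v) := by
          rw [hl]
          exact ell_single_out hE hv
        rw [h2, lab_apply]
        congr 1
        rcases z2 (x T v) with h | h <;> rcases z2 a with rfl | rfl
        · rw [h, if_pos rfl, sg_zero]; norm_num
        · rw [h, if_neg (by decide), sg_zero, sg_one]; norm_num
        · rw [h, if_neg (by decide), sg_zero, sg_one]; norm_num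
        · rw [h, if_pos rfl, sg_one]; norm_num
    rw [h1]
    refine hC.sum_mem (fun T _ => by positivity) ?_ fun T hT => hS _ (hx T (mem_powerset.1 hT)).1
    rw [Finset.sum_const, nsmul_eq_mul]
    field_simp
  · rw [hL, ← hconst ((univ.filter fun j => slots U (c j) < 6).card : ℝ)]
    refine mul_le_mul_of_nonneg_left (Finset.sum_le_sum fun T _ => ?_) (by positivity)
    rw [Lf_viol _ (hl0 T), Finset.card_filter]
    push_cast
    refine Finset.sum_le_sum fun j _ => ?_
    by_cases hj : slots U (c j) < 6
    · rw [if_pos hj]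
      have h2 : |l T (row c j)| ≤ 1 := by
        rw [hl]
        exact ell_abs _
      have h3 := abs_le.1 h2
      rcases z2 (b j) with h | h
      · rw [h, sg_zero]; linarith
      · rw [h, sg_one]; linarith
    · rw [if_neg hj]
      have h2 : l T (row c j) = sg (b j) := by
        rw [hl]
        refine ell_row hE hr0 ?_
        rw [hG, mem_filter]
        exact ⟨mem_univ _, not_lt.1 hj⟩
      have h3 := sg_sq (b j)
      rw [h2, ← sq, h3]
      norm_num

end Pool.Agent.W888.GX
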