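import Pool.Agent.W888.GX.Four
import Pool.Agent.W888.GX.Hyp

set_option autoImplicit false
set_option linter.unusedSectionVars false

/-!
The linear systems of expanding hypergraphs, and the Sauer-Shelah lemma for large sets.
-/

namespace Pool.Agent.W888.GX

open Finset Matrix

/-- the rows of the system -/
def row {n m k : ℕ} (c : Fin m → Fin k → Fin n) (j : Fin m) : Fin n → ZMod 2 :=
  fun v => ∑ s, if c j s = v then 1 else 0

theorem row_dot {n m k : ℕ} (c : Fin m → Fin k → Fin n) (j : Fin m) (x : Fin n → ZMod 2) :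
    row c j ⬝ᵥ x = ∑ s, x (c j s) := by
  unfold row dotProduct
  simp only [Finset.sum_mul]
  rw [Finset.sum_comm]
  refine Finset.sum_congr rfl fun s _ => ?_
  rw [Finset.sum_eq_single (c j s)]
  · rw [if_pos rfl, one_mul]
  · intro v _ hv
    rw [if_neg (Ne.symm hv), zero_mul]
  · intro h
    exact absurd (mem_univ _) h

/-- multiplicity of a variable -/
def mu {n m k : ℕ} (c : Fin m → Fin k → Fin n) (J : Finset (Fin m)) (v : Fin n) : ℕ :=
  ∑ j ∈ J, ∑ s, if c j s = v then 1 else 0

theorem rs_eq {n m k : ℕ} (c : Fin m → Fin k → Fin n) (a : Fin m → ZMod 2) (v : Fin n) :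
    rs (row c) a v = (mu c (univ.filter fun j => a j ≠ 0) v : ZMod 2) := by
  unfold rs mu row
  rw [Finset.sum_filter]
  push_cast
  refine Finset.sum_congr rfl fun j _ => ?_
  split_ifs with h
  · rw [(z2 (a j)).resolve_left h, one_mul]
  · rw [not_not.1 h, zero_mul]

theorem sum_mu {n m k : ℕ} (c : Fin m → Fin k → Fin n) (J : Finset (Fin m)) :
    ∑ v, mu c J v = k * J.card := by
  unfold mu
  rw [Finset.sum_comm]
  have : ∀ j ∈ J, ∑ v, ∑ s, (if c j s = v then 1 else 0) = k := by
    intro j _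
    rw [Finset.sum_comm]
    simp
  rw [Finset.sum_congr rfl this, Finset.sum_const, smul_eq_mul, mul_comm]

theorem sum_mu_U {n m k : ℕ} (c : Fin m → Fin k → Fin n) (J : Finset (Fin m))
    (U : Finset (Fin n)) : ∑ v ∈ U, mu c J v = ∑ j ∈ J, slots U (c j) := by
  unfold mu
  rw [Finset.sum_comm]
  refine Finset.sum_congr rfl fun j _ => ?_
  rw [Finset.sum_comm, slots, Finset.card_filter]
  refine Finset.sum_congr rfl fun s _ => ?_
  rw [Finset.sum_ite_eq]

theorem img_card {n m k : ℕ} (c : Fin m → Fin k → Fin n) (J : Finset (Fin m)) :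
    (img c J).card = ∑ v, if 1 ≤ mu c J v then 1 else 0 := by
  rw [← Finset.card_filter]
  congr 1
  ext v
  rw [mem_filter, img, mem_biUnion]
  unfold mu
  constructor
  · rintro ⟨j, hj, hv⟩
    rw [mem_image] at hv
    obtain ⟨s, -, hs⟩ := hv
    refine ⟨mem_univ _, ?_⟩
    refine le_trans ?_ (Finset.single_le_sum (fun _ _ => Nat.zero_le _) hj)
    refine le_trans ?_ (Finset.single_le_sum (fun _ _ => Nat.zero_le _) (mem_univ s))
    rw [if_pos hs]
  · rintro ⟨-, h⟩
    by_contra hcon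
    push Not at hcon
    have : ∑ j ∈ J, ∑ s, (if c j s = v then 1 else 0) = 0 := by
      refine Finset.sum_eq_zero fun j hj => Finset.sum_eq_zero fun s _ => ?_
      refine if_neg fun h => hcon j hj ?_
      rw [mem_image]
      exact ⟨s, mem_univ _, h⟩
    omega

/-- many variables of `U` occur exactly once -/
theorem once {n m k : ℕ} (c : Fin m → Fin k → Fin n) (J : Finset (Fin m)) (U : Finset (Fin n)) :
    2 * (img c J).card + ∑ j ∈ J, slots U (c j) ≤
      (U.filter fun v => mu c J v = 1).card + 2 * (k * J.card) := by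
  have hU : ∀ f : Fin n → ℕ, ∑ v ∈ U, f v = ∑ v, if v ∈ U then f v else 0 := by
    intro f
    rw [Finset.sum_ite_mem, Finset.univ_inter]
  rw [← sum_mu_U, img_card, ← sum_mu c J, Finset.card_filter, Finset.mul_sum, Finset.mul_sum,
    hU, hU, ← Finset.sum_add_distrib, ← Finset.sum_add_distrib]
  refine Finset.sum_le_sum fun v _ => ?_
  by_cases hv : v ∈ U
  · rw [if_pos hv, if_pos hv]
    split_ifs <;> omega
  · rw [if_neg hv, if_neg hv]
    split_ifs <;> omega

/-- The system restricted to the constraints with at least six slots in `U` expands. -/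
theorem exp_of {n m k r : ℕ} (hk : 2 ≤ k) (c : Fin m → Fin k → Fin n)
    (hc : ∀ J : Finset (Fin m), 1 ≤ J.card → J.card ≤ r → (k - 2) * J.card ≤ (img c J).card)
    (U : Finset (Fin n)) :
    Exp (row c) U (univ.filter fun j => 6 ≤ slots U (c j)) r := by
  intro a ha hr hne
  obtain ⟨J, hJ⟩ : ∃ J, J = univ.filter fun j => a j ≠ 0 := ⟨_, rfl⟩
  have hwt : wt a = J.card := by rw [hJ]; rfl
  have hpos : 1 ≤ J.card := by
    rw [Nat.one_le_iff_ne_zero]
    intro h
    exact hne (wt_eq_zero (hwt.trans h))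
  have h1 := hc J hpos (by rw [← hwt]; exact hr)
  have h2 := once c J U
  have h3 : 6 * J.card ≤ ∑ j ∈ J, slots U (c j) := by
    rw [mul_comm, ← smul_eq_mul, ← Finset.sum_const]
    refine Finset.sum_le_sum fun j hj => ?_
    rw [hJ, mem_filter] at hj
    by_contra hcon
    refine hj.2 (ha j ?_)
    rw [mem_filter, not_and]
    intro _
    exact hcon
  have h4 : (U.filter fun v => mu c J v = 1).card ≤
      (U.filter fun v => rs (row c) a v ≠ 0).card := by
    refine Finset.card_le_card fun v hv => ?_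
    rw [mem_filter] at hv ⊢
    refine ⟨hv.1, ?_⟩
    rw [rs_eq, ← hJ, hv.2]
    decide
  have h5 : k * J.card = (k - 2) * J.card + 2 * J.card := by
    rw [← add_mul, Nat.sub_add_cancel hk]
  rw [hwt]
  constructor <;> omega

theorem sum_choose_le {n d : ℕ} {t : ℝ} (ht0 : 0 < t) (ht1 : t ≤ 1) :
    ((∑ i ∈ Finset.Iic d, n.choose i : ℕ) : ℝ) * t ^ d ≤ (1 + t) ^ n := by
  have h1 : (1 + t) ^ n = ∑ i ∈ range (n + 1), t ^ i * (n.choose i : ℝ) := by
    rw [add_comm 1 t, add_pow]
    refine Finset.sum_congr rfl fun i _ => ?_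
    rw [one_pow, mul_one]
  rw [h1]
  push_cast
  rw [Finset.sum_mul]
  have h2 : ∀ i ∈ Finset.Iic d, (n.choose i : ℝ) * t ^ d ≤ t ^ i * (n.choose i : ℝ) := by
    intro i hi
    rw [mul_comm]
    exact mul_le_mul_of_nonneg_right (pow_le_pow_of_le_one ht0.le ht1 (mem_Iic.1 hi))
      (by positivity)
  refine (Finset.sum_le_sum h2).trans ?_
  have h3 : ∑ i ∈ Finset.Iic d, t ^ i * (n.choose i : ℝ) =
      ∑ i ∈ (Finset.Iic d).filter fun i => i ∈ range (n + 1), t ^ i * (n.choose i : ℝ) := by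
    rw [Finset.sum_filter]
    refine Finset.sum_congr rfl fun i _ => ?_
    split_ifs with h
    · rfl
    · rw [mem_range, not_lt] at h
      rw [Nat.choose_eq_zero_of_lt (by omega)]
      simp
  rw [h3]
  refine Finset.sum_le_sum_of_subset_of_nonneg ?_ fun i _ _ => by positivity
  intro i hi
  exact (mem_filter.1 hi).2

/-- A family of at least `exp (κ (1 + log (1 / κ)) n)` sets shatters a set of at least `κ n`
elements. -/
theorem shatter_big (κ : ℝ) (h0 : 0 < κ) (h1 : κ < 1) (n : ℕ) (hn : 1 ≤ n)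
    (𝒜 : Finset (Finset (Fin n)))
    (hA : Real.exp (κ * (1 + Real.log (1 / κ)) * n) ≤ 𝒜.card) :
    ∃ U : Finset (Fin n), 𝒜.Shatters U ∧ κ * n ≤ U.card := by
  have hlt : 0 < Real.log (1 / κ) := Real.log_pos (by rw [one_div]; exact (one_lt_inv₀ h0).2 h1)
  have hn0 : (0 : ℝ) < n := by exact_mod_cast hn
  have hpos : 0 < 𝒜.card := by
    have : (0 : ℝ) < 𝒜.card := lt_of_lt_of_le (by positivity) hA
    exact_mod_cast this
  have hne : 𝒜.shatterer.Nonempty := Finset.card_pos.1 (hpos.trans_le 𝒜.card_le_card_shatterer)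
  obtain ⟨U, hU, hUc⟩ := Finset.exists_mem_eq_sup 𝒜.shatterer hne Finset.card
  refine ⟨U, Finset.mem_shatterer.1 hU, ?_⟩
  by_contra hcon
  push Not at hcon
  have hvc : 𝒜.vcDim = U.card := hUc
  have h2 : (𝒜.card : ℝ) ≤ ((∑ i ∈ Finset.Iic U.card, n.choose i : ℕ) : ℝ) := by
    have h3 := 𝒜.card_le_card_shatterer.trans Finset.card_shatterer_le_sum_vcDim
    rw [hvc, Fintype.card_fin] at h3
    exact_mod_cast h3
  have h3 := sum_choose_le (n := n) (d := U.card) h0 h1.le
  have h4 : (1 + κ) ^ n ≤ Real.exp (κ * n) := by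
    rw [mul_comm, Real.exp_nat_mul]
    refine pow_le_pow_left₀ (by positivity) ?_ _
    have := Real.add_one_le_exp κ
    linarith
  have h5 : κ ^ U.card = Real.exp (-(Real.log (1 / κ) * U.card)) := by
    rw [one_div, Real.log_inv, neg_mul, neg_neg, mul_comm, Real.exp_nat_mul, Real.exp_log h0]
  have h6 : (𝒜.card : ℝ) * Real.exp (-(Real.log (1 / κ) * U.card)) ≤ Real.exp (κ * n) := by
    rw [← h5]
    refine le_trans (mul_le_mul_of_nonneg_right h2 (by positivity)) (h3.trans h4)
  have h8 : Real.exp (κ * (1 + Real.log (1 / κ)) * n) *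
      Real.exp (-(Real.log (1 / κ) * U.card)) ≤ Real.exp (κ * n) :=
    (mul_le_mul_of_nonneg_right hA (Real.exp_pos _).le).trans h6
  rw [← Real.exp_add, Real.exp_le_exp] at h8
  have h9 : Real.log (1 / κ) * U.card < Real.log (1 / κ) * (κ * n) :=
    mul_lt_mul_of_pos_left hcon hlt
  nlinarith

end Pool.Agent.W888.GX
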