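import Pool.Agent.W888.GX.Hyp3
import Pool.Agent.W888.GX.Fin

set_option autoImplicit false
set_option linter.unusedSectionVars false

/-!
Branch-and-cut over sum-of-squares relaxations of linear degree for 3-CNF formulas.
-/

namespace Pool.Agent.W888.GX

open Finset Matrix
open Pool.Agent.W888.UG (lab lab_apply Tree SplitProof cover_of_tree tree_of_split)

/-- The rows which are not bad expand. -/
theorem exp3_of {n m r : ℕ} (c : Fin m → Fin 3 → Fin n)
    (hc : ∀ J : Finset (Fin m), 1 ≤ J.card → J.card ≤ r → 7 * J.card ≤ 4 * (img c J).card)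
    (X : Finset (Fin n)) (G : Finset (Fin m)) (hG : ∀ j ∈ G, ¬ Bad X (c j)) :
    Exp (row c) Xᶜ G r := by
  intro a ha hr hne
  obtain ⟨J, hJ⟩ : ∃ J, J = univ.filter fun j => a j ≠ 0 := ⟨_, rfl⟩
  have hwt : wt a = J.card := by rw [hJ]; rfl
  have hpos : 1 ≤ J.card := by
    rw [Nat.one_le_iff_ne_zero]
    intro h
    exact hne (wt_eq_zero (hwt.trans h))
  have hJG : ∀ j ∈ J, ¬ Bad X (c j) := by
    intro j hj
    refine hG j ?_
    by_contra hcon
    rw [hJ, mem_filter] at hj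
    exact hj.2 (ha j hcon)
  have h1 := hc J hpos (by rw [← hwt]; exact hr)
  have h2 := once c J Xᶜ
  have h3 : 3 * J.card ≤ ∑ j ∈ J, slots Xᶜ (c j) := by
    rw [mul_comm, ← smul_eq_mul, ← Finset.sum_const]
    refine Finset.sum_le_sum fun j hj => ?_
    have h4 := not_not.1 (hJG j hj)
    have h5 : (univ.filter fun s => c j s ∈ Xᶜ) = univ := by
      refine filter_true_of_mem fun s _ => mem_compl.2 (h4.2 s)
    unfold slots
    rw [h5, card_univ, Fintype.card_fin]
  have h4 : (Xᶜ.filter fun v => mu c J v = 1).card ≤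
      (Xᶜ.filter fun v => rs (row c) a v ≠ 0).card := by
    refine Finset.card_le_card fun v hv => ?_
    rw [mem_filter] at hv ⊢
    refine ⟨hv.1, ?_⟩
    rw [rs_eq, ← hJ, hv.2]
    decide
  have h5 : J.card = 1 → (img c J).card = 3 := by
    intro h
    obtain ⟨j, hj⟩ := Finset.card_eq_one.1 h
    have h6 := (not_not.1 (hJG j (by rw [hj]; exact mem_singleton_self j))).1
    rw [hj, img, singleton_biUnion, Finset.card_image_of_injective _ h6, card_univ,
      Fintype.card_fin]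
  rw [hwt]
  constructor
  · omega
  · by_cases h6 : J.card = 1
    · have := h5 h6
      omega
    · omega

/-- A pseudo-expectation with prescribed marginals, almost uniform outside `X`. -/
theorem near_pe {n m r0 D : ℕ} (hr0 : 1 ≤ r0) (hD : 8 * D ≤ r0)
    (c : Fin m → Fin 3 → Fin n) (b : Fin m → ZMod 2)
    (hc : ∀ J : Finset (Fin m), 1 ≤ J.card → J.card ≤ 2 * r0 → 7 * J.card ≤ 4 * (img c J).card)
    (X : Finset (Fin n)) (τ : ℝ) (hτ : 0 < τ) (hτ1 : τ ≤ 1) (p : Fin n → ZMod 2 → ℝ)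
    (hp0 : ∀ v a, 0 ≤ p v a) (hp1 : ∀ v, ∑ a, p v a = 1)
    (hpX : ∀ v ∉ X, ∀ a, (1 - τ) * (1 / 2) ≤ p v a) (B : Finset (Fin m))
    (hB : ∀ j ∉ B, ¬ Bad X (c j)) :
    ∃ L : ((Fin n → ZMod 2) → ℝ) →ₗ[ℝ] ℝ, IsPseudoExpectation D L ∧
      (∀ v a, p v a = L (fun x => if x v = a then 1 else 0)) ∧
      L (viol c b) ≤ B.card + τ * m := by
  classical
  have hE := exp3_of c hc X Bᶜ fun j hj => hB j (mem_compl.1 hj)
  obtain ⟨t, ht⟩ : ∃ t : Fin n → ZMod 2 → ℝ,
      t = fun v a => if v ∈ X then p v a else (p v a - (1 - τ) * (1 / 2)) / τ := ⟨_, rfl⟩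
  have ht0 : ∀ v a, 0 ≤ t v a := by
    intro v a
    rw [ht]
    beta_reduce
    split_ifs with hv
    · exact hp0 v a
    · exact div_nonneg (by linarith [hpX v hv a]) hτ.le
  have ht1 : ∀ v, ∑ a, t v a = 1 := by
    intro v
    rw [ht]
    beta_reduce
    by_cases hv : v ∈ X
    · simp only [if_pos hv]
      exact hp1 v
    · simp only [if_neg hv]
      rw [← Finset.sum_div, Finset.sum_sub_distrib, hp1, Finset.sum_const, card_univ, ZMod.card,
        nsmul_eq_mul, div_eq_one_iff_eq hτ.ne']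
      push_cast
      ring
  obtain ⟨ν, hν⟩ : ∃ ν : (Fin n → ZMod 2) → ℝ, ν = fun w => ∏ v, t v (w v) := ⟨_, rfl⟩
  have hν0 : ∀ w, 0 ≤ ν w := by
    intro w
    rw [hν]
    exact Finset.prod_nonneg fun v _ => ht0 v _
  have hν1 : ∑ w, ν w = 1 := by
    rw [hν]
    exact Pool.Agent.W888.UG.prod_marg t ht1
  have hνm : ∀ v a, ∑ w, ν w * (if w v = a then 1 else 0) = t v a := by
    intro v a
    rw [hν]
    exact Pool.Agent.W888.UG.prod_marg' t ht1 v a
  obtain ⟨l, hl⟩ : ∃ l : (Fin n → ZMod 2) → (Fin n → ZMod 2) → ℝ,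
      l = fun w => ell (row c) b Xᶜ Bᶜ r0 w := ⟨_, rfl⟩
  have hpe : ∀ w, IsPseudoExpectation D (Lf (l w)) := by
    intro w
    rw [hl]
    exact pe hE D hD
  have hl0 : ∀ w, l w 0 = 1 := by
    intro w
    rw [← Lf_chi (l w) 0]
    have h1 := (hpe w).1
    have h2 : (fun _ : Fin n → ZMod 2 => (1 : ℝ)) = chi 0 := by
      funext y
      rw [chi_zero]
    rw [h2] at h1
    exact h1
  obtain ⟨L, hL⟩ : ∃ L : ((Fin n → ZMod 2) → ℝ) →ₗ[ℝ] ℝ,
      ∀ f, L f = ∑ w, ν w * ((1 - τ) * Lf (l w) f + τ * f w) := by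
    refine ⟨∑ w, (ν w • ((1 - τ) • Lf (l w) + τ • LinearMap.proj w)), fun f => ?_⟩
    rw [LinearMap.sum_apply]
    refine Finset.sum_congr rfl fun w _ => ?_
    rw [LinearMap.smul_apply, LinearMap.add_apply, LinearMap.smul_apply, LinearMap.smul_apply,
      LinearMap.proj_apply, smul_eq_mul, smul_eq_mul, smul_eq_mul]
  refine ⟨L, ⟨?_, ?_⟩, ?_, ?_⟩
  · rw [hL]
    simp only [(hpe _).1, mul_one]
    rw [← Finset.sum_mul, hν1]
    ring
  · intro f hf
    rw [hL]
    refine Finset.sum_nonneg fun w _ => mul_nonneg (hν0 w) (add_nonneg ?_ ?_)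
    · exact mul_nonneg (by linarith) ((hpe w).2 f hf)
    · exact mul_nonneg hτ.le (sq_nonneg _)
  · intro v a
    rw [hL]
    by_cases hv : v ∈ X
    · have h2 : ∀ w, Lf (l w) (fun x => if x v = a then (1 : ℝ) else 0) =
          if w v = a then 1 else 0 := by
        intro w
        rw [Lf_ind _ (hl0 w)]
        have h3 : l w (Pi.single v 1) = sg (w v) := by
          rw [hl]
          exact ell_single_out hE fun h => (mem_compl.1 h) hv
        rw [h3]
        rcases z2 (w v) with h4 | h4 <;> rcases z2 a with rfl | rfl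
        · rw [h4, if_pos rfl, sg_zero]; norm_num
        · rw [h4, if_neg (by decide), sg_zero, sg_one]; norm_num
        · rw [h4, if_neg (by decide), sg_zero, sg_one]; norm_num
        · rw [h4, if_pos rfl, sg_one]; norm_num
      have h3 : ∀ w, ν w * ((1 - τ) * Lf (l w) (fun x => if x v = a then (1 : ℝ) else 0) +
          τ * (if w v = a then 1 else 0)) = ν w * (if w v = a then 1 else 0) := by
        intro w
        rw [h2]
        ring
      rw [Finset.sum_congr rfl fun w _ => h3 w, hνm, ht]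
      beta_reduce
      rw [if_pos hv]
    · have h2 : ∀ w, Lf (l w) (fun x => if x v = a then (1 : ℝ) else 0) = 1 / 2 := by
        intro w
        rw [Lf_ind _ (hl0 w)]
        have h3 : l w (Pi.single v 1) = 0 := by
          rw [hl]
          exact ell_single_in hE (mem_compl.2 hv)
        rw [h3, mul_zero, add_zero]
      have h3 : ∀ w, ν w * ((1 - τ) * Lf (l w) (fun x => if x v = a then (1 : ℝ) else 0) +
          τ * (if w v = a then 1 else 0)) = ν w * ((1 - τ) * (1 / 2)) +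
            τ * (ν w * (if w v = a then 1 else 0)) := by
        intro w
        rw [h2]
        ring
      rw [Finset.sum_congr rfl fun w _ => h3 w, Finset.sum_add_distrib, ← Finset.sum_mul, hν1,
        ← Finset.mul_sum, hνm, ht]
      beta_reduce
      rw [if_neg hv]
      field_simp
      ring
  · rw [hL]
    have h1 : ∀ w, (1 - τ) * Lf (l w) (viol c b) + τ * viol c b w ≤ B.card + τ * m := by
      intro w
      have h2 : Lf (l w) (viol c b) ≤ B.card := by
        rw [Lf_viol _ (hl0 w)]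
        have h3 : ∀ j, (1 - sg (b j) * l w (row c j)) / 2 ≤ if j ∈ B then 1 else 0 := by
          intro j
          by_cases hj : j ∈ B
          · rw [if_pos hj]
            have h2 : |l w (row c j)| ≤ 1 := by
              rw [hl]
              exact ell_abs _
            have h3 := abs_le.1 h2
            rcases z2 (b j) with h | h
            · rw [h, sg_zero]; linarith
            · rw [h, sg_one]; linarith
          · rw [if_neg hj]
            have h2 : l w (row c j) = sg (b j) := by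
              rw [hl]
              exact ell_row hE hr0 (mem_compl.2 hj)
            have h3 := sg_sq (b j)
            rw [h2, ← sq, h3]
            norm_num
        refine (Finset.sum_le_sum fun j _ => h3 j).trans (le_of_eq ?_)
        rw [← Finset.sum_filter, Finset.sum_const, nsmul_eq_mul, mul_one]
        congr 2
        ext j
        rw [mem_filter]
        exact ⟨fun h => h.2, fun h => ⟨mem_univ _, h⟩⟩
      have h3 : viol c b w ≤ m := by
        unfold viol
        have h4 : ∀ j, (if ∑ s, w (c j s) = b j then (0 : ℝ) else 1) ≤ 1 := by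
          intro j
          split_ifs <;> norm_num
        refine (Finset.sum_le_sum fun j _ => h4 j).trans (le_of_eq ?_)
        rw [Finset.sum_const, card_univ, Fintype.card_fin, nsmul_eq_mul, mul_one]
      have h4 : (1 - τ) * Lf (l w) (viol c b) ≤ (1 - τ) * B.card :=
        mul_le_mul_of_nonneg_left h2 (by linarith)
      have h5 : (1 - τ) * (B.card : ℝ) ≤ 1 * B.card :=
        mul_le_mul_of_nonneg_right (by linarith) (Nat.cast_nonneg _)
      have h6 : τ * viol c b w ≤ τ * m := mul_le_mul_of_nonneg_left h3 hτ.le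
      linarith
    refine (Finset.sum_le_sum fun w _ => mul_le_mul_of_nonneg_left (h1 w) (hν0 w)).trans ?_
    rw [← Finset.sum_mul, hν1, one_mul]

/-- The main theorem, for covers by convex sets. -/
theorem main3 (δ : ℝ) (hδ : 0 < δ) (hδ1 : δ ≤ 1) :
    ∃ M : ℕ, 1 ≤ M ∧ ∃ γ : ℝ, 0 < γ ∧ ∃ n0 : ℕ, ∀ n : ℕ, n0 ≤ n →
      ∃ (I : Type) (_ : Fintype I) (F : I → Clause 3 n),
        Fintype.card I = 4 * (M * n) ∧
        (∀ x, (1 / 2 - δ) * (M * n) ≤ (falsified F x : ℝ)) ∧
        ∀ D : ℕ, (D : ℝ) ≤ γ * n →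
          ∀ Q : List (Set (Fin n → ZMod 2 → ℝ)), (∀ S ∈ Q, Convex ℝ S) →
            (∀ S ∈ Q, ∀ μ ∈ S, μ ∉ Relax D F (δ * (M * n))) →
            (∀ x : Fin n → ZMod 2, ∃ S ∈ Q, lab x ∈ S) →
            (2 : ℝ) ^ (γ * n) ≤ Q.length := by
  obtain ⟨q, hq⟩ := exists_nat_gt (2 / δ)
  have hq0 : (0 : ℝ) < q := lt_trans (by positivity) hq
  obtain ⟨M, hM⟩ := exists_nat_gt (Real.log 2 / (2 * δ ^ 2))
  have hlog : 0 < Real.log 2 := Real.log_pos (by norm_num)
  have hM0 : (0 : ℝ) < M := lt_of_le_of_lt (by positivity) hM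
  have hM1 : 1 ≤ M := by
    have : 0 < M := by exact_mod_cast hM0
    omega
  obtain ⟨ξ, hξd⟩ : ∃ ξ : ℝ, ξ = 1 / (6 * 32 ^ q) := ⟨_, rfl⟩
  have hξ0 : 0 < ξ := by rw [hξd]; positivity
  have hpξ : (32 : ℝ) ^ q * (6 * ξ) ≤ 1 := by
    rw [hξd]
    apply le_of_eq
    have : (0 : ℝ) < 32 ^ q := by positivity
    field_simp
  obtain ⟨K, hK⟩ : ∃ K : ℕ, K = 16384 * 3 ^ 12 * M ^ 4 := ⟨_, rfl⟩
  have hKpos : 0 < K := by
    rw [hK]
    have : 0 < M := by omega
    positivity
  have hK0 : (0 : ℝ) < K := by exact_mod_cast hKpos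
  obtain ⟨γ, hγ⟩ : ∃ γ : ℝ, γ = min (1 / (16 * (K : ℝ))) (ξ * (δ / 2) ^ 2 / 8) := ⟨_, rfl⟩
  have hγ0 : 0 < γ := by
    rw [hγ]
    exact lt_min (by positivity) (by positivity)
  refine ⟨M, hM1, γ, hγ0, 2 * K + 6 * 32 ^ q, ?_⟩
  intro n hn
  have hn1 : 1 ≤ n := by omega
  have hn0 : (0 : ℝ) < n := by exact_mod_cast hn1
  obtain ⟨r0, hr0⟩ : ∃ r0, r0 = n / K := ⟨_, rfl⟩
  have hr1 : 1 ≤ r0 := by
    rw [hr0, Nat.le_div_iff_mul_le hKpos]
    omega
  have hrn : r0 * K ≤ n := by
    rw [hr0]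
    exact Nat.div_mul_le_self n K
  obtain ⟨c, hc1, hc2⟩ := exists_hyp3 (M * n) n (2 * r0) q ξ hn1
    (Nat.le_mul_of_pos_left n hM1)
    (by
      have h4 : 4 ≤ K := by
        rw [hK]
        calc 4 ≤ 16384 * 3 ^ 12 * 1 := by norm_num
          _ ≤ _ := Nat.mul_le_mul_left _ (Nat.one_le_pow _ _ (by omega))
      calc 2 * (2 * r0) = r0 * 4 := by ring
        _ ≤ r0 * K := Nat.mul_le_mul_left _ h4
        _ ≤ n := hrn)
    (by
      have h1 : (r0 : ℝ) * K ≤ n := by exact_mod_cast hrn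
      push_cast
      calc 8192 * 3 ^ 12 * ((M : ℝ) * n) ^ 4 * (2 * r0) =
            ((r0 : ℝ) * (16384 * 3 ^ 12 * M ^ 4)) * n ^ 4 := by ring
        _ = ((r0 : ℝ) * K) * n ^ 4 := by
            rw [hK]
            push_cast
            ring
        _ ≤ n * n ^ 4 := mul_le_mul_of_nonneg_right h1 (by positivity)
        _ = (n : ℝ) ^ 5 := by ring)
    (by
      rw [hξd, one_div, inv_mul_eq_div, one_le_div (by positivity)]
      exact_mod_cast (by omega : 6 * 32 ^ q ≤ n)) hpξ
  obtain ⟨b, hb⟩ := Pool.Agent.H30R2.NS.exists_far (m := M * n) (γ := δ) hδ (by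
    rw [Fintype.card_fin]
    push_cast
    rw [div_lt_iff₀ (by positivity)] at hM
    calc Real.log 2 * n < (M * (2 * δ ^ 2)) * n := mul_lt_mul_of_pos_right hM hn0
      _ = _ := by ring) (fun p : Fin (M * n) × Fin 3 => c p.1 p.2)
  refine ⟨Fin (M * n) × (Fin 2 → ZMod 2), inferInstance, cl c b, ?_, ?_, ?_⟩
  · rw [Fintype.card_prod, Fintype.card_fun, ZMod.card, Fintype.card_fin, Fintype.card_fin,
      mul_comm]
    norm_num
  · intro x
    rw [falsified_eq, viol_eq]
    have := hb x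
    push_cast at this
    exact this
  · intro D hD Q hconv hmiss hcov
    by_contra hcon
    push Not at hcon
    obtain ⟨C, hC, μ, hμC, Bd, hBd, hμ0, hμ1, hnear⟩ :=
      Pool.Agent.W888.UG.exists_near Q hconv hcov (δ / 2) (by linarith) (by linarith)
    have hQpos : (0 : ℝ) < Q.length := by
      exact_mod_cast List.length_pos_of_mem hC
    have hlogQ : Real.log Q.length ≤ γ * n := by
      have h1 := (Real.log_le_log hQpos hcon.le)
      rw [Real.log_rpow (by norm_num)] at h1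
      have h2 : γ * n * Real.log 2 ≤ γ * n * 1 := by
        refine mul_le_mul_of_nonneg_left ?_ (by positivity)
        have := Real.log_two_lt_d9
        linarith
      linarith
    have hBdc : (Bd.card : ℝ) ≤ ξ * n := by
      rw [ZMod.card] at hBd
      have h1 : (Bd.card : ℝ) * ((δ / 2) ^ 2 / 8) ≤ ξ * n * ((δ / 2) ^ 2 / 8) := by
        calc (Bd.card : ℝ) * ((δ / 2) ^ 2 / 8) = Bd.card * ((δ / 2) ^ 2 / (4 * (2 : ℕ))) := by
              push_cast
              ring
          _ ≤ γ * n := hBd.trans hlogQ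
          _ ≤ (ξ * (δ / 2) ^ 2 / 8) * n := by
              refine mul_le_mul_of_nonneg_right ?_ hn0.le
              rw [hγ]
              exact min_le_right _ _
          _ = _ := by ring
      exact le_of_mul_le_mul_right h1 (by positivity)
    have hDr : 8 * D ≤ r0 := by
      have h1 : (n : ℝ) < (r0 + 1) * K := by
        have h2 : n < (n / K + 1) * K := by
          have := Nat.lt_div_mul_add (a := n) hKpos
          calc n < n / K * K + K := this
            _ = _ := by ring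
        rw [← hr0] at h2
        exact_mod_cast h2
      have h2 : (D : ℝ) * (16 * K) ≤ n := by
        have h5 : (D : ℝ) ≤ 1 / (16 * K) * n := by
          refine hD.trans (mul_le_mul_of_nonneg_right ?_ hn0.le)
          rw [hγ]
          exact min_le_left _ _
        rwa [one_div, inv_mul_eq_div, le_div_iff₀ (by positivity)] at h5
      have h3 : ((D * 16 : ℕ) : ℝ) * K < ((r0 + 1 : ℕ) : ℝ) * K := by
        push_cast
        linarith
      have h4 : D * 16 < r0 + 1 := by exact_mod_cast lt_of_mul_lt_mul_right h3 hK0.le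
      omega
    classical
    obtain ⟨B, hBdef⟩ : ∃ B : Finset (Fin (M * n)), B = univ.filter fun j => Bad Bd (c j) :=
      ⟨_, rfl⟩
    obtain ⟨L, hL, hmarg, hval⟩ := near_pe (r0 := r0) (D := D) hr1 hDr c b hc1 Bd (δ / 2)
      (by linarith) (by linarith) μ hμ0 hμ1 (fun v hv a => by
        have := hnear v hv a
        rw [ZMod.card] at this
        push_cast at this
        exact this) B (fun j hj hbad => hj (by
        rw [hBdef, mem_filter]
        exact ⟨mem_univ _, hbad⟩))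
    refine hmiss C hC μ hμC ⟨L, hL, hmarg, ?_⟩
    have h1 : (fun x => (falsified (cl c b) x : ℝ)) = viol c b := funext fun x => falsified_eq c b x
    rw [h1]
    refine hval.trans ?_
    have h2 : (q : ℝ) * (B.card : ℝ) ≤ M * n := by
      have h3 := hc2 Bd hBdc
      have h4 : q * B.card ≤ M * n := by
        rw [hBdef]
        convert h3 using 2
      exact_mod_cast h4
    have h3 : 2 < q * δ := by
      rwa [div_lt_iff₀ hδ] at hq
    have h4 : (0 : ℝ) ≤ (B.card : ℝ) := Nat.cast_nonneg _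
    have h5 : (B.card : ℝ) ≤ δ / 2 * (M * n) := by
      have h6 : 2 * (B.card : ℝ) ≤ δ * (M * n) := by
        calc 2 * (B.card : ℝ) ≤ (q * δ) * B.card := mul_le_mul_of_nonneg_right h3.le h4
          _ = δ * (q * B.card) := by ring
          _ ≤ δ * (M * n) := mul_le_mul_of_nonneg_left h2 hδ.le
      linarith
    push_cast
    linarith

/-- The main theorem, with trees and split cuts. -/
theorem main3_all (δ : ℝ) (hδ : 0 < δ) (hδ1 : δ ≤ 1 / 8) :
    ∃ M : ℕ, 1 ≤ M ∧ ∃ γ : ℝ, 0 < γ ∧ ∃ n0 : ℕ, ∀ n : ℕ, n0 ≤ n →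
      ∃ (I : Type) (_ : Fintype I) (F : I → Clause 3 n),
        Fintype.card I = M * n ∧
        (∀ x, (1 / 8 - δ) * (M * n) ≤ (falsified F x : ℝ)) ∧
        (∀ D : ℕ, (D : ℝ) ≤ γ * n →
          (∀ Q : List (Set (Fin n → ZMod 2 → ℝ)), (∀ S ∈ Q, Convex ℝ S) →
            (∀ S ∈ Q, ∀ μ ∈ S, μ ∉ Relax D F (δ * (M * n))) →
            (∀ x : Fin n → ZMod 2, ∃ S ∈ Q, lab x ∈ S) →
            (2 : ℝ) ^ (γ * n) ≤ Q.length) ∧
          (∀ T : Tree (Fin n) (ZMod 2), T.Proves (Relax D F (δ * (M * n))) Set.univ →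
            (2 : ℝ) ^ (γ * n) ≤ T.leaves) ∧
          (∀ l, SplitProof (Relax D F (δ * (M * n))) l Set.univ →
            (2 : ℝ) ^ (γ * n) ≤ 2 * l.length + 1)) ∧
        (δ < 1 / 16 → ∀ D : ℕ, 3 ≤ D → ∃ T : Tree (Fin n) (ZMod 2), T.leaves = 2 ^ n ∧
          T.Proves (Relax D F (δ * (M * n))) Set.univ) := by
  obtain ⟨M, hM, γ, hγ, n0, h⟩ := main3 (4 * δ) (by linarith) (by linarith)
  refine ⟨4 * M, by omega, γ, hγ, max n0 1, fun n hn => ?_⟩
  obtain ⟨I, iI, F, h1, h2, h3⟩ := h n ((le_max_left _ _).trans hn)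
  have e1 : δ * (((4 * M : ℕ) : ℝ) * n) = 4 * δ * (M * n) := by
    push_cast
    ring
  have h3' : ∀ D : ℕ, (D : ℝ) ≤ γ * n →
      ∀ Q : List (Set (Fin n → ZMod 2 → ℝ)), (∀ S ∈ Q, Convex ℝ S) →
        (∀ S ∈ Q, ∀ μ ∈ S, μ ∉ Relax D F (δ * (((4 * M : ℕ) : ℝ) * n))) →
        (∀ x : Fin n → ZMod 2, ∃ S ∈ Q, lab x ∈ S) → (2 : ℝ) ^ (γ * n) ≤ Q.length := by
    intro D hD Q g1 g2 g3
    rw [e1] at g2
    exact h3 D hD Q g1 g2 g3
  have htree : ∀ D : ℕ, (D : ℝ) ≤ γ * n → ∀ T : Tree (Fin n) (ZMod 2),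
      T.Proves (Relax D F (δ * (((4 * M : ℕ) : ℝ) * n))) Set.univ →
      (2 : ℝ) ^ (γ * n) ≤ T.leaves := by
    intro D hD T hT
    obtain ⟨Q, g1, g2, g3, g4⟩ := cover_of_tree _ T Set.univ convex_univ hT
    rw [← g1]
    exact h3' D hD Q g2 g3 fun x => g4 x (Set.mem_univ _)
  have h2' : ∀ x, (1 / 8 - δ) * (((4 * M : ℕ) : ℝ) * n) ≤ (falsified F x : ℝ) := by
    intro x
    refine le_trans (le_of_eq ?_) (h2 x)
    push_cast
    ring
  refine ⟨I, iI, F, by rw [h1]; ring, h2', fun D hD => ⟨h3' D hD, htree D hD,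
    fun l hl => ?_⟩, ?_⟩
  · obtain ⟨T, hT, hP⟩ := tree_of_split _ l _ hl
    have := htree D hD T hP
    rw [hT] at this
    exact_mod_cast this
  · intro hδ4 D hkD
    refine exists_tree F _ hkD (by omega) fun x => lt_of_lt_of_le ?_ (h2' x)
    have hn1 : 1 ≤ n := (le_max_right _ _).trans hn
    have hn0 : (0 : ℝ) < n := by exact_mod_cast hn1
    have hM0 : (0 : ℝ) < ((4 * M : ℕ) : ℝ) := by exact_mod_cast (by omega : 0 < 4 * M)
    have : 0 < ((4 * M : ℕ) : ℝ) * n := by positivity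
    nlinarith

end Pool.Agent.W888.GX
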